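import Pool.Agent.Work.MP_097698_nt.Step

namespace Pool.Agent.Work.MP_097698_nt

open Finset

theorem loesch_mod {q : ℕ} [hq : Fact q.Prime] (h5 : 5 ≤ q) (t : ZMod q) :
    ∃ x y : ZMod q, x ^ 2 + x * y + y ^ 2 = t := by
  have hodd : Odd q := hq.out.odd_of_ne_two (by omega)
  have h3' : (3 : ZMod q) ≠ 0 := by
    intro h
    have : ((3 : ℕ) : ZMod q) = 0 := by exact_mod_cast h
    rw [ZMod.natCast_eq_zero_iff] at this
    have := Nat.le_of_dvd (by norm_num) this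
    omega
  have h2' : (2 : ZMod q) ≠ 0 := by
    intro h
    have : ((2 : ℕ) : ZMod q) = 0 := by exact_mod_cast h
    rw [ZMod.natCast_eq_zero_iff] at this
    have := Nat.le_of_dvd (by norm_num) this
    omega
  obtain ⟨u, v, huv⟩ := FiniteField.exists_root_sum_quadratic (R := ZMod q)
    (f := Polynomial.X ^ 2)
    (g := Polynomial.C 3 * Polynomial.X ^ 2 + Polynomial.C 0 * Polynomial.X + Polynomial.C (-4 * t))
    (Polynomial.degree_X_pow 2)
    (Polynomial.degree_quadratic h3') (by rw [ZMod.card]; exact Nat.odd_iff.1 hodd)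
  simp only [Polynomial.eval_pow, Polynomial.eval_X, Polynomial.eval_add, Polynomial.eval_mul,
    Polynomial.eval_C] at huv
  refine ⟨(u - v) / 2, v, ?_⟩
  have h4 : (4 : ZMod q) ≠ 0 := by
    have : (4 : ZMod q) = 2 * 2 := by norm_num
    rw [this]; exact mul_ne_zero h2' h2'
  apply mul_left_cancel₀ h4
  have e : (u - v) / 2 * 2 = u - v := div_mul_cancel₀ _ h2'
  set w := (u - v) / 2 with hw
  have e2 : u = 2 * w + v := by linear_combination -e
  rw [e2] at huv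
  linear_combination huv

theorem exists_margins {p q : ℕ} (hp : p.Prime) (hq : q.Prime) (hp2 : p ≠ 2) (hpq : p < q) (v : ℤ) :
    ∃ a : Fin p → Fin q → ℤ, (2 * p * q : ℤ) ∣ V a - 2 * v := by
  have : Fact p.Prime := ⟨hp⟩
  have : Fact q.Prime := ⟨hq⟩
  have hp3 : 3 ≤ p := by
    have := hp.two_le
    omega
  have hq5 : 5 ≤ q := by
    rcases Nat.lt_or_ge q 5 with h | h
    · exfalso
      have : q = 4 := by omega
      subst this
      exact absurd hq (by norm_num)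
    · exact h
  have hco : Nat.Coprime p q := (Nat.coprime_primes hp hq).2 hpq.ne
  have hqp : (q : ZMod p) ≠ 0 := by
    rw [Ne, ZMod.natCast_eq_zero_iff]
    intro h
    exact hpq.ne ((Nat.prime_dvd_prime_iff_eq hp hq).1 h)
  have hpq' : (p : ZMod q) ≠ 0 := by
    rw [Ne, ZMod.natCast_eq_zero_iff]
    intro h
    exact hpq.ne ((Nat.prime_dvd_prime_iff_eq hq hp).1 h).symm
  obtain ⟨x, y, hxy⟩ := ZMod.sq_add_sq p (-(v : ZMod p) / q)
  obtain ⟨z, w, hzw⟩ := loesch_mod hq5 (-(v : ZMod q) / p)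
  -- margins
  obtain ⟨k, hk⟩ : ∃ k, p = k + 3 := ⟨p - 3, by omega⟩
  obtain ⟨l, hl⟩ : ∃ l, q = l + 4 := ⟨q - 4, by omega⟩
  subst hk hl
  set X : ℤ := (x.val : ℤ) with hX
  set Y : ℤ := (y.val : ℤ) with hY
  set Z : ℤ := (z.val : ℤ) with hZ
  set W : ℤ := (w.val : ℤ) with hW
  have hXc : (X : ZMod (k + 3)) = x := by rw [hX]; push_cast; rw [ZMod.natCast_val, ZMod.cast_id]
  have hYc : (Y : ZMod (k + 3)) = y := by rw [hY]; push_cast; rw [ZMod.natCast_val, ZMod.cast_id]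
  have hZc : (Z : ZMod (l + 4)) = z := by rw [hZ]; push_cast; rw [ZMod.natCast_val, ZMod.cast_id]
  have hWc : (W : ZMod (l + 4)) = w := by rw [hW]; push_cast; rw [ZMod.natCast_val, ZMod.cast_id]
  let r : Fin (k + 3) → ℤ := Fin.cons Z (Fin.cons W (Fin.cons (-Z - W) (fun _ : Fin k => 0)))
  let c : Fin (l + 4) → ℤ := Fin.cons X (Fin.cons (-X) (Fin.cons Y (Fin.cons (-Y) (fun _ : Fin l => 0))))
  have hr0 : ∑ i, r i = 0 := by
    simp only [r]
    rw [Fin.sum_univ_succ, Fin.sum_univ_succ, Fin.sum_univ_succ]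
    simp only [Fin.cons_zero, Fin.cons_succ, Finset.sum_const_zero]
    ring
  have hr2 : ∑ i, r i ^ 2 = 2 * (Z ^ 2 + Z * W + W ^ 2) := by
    simp only [r]
    rw [Fin.sum_univ_succ, Fin.sum_univ_succ, Fin.sum_univ_succ]
    simp only [Fin.cons_zero, Fin.cons_succ]
    simp
    ring
  have hc0 : ∑ j, c j = 0 := by
    simp only [c]
    rw [Fin.sum_univ_succ, Fin.sum_univ_succ, Fin.sum_univ_succ, Fin.sum_univ_succ]
    simp only [Fin.cons_zero, Fin.cons_succ, Finset.sum_const_zero]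
    ring
  have hc2 : ∑ j, c j ^ 2 = 2 * (X ^ 2 + Y ^ 2) := by
    simp only [c]
    rw [Fin.sum_univ_succ, Fin.sum_univ_succ, Fin.sum_univ_succ, Fin.sum_univ_succ]
    simp only [Fin.cons_zero, Fin.cons_succ]
    simp
    ring
  let a : Fin (k + 3) → Fin (l + 4) → ℤ := fun i j => (if j = 0 then r i else 0) + (if i = 0 then c j else 0)
  have hrow : ∀ i, ∑ j, a i j = r i := by
    intro i
    simp only [a, Finset.sum_add_distrib]
    by_cases h : i = 0
    · simp [h, hc0]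
    · simp [h]
  have hcol : ∀ j, ∑ i, a i j = c j := by
    intro j
    simp only [a, Finset.sum_add_distrib]
    by_cases h : j = 0
    · simp [h, hr0]
    · simp [h]
  have hV : V a = ((k + 3 : ℕ) * (l + 4 : ℕ) : ℤ) * ∑ i, ∑ j, a i j ^ 2
      - ((l + 4 : ℕ) : ℤ) * (2 * (X ^ 2 + Y ^ 2))
      - ((k + 3 : ℕ) : ℤ) * (2 * (Z ^ 2 + Z * W + W ^ 2)) := by
    unfold V
    simp only [hrow, hcol, hr2, hc2, hr0, Fintype.card_fin]
    ring
  refine ⟨a, ?_⟩
  have d1 : ((k + 3 : ℕ) : ℤ) ∣ V a - 2 * v := by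
    rw [← ZMod.intCast_zmod_eq_zero_iff_dvd, hV]
    push_cast
    rw [hXc, hYc]
    have e0 : ((k : ZMod (k + 3)) + 3) = 0 := by
      have := ZMod.natCast_self (k + 3)
      push_cast at this
      exact this
    have e1 : ((l : ZMod (k + 3)) + 4) * (x ^ 2 + y ^ 2) = -(v : ZMod (k + 3)) := by
      rw [hxy]
      have : ((l : ZMod (k + 3)) + 4) ≠ 0 := by
        have := hqp
        push_cast at this
        exact this
      push_cast
      field_simp
    rw [e0]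
    linear_combination (-2) * e1
  have d2 : ((l + 4 : ℕ) : ℤ) ∣ V a - 2 * v := by
    rw [← ZMod.intCast_zmod_eq_zero_iff_dvd, hV]
    push_cast
    rw [hZc, hWc]
    have e0 : ((l : ZMod (l + 4)) + 4) = 0 := by
      have := ZMod.natCast_self (l + 4)
      push_cast at this
      exact this
    have e1 : ((k : ZMod (l + 4)) + 3) * (z ^ 2 + z * w + w ^ 2) = -(v : ZMod (l + 4)) := by
      rw [hzw]
      have : ((k : ZMod (l + 4)) + 3) ≠ 0 := by
        have := hpq'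
        push_cast at this
        exact this
      push_cast
      field_simp
    rw [e0]
    linear_combination (-2) * e1
  have d3 : (2 : ℤ) ∣ V a - 2 * v := by
    have h1 : IsVal ((k + 3) * (l + 4)) (V a) := (isVal_pq hp hq hpq.ne _).2 ⟨a, rfl⟩
    obtain ⟨α, hα⟩ := (isVal_iff_Q (Nat.mul_pos hp.pos hq.pos) _).1 h1
    have h2 := Q_even (m := (k + 3) * (l + 4)) (by nlinarith) α
    rw [hα] at h2
    exact dvd_sub h2.two_dvd (Dvd.intro _ rfl)
  have hodd : Nat.Coprime 2 ((k + 3) * (l + 4)) := by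
    rw [Nat.coprime_two_left]
    exact (hp.odd_of_ne_two hp2).mul (hq.odd_of_ne_two (by omega))
  have c1 : IsCoprime ((k + 3 : ℕ) : ℤ) ((l + 4 : ℕ) : ℤ) := Nat.isCoprime_iff_coprime.2 hco
  have c2 : IsCoprime (2 : ℤ) (((k + 3) * (l + 4) : ℕ) : ℤ) := by
    exact_mod_cast Nat.isCoprime_iff_coprime.2 hodd
  have d4 : (((k + 3) * (l + 4) : ℕ) : ℤ) ∣ V a - 2 * v := by
    push_cast
    have := c1.mul_dvd d1 d2
    push_cast at this
    exact this
  have := c2.mul_dvd d3 d4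
  have e : (2 * ((k + 3 : ℕ) : ℤ) * ((l + 4 : ℕ) : ℤ)) = 2 * (((k + 3) * (l + 4) : ℕ) : ℤ) := by
    push_cast; ring
  rw [e]
  exact this

theorem gap_le {p q : ℕ} (r : Fin p → ℕ) (c : Fin q → ℕ) (h : ∑ i, r i = ∑ j, c j) :
    4 * gap r c ≤ ((p : ℤ) * q) ^ 2 := by
  unfold gap
  have hs : (∑ j, (c j : ℤ)) = ∑ i, (r i : ℤ) := by exact_mod_cast h.symm
  have h1 : (∑ i, (r i : ℤ)) ^ 2 ≤ p * ∑ i, (r i : ℤ) ^ 2 := by
    have := sq_sum_le_card_mul_sum_sq (s := (univ : Finset (Fin p))) (f := fun i => (r i : ℤ))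
    simpa using this
  have h2 : (∑ i, (r i : ℤ)) ^ 2 ≤ q * ∑ j, (c j : ℤ) ^ 2 := by
    have := sq_sum_le_card_mul_sum_sq (s := (univ : Finset (Fin q))) (f := fun j => (c j : ℤ))
    rw [hs] at this
    simpa using this
  set s := ∑ i, (r i : ℤ)
  nlinarith [sq_nonneg ((p : ℤ) * q - 2 * s)]

theorem large_pq {p q : ℕ} (hp : p.Prime) (hq : q.Prime) (hp2 : p ≠ 2) (hpq : p < q) :
    Large (p * q) := by
  intro v hv
  obtain ⟨a, ha⟩ := exists_margins hp hq hp2 hpq v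
  have h1 : IsVal (p * q) (V a) := (isVal_pq hp hq hpq.ne _).2 ⟨a, rfl⟩
  obtain ⟨r, c, k, hGR, _, hV⟩ := (isVal_pq_iff hp hq hp2 hpq _).1 h1
  have hgap := gap_le r c hGR.1
  obtain ⟨t, ht⟩ := ha
  rw [hV] at ht
  have hp3 : (3 : ℤ) ≤ p := by
    have := hp.two_le
    have : 3 ≤ p := by omega
    exact_mod_cast this
  have hq3 : (3 : ℤ) ≤ q := by
    have : (p : ℤ) < q := by exact_mod_cast hpq
    linarith
  push_cast at hv
  set n : ℤ := (p : ℤ) * q with hn
  have hn9 : 9 ≤ n := by nlinarith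
  -- 2 v = gap + 2 n (k - t)
  have h2 : 2 * v = gap r c + 2 * n * (k - t) := by
    rw [hn]; linear_combination -ht
  have h3 : 2 ≤ (k : ℤ) - t := by
    by_contra hcon
    push Not at hcon
    have : (k : ℤ) - t ≤ 1 := by omega
    have h4 : 2 * n * (k - t) ≤ 2 * n := by nlinarith
    nlinarith
  obtain ⟨j, hj⟩ : ∃ j : ℕ, (j : ℤ) = k - t := ⟨((k : ℤ) - t).toNat, Int.toNat_of_nonneg (by omega)⟩
  refine (isVal_pq_iff hp hq hp2 hpq _).2 ⟨r, c, j, hGR, Or.inr (by omega), ?_⟩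
  rw [h2, hj]

end Pool.Agent.Work.MP_097698_nt
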