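import Pool.Agent.Work.MP_097698_nt.Base

namespace Pool.Agent.Work.MP_097698_nt

open Finset

/-- Induction over the set of the odd primes. -/
theorem large_prod : ∀ (k : ℕ) (S : Finset ℕ), S.card = k + 2 → (∀ p ∈ S, p.Prime ∧ p ≠ 2) →
    Large (∏ l ∈ S, l) := by
  intro k
  induction k with
  | zero =>
    intro S hS hp
    obtain ⟨p, q, hne, rfl⟩ := Finset.card_eq_two.1 hS
    have h1 := hp p (by simp)
    have h2 := hp q (by simp)
    rw [Finset.prod_pair hne]
    rcases lt_or_gt_of_ne hne with h | h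
    · exact large_pq h1.1 h2.1 h1.2 h
    · rw [mul_comm]
      exact large_pq h2.1 h1.1 h2.2 h
  | succ k ih =>
    intro S hS hp
    have hne : S.Nonempty := Finset.card_pos.1 (by omega)
    set l := S.max' hne with hl
    have hlS : l ∈ S := S.max'_mem hne
    have hcard : (S.erase l).card = k + 2 := by
      rw [Finset.card_erase_of_mem hlS]; omega
    have hp' : ∀ p ∈ S.erase l, p.Prime ∧ p ≠ 2 := fun p h => hp p (Finset.mem_of_mem_erase h)
    have hL := ih (S.erase l) hcard hp'
    have hprod : ∏ x ∈ S, x = l * ∏ x ∈ S.erase l, x := (Finset.mul_prod_erase S (fun x => x) hlS).symm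
    -- there are two different primes in the rest
    obtain ⟨p, hpS, q, hqS, hpq⟩ := Finset.one_lt_card.1 (show 1 < (S.erase l).card by omega)
    have h1 := hp' p hpS
    have h2 := hp' q hqS
    have p3 : 3 ≤ p := by have := h1.1.two_le; have := h1.2; omega
    have q3 : 3 ≤ q := by have := h2.1.two_le; have := h2.2; omega
    have hpl : p < l := lt_of_le_of_ne (S.le_max' p (Finset.mem_of_mem_erase hpS)) (Finset.ne_of_mem_erase hpS)
    have hql : q < l := lt_of_le_of_ne (S.le_max' q (Finset.mem_of_mem_erase hqS)) (Finset.ne_of_mem_erase hqS)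
    have h9 : 9 ≤ ∏ x ∈ S.erase l, x := by
      have hsub : ({p, q} : Finset ℕ) ⊆ S.erase l := by
        intro x hx
        rcases Finset.mem_insert.1 hx with h | h
        · rw [h]; exact hpS
        · rw [Finset.mem_singleton.1 h]; exact hqS
      have h3 : ∏ x ∈ ({p, q} : Finset ℕ), x ≤ ∏ x ∈ S.erase l, x :=
        Finset.prod_le_prod_of_subset_of_one_le' hsub (fun x hx _ => (hp' x hx).1.one_le)
      rw [Finset.prod_pair hpq] at h3
      nlinarith
    have hodd : Odd (∏ x ∈ S.erase l, x) := by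
      refine Finset.prod_induction _ Odd (fun a b ha hb => ha.mul hb) odd_one ?_
      intro x hx
      exact (hp' x hx).1.odd_of_ne_two (hp' x hx).2
    have hco : Nat.Coprime l (∏ x ∈ S.erase l, x) := by
      refine Nat.Coprime.prod_right fun x hx => ?_
      exact (Nat.coprime_primes (hp l hlS).1 (hp' x hx).1).2 (Finset.ne_of_mem_erase hx).symm
    rw [hprod]
    exact step (hp l hlS).1 (by omega) hodd h9 hco hL

/-- The odd part of the radical. -/
theorem rd_odd_part (n : ℕ) :
    (∀ v, IsVal (rd n) v ↔ IsVal (∏ l ∈ n.primeFactors \ {2}, l) v) ∧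
      Nat.totient (rd n) = Nat.totient (∏ l ∈ n.primeFactors \ {2}, l) := by
  have hodd : Odd (∏ l ∈ n.primeFactors \ {2}, l) := by
    refine Finset.prod_induction _ Odd (fun a b ha hb => ha.mul hb) odd_one ?_
    intro x hx
    rw [Finset.mem_sdiff, Finset.mem_singleton] at hx
    exact (Nat.prime_of_mem_primeFactors hx.1).odd_of_ne_two hx.2
  by_cases h2 : 2 ∈ n.primeFactors
  · have hrd : rd n = 2 * ∏ l ∈ n.primeFactors \ {2}, l := by
      unfold rd
      rw [Finset.sdiff_singleton_eq_erase]
      exact (Finset.mul_prod_erase _ (fun x => x) h2).symm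
    rw [hrd]
    refine ⟨fun v => isVal_two_mul hodd v, ?_⟩
    rw [Nat.totient_mul ((Nat.coprime_two_left).2 hodd), Nat.totient_two, one_mul]
  · have hrd : rd n = ∏ l ∈ n.primeFactors \ {2}, l := by
      unfold rd
      rw [Finset.sdiff_singleton_eq_erase, Finset.erase_eq_of_notMem h2]
    rw [hrd]
    exact ⟨fun v => Iff.rfl, rfl⟩

theorem isVal_zero (m : ℕ) : IsVal m 0 := by
  have := isVal_Q (m := m) 0
  rwa [Q_zero] at this

theorem cofinite_main (n : ℕ) (h : 2 ≤ (n.primeFactors \ {2}).card) :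
    (∀ x ∈ casselsSet n, ∃ v : ℕ, x = 2 * (v : ℝ) / (Nat.totient (rd n) : ℝ)) ∧
    (∀ v : ℕ, (∏ l ∈ n.primeFactors \ {2}, l) ^ 2 ≤ v →
      2 * (v : ℝ) / (Nat.totient (rd n) : ℝ) ∈ casselsSet n) := by
  have hn : 0 < n := by
    rcases Nat.eq_zero_or_pos n with h0 | h0
    · subst h0; simp at h
    · exact h0
  obtain ⟨h1, h2⟩ := rd_odd_part n
  set m := ∏ l ∈ n.primeFactors \ {2}, l with hm
  have hL : Large m := by
    refine large_prod ((n.primeFactors \ {2}).card - 2) _ (by omega) ?_
    intro p hp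
    rw [Finset.mem_sdiff, Finset.mem_singleton] at hp
    exact ⟨Nat.prime_of_mem_primeFactors hp.1, hp.2⟩
  have hm3 : 2 < m := by
    obtain ⟨p, hp⟩ := Finset.card_pos.1 (show 0 < (n.primeFactors \ {2}).card by omega)
    have hp' := hp
    rw [Finset.mem_sdiff, Finset.mem_singleton] at hp'
    have hpr := Nat.prime_of_mem_primeFactors hp'.1
    have hdvd : p ∣ m := Finset.dvd_prod_of_mem (fun x => x) hp
    have hpos : 0 < m := Finset.prod_pos fun x hx => by
      rw [Finset.mem_sdiff] at hx
      exact (Nat.prime_of_mem_primeFactors hx.1).pos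
    have := Nat.le_of_dvd hpos hdvd
    have := hpr.two_le
    have := hp'.2
    omega
  set N := n / rd n with hNdef
  have hN : n = N * rd n := (Nat.div_mul_cancel (rd_dvd n)).symm
  have hN0 : 0 < N := by
    rcases Nat.eq_zero_or_pos N with h | h
    · rw [h, zero_mul] at hN; omega
    · exact h
  constructor
  · intro x hx
    obtain ⟨w, hw, rfl⟩ := (mem_casselsSet_rd hn hN x).1 hx
    have hw' : ∀ t, ∃ u : ℕ, w t = 2 * u := by
      intro t
      obtain ⟨α, hα⟩ := (isVal_iff_Q (by omega) _).1 ((h1 _).1 (hw t))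
      have e1 := Q_even hm3 α
      have e2 := Q_nonneg (by omega : 0 < m) α
      rw [hα] at e1 e2
      obtain ⟨u, hu⟩ := e1
      refine ⟨u.toNat, ?_⟩
      have : 0 ≤ u := by omega
      rw [Int.toNat_of_nonneg this]; omega
    choose u hu using hw'
    refine ⟨∑ t, u t, ?_⟩
    congr 1
    push_cast
    rw [Finset.mul_sum]
    refine Finset.sum_congr rfl fun t _ => ?_
    rw [hu t]; push_cast; ring
  · intro v hv
    rw [mem_casselsSet_rd hn hN]
    refine ⟨fun t => if t = ⟨0, hN0⟩ then 2 * (v : ℤ) else 0, ?_, ?_⟩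
    · intro t
      rw [h1]
      dsimp only
      by_cases ht : t = ⟨0, hN0⟩
      · rw [if_pos ht]
        exact hL v (by exact_mod_cast hv)
      · rw [if_neg ht]
        exact isVal_zero m
    · congr 1
      rw [Finset.sum_ite_eq' (univ : Finset (Fin N)) ⟨0, hN0⟩ (fun _ => 2 * (v : ℤ))]
      simp

end Pool.Agent.Work.MP_097698_nt
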