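import Pool.Agent.Work.MP_097698_nt.Incr

namespace Pool.Agent.Work.MP_097698_nt

open Finset

theorem R3_of_diff {x y z m : ℤ} (h : R3 ((x - y) + (y - z)) (y - z) 0 m) : R3 x y z m := by
  have := R3_shift z h
  have e1 : (x - y) + (y - z) + z = x := by ring
  have e2 : y - z + z = y := by ring
  rw [e1, e2, zero_add] at this
  exact this

theorem LN_bounds {p q N : ℤ} (h : LN p q = N) : 3 * q ^ 2 ≤ 4 * N ∧ 3 * p ^ 2 ≤ 4 * N := by
  unfold LN at h
  constructor <;> nlinarith [sq_nonneg (2 * p + q), sq_nonneg (2 * q + p)]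

theorem R3_T1 {p q m : ℤ} (h : LN p q = 1) (hm : Lo (6 * m + 1)) : R3 (p + q) q 0 m := by
  obtain ⟨b1, b2⟩ := LN_bounds h
  have q1 : q ≤ 1 := by nlinarith
  have q2 : -1 ≤ q := by nlinarith
  have p1 : p ≤ 1 := by nlinarith
  have p2 : -1 ≤ p := by nlinarith
  have k1 := R3_100 hm
  have k2 := R3_rot k1
  have k3 := R3_rot k2
  have n1 := R3_neg k1
  have n2 := R3_neg k2
  have n3 := R3_neg k3
  interval_cases p <;> interval_cases q <;> norm_num [LN] at h <;> norm_num
  · -- p = -1, q = 0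
    simpa using n1
  · -- p = -1, q = 1
    simpa using k3
  · -- p = 0, q = -1
    simpa using R3_shift (-1) k2
  · simpa using R3_shift 1 n2
  · simpa using n3
  · simpa using k1

theorem R3_T2 {p q m : ℤ} (h : LN p q = 3) (hm : Lo (2 * m + 1)) : R3 (p + q) q 0 m := by
  obtain ⟨b1, b2⟩ := LN_bounds h
  have q1 : q ≤ 2 := by nlinarith
  have q2 : -2 ≤ q := by nlinarith
  have p1 : p ≤ 2 := by nlinarith
  have p2 : -2 ≤ p := by nlinarith
  have k1 := R3_1n0 hm
  have k2 := R3_rot k1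
  have k3 := R3_rot k2
  have n1 := R3_neg k1
  have n2 := R3_neg k2
  have n3 := R3_neg k3
  interval_cases p <;> interval_cases q <;> norm_num [LN] at h <;> norm_num
  all_goals first
    | simpa using k1
    | simpa using k2
    | simpa using k3
    | simpa using n1
    | simpa using n2
    | simpa using n3
    | (have := R3_shift 1 k1; norm_num at this; exact this)
    | (have := R3_shift 1 k2; norm_num at this; exact this)
    | (have := R3_shift 1 k3; norm_num at this; exact this)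
    | (have := R3_shift 1 n1; norm_num at this; exact this)
    | (have := R3_shift 1 n2; norm_num at this; exact this)
    | (have := R3_shift 1 n3; norm_num at this; exact this)
    | (have := R3_shift (-1) k1; norm_num at this; exact this)
    | (have := R3_shift (-1) k2; norm_num at this; exact this)
    | (have := R3_shift (-1) k3; norm_num at this; exact this)
    | (have := R3_shift (-1) n1; norm_num at this; exact this)
    | (have := R3_shift (-1) n2; norm_num at this; exact this)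
    | (have := R3_shift (-1) n3; norm_num at this; exact this)

theorem R3_T3 {p q n : ℤ} (h : LN p q = 4) (hm : Lo (3 * n + 1)) : R3 (p + q) q 0 (2 * n) := by
  obtain ⟨b1, b2⟩ := LN_bounds h
  have q1 : q ≤ 2 := by nlinarith
  have q2 : -2 ≤ q := by nlinarith
  have p1 : p ≤ 2 := by nlinarith
  have p2 : -2 ≤ p := by nlinarith
  have k1 := R3_200 hm
  have k2 := R3_rot k1
  have k3 := R3_rot k2
  have n1 := R3_neg k1
  have n2 := R3_neg k2
  have n3 := R3_neg k3
  interval_cases p <;> interval_cases q <;> norm_num [LN] at h <;> norm_num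
  all_goals first
    | simpa using k1
    | simpa using k2
    | simpa using k3
    | simpa using n1
    | simpa using n2
    | simpa using n3
    | (have := R3_shift 2 k1; norm_num at this; exact this)
    | (have := R3_shift 2 k2; norm_num at this; exact this)
    | (have := R3_shift 2 k3; norm_num at this; exact this)
    | (have := R3_shift 2 n1; norm_num at this; exact this)
    | (have := R3_shift 2 n2; norm_num at this; exact this)
    | (have := R3_shift 2 n3; norm_num at this; exact this)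
    | (have := R3_shift (-2) k1; norm_num at this; exact this)
    | (have := R3_shift (-2) k2; norm_num at this; exact this)
    | (have := R3_shift (-2) k3; norm_num at this; exact this)
    | (have := R3_shift (-2) n1; norm_num at this; exact this)
    | (have := R3_shift (-2) n2; norm_num at this; exact this)
    | (have := R3_shift (-2) n3; norm_num at this; exact this)

def Pt : Fin 7 → ℤ := ![0, 1, 0, -1, -1, 0, 1]
def Qt : Fin 7 → ℤ := ![0, 0, 1, 1, 0, -1, -1]

theorem typN_spec : ∀ c d : Fin 7,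
    (typN c d = 1 → LN (Pt c - Pt d) (Qt c - Qt d) = 1) ∧
    (typN c d = 2 → LN (Pt c - Pt d) (Qt c - Qt d) = 3) ∧
    (typN c d = 3 → LN (Pt c - Pt d) (Qt c - Qt d) = 4) := by
  decide +kernel

/-- Column `j` of `a` has class `c`. -/
def Cls {κ : Type*} (a : Fin 3 → κ → ℤ) (j : κ) (c : Fin 7) : Prop :=
  a 0 j - a 1 j = Pt c ∧ a 1 j - a 2 j = Qt c

theorem R3_cls1 {κ : Type*} {a : Fin 3 → κ → ℤ} {i j : κ} {c d : Fin 7} {m : ℤ}
    (hc : Cls a i c) (hd : Cls a j d) (h : typN c d = 1) (hm : Lo (6 * m + 1)) :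
    R3 (a 0 i - a 0 j) (a 1 i - a 1 j) (a 2 i - a 2 j) m := by
  apply R3_of_diff
  have e1 : a 0 i - a 0 j - (a 1 i - a 1 j) = Pt c - Pt d := by rw [← hc.1, ← hd.1]; ring
  have e2 : a 1 i - a 1 j - (a 2 i - a 2 j) = Qt c - Qt d := by rw [← hc.2, ← hd.2]; ring
  rw [e1, e2]
  exact R3_T1 ((typN_spec c d).1 h) hm

theorem R3_cls2 {κ : Type*} {a : Fin 3 → κ → ℤ} {i j : κ} {c d : Fin 7} {m : ℤ}
    (hc : Cls a i c) (hd : Cls a j d) (h : typN c d = 2) (hm : Lo (2 * m + 1)) :
    R3 (a 0 i - a 0 j) (a 1 i - a 1 j) (a 2 i - a 2 j) m := by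
  apply R3_of_diff
  have e1 : a 0 i - a 0 j - (a 1 i - a 1 j) = Pt c - Pt d := by rw [← hc.1, ← hd.1]; ring
  have e2 : a 1 i - a 1 j - (a 2 i - a 2 j) = Qt c - Qt d := by rw [← hc.2, ← hd.2]; ring
  rw [e1, e2]
  exact R3_T2 ((typN_spec c d).2.1 h) hm

theorem R3_cls3 {κ : Type*} {a : Fin 3 → κ → ℤ} {i j : κ} {c d : Fin 7} {n : ℤ}
    (hc : Cls a i c) (hd : Cls a j d) (h : typN c d = 3) (hm : Lo (3 * n + 1)) :
    R3 (a 0 i - a 0 j) (a 1 i - a 1 j) (a 2 i - a 2 j) (2 * n) := by
  apply R3_of_diff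
  have e1 : a 0 i - a 0 j - (a 1 i - a 1 j) = Pt c - Pt d := by rw [← hc.1, ← hd.1]; ring
  have e2 : a 1 i - a 1 j - (a 2 i - a 2 j) = Qt c - Qt d := by rw [← hc.2, ← hd.2]; ring
  rw [e1, e2]
  exact R3_T3 ((typN_spec c d).2.2 h) hm

theorem nn_cases {c d : Fin 7} (h : nn c d = true) : typN c d = 1 ∨ typN c d = 2 := by
  unfold nn at h
  simpa using h

/-- good configuration suffices. -/
theorem Inc_goodc (a : Fin 3 → Fin 5 → ℤ) (c : Fin 5 → Fin 7) (hc : ∀ j, Cls a j (c j))
    (h : goodc (c 0) (c 1) (c 2) (c 3) (c 4) = true) (k : ℕ) : IncR a k := by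
  unfold goodc at h
  simp only [Bool.or_eq_true, Bool.and_eq_true, beq_iff_eq] at h
  rcases h with (⟨h1, h2⟩ | ⟨h1, h2⟩) | ⟨⟨h1, h2⟩, h3⟩
  · rcases nn_cases h1 with t1 | t1 <;> rcases nn_cases h2 with t2 | t2
    · obtain ⟨m, n, hm, hn, hk⟩ := combo11 k
      rw [← hk]
      exact Inc_pairs a (R3_cls1 (hc 0) (hc 1) t1 hm) (R3_cls1 (hc 2) (hc 3) t2 hn)
    · obtain ⟨m, n, hm, hn, hk⟩ := combo12 k
      rw [← hk]
      exact Inc_pairs a (R3_cls1 (hc 0) (hc 1) t1 hm) (R3_cls2 (hc 2) (hc 3) t2 hn)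
    · obtain ⟨m, n, hm, hn, hk⟩ := combo12 k
      rw [← hk, add_comm]
      exact Inc_pairs a (R3_cls2 (hc 0) (hc 1) t1 hn) (R3_cls1 (hc 2) (hc 3) t2 hm)
    · obtain ⟨m, n, hm, hn, hk⟩ := combo22 k
      rw [← hk]
      exact Inc_pairs a (R3_cls2 (hc 0) (hc 1) t1 hm) (R3_cls2 (hc 2) (hc 3) t2 hn)
  · obtain ⟨m, n, hm, hn, hk⟩ := combo13 k
    rw [← hk]
    exact Inc_pairs a (R3_cls1 (hc 0) (hc 1) h1 hm) (R3_cls3 (hc 2) (hc 3) h2 hn)
  · have g : ∀ (m : ℤ) (n : ℕ), R3 (a 0 0 - a 0 1) (a 1 0 - a 1 1) (a 2 0 - a 2 1) m → n % 3 ≠ 1 →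
        m + n = k → IncR a k := by
      intro m n hm hn hk
      rw [← hk]
      have c2 := hc 2
      have c3 := hc 3
      have c4 := hc 4
      rw [h2] at c2
      rw [← h3] at c4
      refine Inc_triple a hm ?_ ?_ ?_ ?_ (Z3 n hn)
      · linarith [c2.1, c3.1]
      · linarith [c2.2, c3.2]
      · linarith [c3.1, c4.1]
      · linarith [c3.2, c4.2]
    by_cases hk : k % 3 = 1
    · refine g 1 (k - 1) ?_ (by omega) (by omega)
      rcases nn_cases h1 with t1 | t1
      · exact R3_cls1 (hc 0) (hc 1) t1 ⟨2, 1, by norm_num [LN]⟩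
      · exact R3_cls2 (hc 0) (hc 1) t1 ⟨1, 1, by norm_num [LN]⟩
    · exact g 0 k (R3_zero _ _ _) hk (by omega)

theorem Inc_perm (a : Fin 3 → Fin 5 → ℤ) (c : Fin 5 → Fin 7) (hc : ∀ j, Cls a j (c j))
    (g : Fin 5 → Fin 5) (hg : Function.Injective g)
    (h : goodc (c (g 0)) (c (g 1)) (c (g 2)) (c (g 3)) (c (g 4)) = true) (k : ℕ) : IncR a k := by
  apply IncR_extend (fun s : Fin 3 => s) g Function.injective_id hg
  exact Inc_goodc (fun s t => a s (g t)) (fun j => c (g j)) (fun j => hc (g j)) h k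

theorem Inc_nn01 (a : Fin 3 → Fin 5 → ℤ) (c : Fin 5 → Fin 7) (hc : ∀ j, Cls a j (c j))
    (h : nn (c 0) (c 1) = true) (k : ℕ) : IncR a k := by
  have := sel_of_nn (c 0) (c 1) (c 2) (c 3) (c 4) h
  unfold sel at this
  simp only [Bool.or_eq_true] at this
  have P := fun g hg h => Inc_perm a c hc g hg h k
  rcases this with (((((((((((((((((((h | h) | h) | h) | h) | h) | h) | h) | h) | h) | h) | h) | h) | h) | h) | h) | h) | h) | h) | h) | h
  · exact P ![0, 1, 2, 3, 4] (by decide) h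
  · exact P ![0, 1, 2, 4, 3] (by decide) h
  · exact P ![0, 1, 3, 4, 2] (by decide) h
  · exact P ![0, 2, 1, 3, 4] (by decide) h
  · exact P ![0, 2, 3, 4, 1] (by decide) h
  · exact P ![0, 3, 2, 4, 1] (by decide) h
  · exact P ![0, 4, 2, 3, 1] (by decide) h
  · exact P ![1, 2, 3, 4, 0] (by decide) h
  · exact P ![1, 3, 2, 4, 0] (by decide) h
  · exact P ![1, 4, 2, 3, 0] (by decide) h
  · exact P ![0, 2, 1, 4, 3] (by decide) h
  · exact P ![0, 3, 1, 2, 4] (by decide) h
  · exact P ![0, 3, 1, 4, 2] (by decide) h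
  · exact P ![0, 4, 1, 2, 3] (by decide) h
  · exact P ![0, 4, 1, 3, 2] (by decide) h
  · exact P ![1, 2, 0, 3, 4] (by decide) h
  · exact P ![1, 2, 0, 4, 3] (by decide) h
  · exact P ![1, 3, 0, 2, 4] (by decide) h
  · exact P ![1, 3, 0, 4, 2] (by decide) h
  · exact P ![1, 4, 0, 2, 3] (by decide) h
  · exact P ![1, 4, 0, 3, 2] (by decide) h

/-- An injective relabelling of `Fin 5` starting with two given distinct indices. -/
theorem exists_perm (i j : Fin 5) (hij : i ≠ j) :
    ∃ g : Fin 5 → Fin 5, Function.Injective g ∧ g 0 = i ∧ g 1 = j := by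
  have h1 : Equiv.swap 0 i j ≠ 0 := by
    intro h
    have := congrArg (Equiv.swap 0 i) h
    rw [Equiv.swap_apply_self, Equiv.swap_apply_left] at this
    exact hij this.symm
  refine ⟨fun t => Equiv.swap 0 i (Equiv.swap 1 (Equiv.swap 0 i j) t), ?_, ?_, ?_⟩
  · exact (Equiv.swap 0 i).injective.comp (Equiv.swap 1 (Equiv.swap 0 i j)).injective
  · simp only
    rw [Equiv.swap_apply_of_ne_of_ne (by decide) h1.symm, Equiv.swap_apply_left]
  · simp only
    rw [Equiv.swap_apply_left, Equiv.swap_apply_self]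

theorem Inc_nn (a : Fin 3 → Fin 5 → ℤ) (c : Fin 5 → Fin 7) (hc : ∀ j, Cls a j (c j)) (i j : Fin 5)
    (h : nn (c i) (c j) = true) (k : ℕ) : IncR a k := by
  have hij : i ≠ j := by
    rintro rfl
    have : ∀ x : Fin 7, nn x x = false := by decide +kernel
    rw [this] at h; exact absurd h (by decide)
  obtain ⟨g, hg, g0, g1⟩ := exists_perm i j hij
  apply IncR_extend (fun s : Fin 3 => s) g Function.injective_id hg
  refine Inc_nn01 (fun s t => a s (g t)) (fun j => c (g j)) (fun j => hc (g j)) ?_ k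
  simp only [g0, g1]
  exact h

end Pool.Agent.Work.MP_097698_nt
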