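import Pool.Agent.Work.MP_097698_nt.Core

namespace Pool.Agent.Work.MP_097698_nt

open Finset

theorem Inc_sw (a : Fin 3 → Fin 5 → ℤ) (c : Fin 5 → Fin 7) (hc : ∀ j, Cls a j (c j))
    (e0 e1 e2 : ℤ) (hE : e0 + e1 + e2 = 0)
    (hS : e0 ^ 2 + e1 ^ 2 + e2 ^ 2 + (a 0 1 - a 0 0) * e0 + (a 1 1 - a 1 0) * e1
      + (a 2 1 - a 2 0) * e2 = 0)
    (x' y' : Fin 7)
    (hx : (a 0 0 - e0) - (a 1 0 - e1) = Pt x' ∧ (a 1 0 - e1) - (a 2 0 - e2) = Qt x')
    (hy : (a 0 1 + e0) - (a 1 1 + e1) = Pt y' ∧ (a 1 1 + e1) - (a 2 1 + e2) = Qt y')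
    (h : nn x' (c 2) = true) (k : ℕ) : IncR a k := by
  apply IncR_switch (X := ![![-e0, e0, 0, 0, 0], ![-e1, e1, 0, 0, 0], ![-e2, e2, 0, 0, 0]])
  · intro i; fin_cases i <;> simp [Fin.sum_univ_succ]
  · intro j; fin_cases j <;> simp [Fin.sum_univ_succ] <;> linarith
  · simp only [Fin.sum_univ_succ, Fin.sum_univ_zero, Matrix.cons_val_zero, Matrix.cons_val_succ,
      Fin.succ_zero_eq_one]
    simp
    linear_combination 2 * hS
  · refine Inc_nn _ (![x', y', c 2, c 3, c 4]) ?_ 0 2 (by simpa using h) k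
    have h2 := hc 2
    have h3 := hc 3
    have h4 := hc 4
    unfold Cls at h2 h3 h4 ⊢
    intro j
    fin_cases j
    · simpa [sub_eq_add_neg, add_comm, add_left_comm, add_assoc] using hx
    · simpa using hy
    · simpa using h2
    · simpa using h3
    · simpa using h4

theorem cv1 {x y z : ℤ} (hx : x = 0 ∨ x = 1) (hy : y = 0 ∨ y = 1) (hz : z = 0 ∨ z = 1)
    (h1 : x - y = 1) (h2 : y - z = 0) : x = 1 ∧ y = 0 ∧ z = 0 := by omega

theorem cv2 {x y z : ℤ} (hx : x = 0 ∨ x = 1) (hy : y = 0 ∨ y = 1) (hz : z = 0 ∨ z = 1)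
    (h1 : x - y = 0) (h2 : y - z = 1) : x = 1 ∧ y = 1 ∧ z = 0 := by omega

theorem cv3 {x y z : ℤ} (hx : x = 0 ∨ x = 1) (hy : y = 0 ∨ y = 1) (hz : z = 0 ∨ z = 1)
    (h1 : x - y = -1) (h2 : y - z = 1) : x = 0 ∧ y = 1 ∧ z = 0 := by omega

theorem cv4 {x y z : ℤ} (hx : x = 0 ∨ x = 1) (hy : y = 0 ∨ y = 1) (hz : z = 0 ∨ z = 1)
    (h1 : x - y = -1) (h2 : y - z = 0) : x = 0 ∧ y = 1 ∧ z = 1 := by omega

theorem cv5 {x y z : ℤ} (hx : x = 0 ∨ x = 1) (hy : y = 0 ∨ y = 1) (hz : z = 0 ∨ z = 1)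
    (h1 : x - y = 0) (h2 : y - z = -1) : x = 0 ∧ y = 0 ∧ z = 1 := by omega

theorem cv6 {x y z : ℤ} (hx : x = 0 ∨ x = 1) (hy : y = 0 ∨ y = 1) (hz : z = 0 ∨ z = 1)
    (h1 : x - y = 1) (h2 : y - z = -1) : x = 1 ∧ y = 0 ∧ z = 1 := by omega

theorem fin7_cases : ∀ x : Fin 7, x = 0 ∨ x = 1 ∨ x = 2 ∨ x = 3 ∨ x = 4 ∨ x = 5 ∨ x = 6 := by
  decide

theorem opp_table : ∀ y : Fin 7, (typN 0 y ≠ 3) ∧ (typN 1 y = 3 → y = 4) ∧ (typN 2 y = 3 → y = 5) ∧
    (typN 3 y = 3 → y = 6) ∧ (typN 4 y = 3 → y = 1) ∧ (typN 5 y = 3 → y = 2) ∧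
    (typN 6 y = 3 → y = 3) := by
  decide

theorem Inc_opp (a : Fin 3 → Fin 5 → ℤ) (h01 : ∀ s t, a s t = 0 ∨ a s t = 1)
    (c : Fin 5 → Fin 7) (hc : ∀ j, Cls a j (c j)) (h : typN (c 0) (c 1) = 3)
    (h2 : c 2 = c 0 ∨ c 2 = c 1) (k : ℕ) : IncR a k := by
  have g00 := h01 0 0
  have g10 := h01 1 0
  have g20 := h01 2 0
  have g01 := h01 0 1
  have g11 := h01 1 1
  have g21 := h01 2 1
  obtain ⟨p0, q0⟩ := hc 0
  obtain ⟨p1, q1⟩ := hc 1
  have S := Inc_sw a c hc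
  obtain ⟨T0, T1, T2, T3, T4, T5, T6⟩ := opp_table (c 1)
  have key : ∀ (e0 e1 e2 : ℤ) (x' y' : Fin 7), e0 + e1 + e2 = 0 →
      e0 ^ 2 + e1 ^ 2 + e2 ^ 2 + (a 0 1 - a 0 0) * e0 + (a 1 1 - a 1 0) * e1
      + (a 2 1 - a 2 0) * e2 = 0 →
      ((a 0 0 - e0) - (a 1 0 - e1) = Pt x' ∧ (a 1 0 - e1) - (a 2 0 - e2) = Qt x') →
      ((a 0 1 + e0) - (a 1 1 + e1) = Pt y' ∧ (a 1 1 + e1) - (a 2 1 + e2) = Qt y') →
      nn x' (c 0) = true → nn x' (c 1) = true → IncR a k := by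
    intro e0 e1 e2 x' y' t1 t2 t3 t4 t5 t6
    refine S e0 e1 e2 t1 t2 x' y' t3 t4 ?_ k
    rcases h2 with h2 | h2 <;> rw [h2] <;> assumption
  clear S
  rcases fin7_cases (c 0) with hx | hx | hx | hx | hx | hx | hx
  · rw [hx] at h; exact absurd h T0
  · have hy : c 1 = 4 := T1 (by rw [← hx]; exact h)
    rw [hx] at p0 q0 key
    rw [hy] at p1 q1 key
    have P0 : Pt 1 = 1 := rfl
    have Q0 : Qt 1 = 0 := rfl
    have P1 : Pt 4 = -1 := rfl
    have Q1 : Qt 4 = 0 := rfl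
    rw [P0] at p0
    rw [Q0] at q0
    rw [P1] at p1
    rw [Q1] at q1
    obtain ⟨r0, r1, r2⟩ := cv1 g00 g10 g20 p0 q0
    obtain ⟨r3, r4, r5⟩ := cv4 g01 g11 g21 p1 q1
    rw [r0, r1, r2, r3, r4, r5] at key
    exact key (1) (-1) (0) 3 6 (by norm_num) (by norm_num) (by constructor <;> rfl) (by constructor <;> rfl) (by decide)
      (by decide)
  · have hy : c 1 = 5 := T2 (by rw [← hx]; exact h)
    rw [hx] at p0 q0 key
    rw [hy] at p1 q1 key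
    have P0 : Pt 2 = 0 := rfl
    have Q0 : Qt 2 = 1 := rfl
    have P1 : Pt 5 = 0 := rfl
    have Q1 : Qt 5 = -1 := rfl
    rw [P0] at p0
    rw [Q0] at q0
    rw [P1] at p1
    rw [Q1] at q1
    obtain ⟨r0, r1, r2⟩ := cv2 g00 g10 g20 p0 q0
    obtain ⟨r3, r4, r5⟩ := cv5 g01 g11 g21 p1 q1
    rw [r0, r1, r2, r3, r4, r5] at key
    exact key (1) (0) (-1) 4 1 (by norm_num) (by norm_num) (by constructor <;> rfl) (by constructor <;> rfl) (by decide)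
      (by decide)
  · have hy : c 1 = 6 := T3 (by rw [← hx]; exact h)
    rw [hx] at p0 q0 key
    rw [hy] at p1 q1 key
    have P0 : Pt 3 = -1 := rfl
    have Q0 : Qt 3 = 1 := rfl
    have P1 : Pt 6 = 1 := rfl
    have Q1 : Qt 6 = -1 := rfl
    rw [P0] at p0
    rw [Q0] at q0
    rw [P1] at p1
    rw [Q1] at q1
    obtain ⟨r0, r1, r2⟩ := cv3 g00 g10 g20 p0 q0
    obtain ⟨r3, r4, r5⟩ := cv6 g01 g11 g21 p1 q1
    rw [r0, r1, r2, r3, r4, r5] at key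
    exact key (-1) (1) (0) 1 4 (by norm_num) (by norm_num) (by constructor <;> rfl) (by constructor <;> rfl) (by decide)
      (by decide)
  · have hy : c 1 = 1 := T4 (by rw [← hx]; exact h)
    rw [hx] at p0 q0 key
    rw [hy] at p1 q1 key
    have P0 : Pt 4 = -1 := rfl
    have Q0 : Qt 4 = 0 := rfl
    have P1 : Pt 1 = 1 := rfl
    have Q1 : Qt 1 = 0 := rfl
    rw [P0] at p0
    rw [Q0] at q0
    rw [P1] at p1
    rw [Q1] at q1
    obtain ⟨r0, r1, r2⟩ := cv4 g00 g10 g20 p0 q0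
    obtain ⟨r3, r4, r5⟩ := cv1 g01 g11 g21 p1 q1
    rw [r0, r1, r2, r3, r4, r5] at key
    exact key (-1) (1) (0) 6 3 (by norm_num) (by norm_num) (by constructor <;> rfl) (by constructor <;> rfl) (by decide)
      (by decide)
  · have hy : c 1 = 2 := T5 (by rw [← hx]; exact h)
    rw [hx] at p0 q0 key
    rw [hy] at p1 q1 key
    have P0 : Pt 5 = 0 := rfl
    have Q0 : Qt 5 = -1 := rfl
    have P1 : Pt 2 = 0 := rfl
    have Q1 : Qt 2 = 1 := rfl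
    rw [P0] at p0
    rw [Q0] at q0
    rw [P1] at p1
    rw [Q1] at q1
    obtain ⟨r0, r1, r2⟩ := cv5 g00 g10 g20 p0 q0
    obtain ⟨r3, r4, r5⟩ := cv2 g01 g11 g21 p1 q1
    rw [r0, r1, r2, r3, r4, r5] at key
    exact key (-1) (0) (1) 1 4 (by norm_num) (by norm_num) (by constructor <;> rfl) (by constructor <;> rfl) (by decide)
      (by decide)
  · have hy : c 1 = 3 := T6 (by rw [← hx]; exact h)
    rw [hx] at p0 q0 key
    rw [hy] at p1 q1 key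
    have P0 : Pt 6 = 1 := rfl
    have Q0 : Qt 6 = -1 := rfl
    have P1 : Pt 3 = -1 := rfl
    have Q1 : Qt 3 = 1 := rfl
    rw [P0] at p0
    rw [Q0] at q0
    rw [P1] at p1
    rw [Q1] at q1
    obtain ⟨r0, r1, r2⟩ := cv6 g00 g10 g20 p0 q0
    obtain ⟨r3, r4, r5⟩ := cv3 g01 g11 g21 p1 q1
    rw [r0, r1, r2, r3, r4, r5] at key
    exact key (1) (-1) (0) 4 1 (by norm_num) (by norm_num) (by constructor <;> rfl) (by constructor <;> rfl) (by decide)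
      (by decide)

/-- Every 0-1 column has a class. -/
theorem exists_cls {κ : Type*} (a : Fin 3 → κ → ℤ) (h01 : ∀ s t, a s t = 0 ∨ a s t = 1) (j : κ) :
    ∃ c : Fin 7, Cls a j c := by
  have h0 := h01 0 j
  have h1 := h01 1 j
  have h2 := h01 2 j
  unfold Cls
  rcases h0 with h0 | h0 <;> rcases h1 with h1 | h1 <;> rcases h2 with h2 | h2 <;> rw [h0, h1, h2]
  · exact ⟨0, by decide⟩
  · exact ⟨5, by decide⟩
  · exact ⟨3, by decide⟩
  · exact ⟨4, by decide⟩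
  · exact ⟨1, by decide⟩
  · exact ⟨6, by decide⟩
  · exact ⟨2, by decide⟩
  · exact ⟨0, by decide⟩

theorem typ_facts : ∀ x y z : Fin 7, nn x y = false → nn x z = false → x ≠ y →
    typN x y = 3 ∧ (z = x ∨ z = y) := by
  decide +kernel

/-- The main 3 × 5 statement. -/
theorem Inc35 (a : Fin 3 → Fin 5 → ℤ) (h01 : ∀ s t, a s t = 0 ∨ a s t = 1)
    (hne : ∃ i j, a 0 i - a 0 j ≠ a 1 i - a 1 j ∨ a 1 i - a 1 j ≠ a 2 i - a 2 j) (k : ℕ) :
    IncR a k := by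
  choose c hc using exists_cls a h01
  obtain ⟨i, j, hij⟩ := hne
  have hcij : c i ≠ c j := by
    intro h
    have h1 := hc i
    have h2 := hc j
    rw [h] at h1
    obtain ⟨p, q⟩ := h1
    obtain ⟨p', q'⟩ := h2
    rcases hij with h3 | h3
    · exact h3 (by linarith)
    · exact h3 (by linarith)
  by_cases hn : ∃ i j, nn (c i) (c j) = true
  · obtain ⟨i, j, h⟩ := hn
    exact Inc_nn a c hc i j h k
  · push Not at hn
    have hn' : ∀ i j, nn (c i) (c j) = false := fun i j => by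
      have := hn i j
      simpa using this
    have hne : i ≠ j := by rintro rfl; exact hcij rfl
    obtain ⟨g, hg, g0, g1⟩ := exists_perm i j hne
    obtain ⟨t1, t2⟩ := typ_facts (c i) (c j) (c (g 2)) (hn' _ _) (hn' _ _) hcij
    apply IncR_extend (fun s : Fin 3 => s) g Function.injective_id hg
    refine Inc_opp (fun s t => a s (g t)) (fun s t => h01 s (g t)) (fun j => c (g j))
      (fun j => hc (g j)) ?_ ?_ k
    · simp only [g0, g1]; exact t1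
    · simp only [g0, g1]; exact t2

end Pool.Agent.Work.MP_097698_nt
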