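import Pool.Agent.Work.MP_097698_nt.One

namespace Pool.Agent.Work.MP_097698_nt

open Finset

theorem odd_prod (n : ℕ) : Odd (∏ l ∈ n.primeFactors \ {2}, l) := by
  refine Finset.prod_induction _ Odd (fun a b ha hb => ha.mul hb) odd_one ?_
  intro x hx
  rw [Finset.mem_sdiff, Finset.mem_singleton] at hx
  exact (Nat.prime_of_mem_primeFactors hx.1).odd_of_ne_two hx.2

theorem rd_eq (n : ℕ) : rd n = (∏ l ∈ n.primeFactors \ {2}, l) ∨
    rd n = 2 * ∏ l ∈ n.primeFactors \ {2}, l := by
  by_cases h2 : 2 ∈ n.primeFactors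
  · right
    unfold rd
    rw [Finset.sdiff_singleton_eq_erase]
    exact (Finset.mul_prod_erase _ (fun x => x) h2).symm
  · left
    unfold rd
    rw [Finset.sdiff_singleton_eq_erase, Finset.erase_eq_of_notMem h2]

theorem two_lt_prod {n : ℕ} (h : (n.primeFactors \ {2}).Nonempty) :
    2 < ∏ l ∈ n.primeFactors \ {2}, l := by
  obtain ⟨p, hp⟩ := h
  have hp' := hp
  rw [Finset.mem_sdiff, Finset.mem_singleton] at hp'
  have hpr := Nat.prime_of_mem_primeFactors hp'.1
  have hdvd : p ∣ ∏ l ∈ n.primeFactors \ {2}, l := Finset.dvd_prod_of_mem (fun x => x) hp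
  have := Nat.le_of_dvd (odd_prod n).pos hdvd
  have := hpr.two_le
  have := hp'.2
  omega

/-- All heights are multiples of `2 / φ(rad n)`. -/
theorem height_form {n : ℕ} (h : (n.primeFactors \ {2}).Nonempty) (x : ℝ) (hx : x ∈ casselsSet n) :
    ∃ v : ℕ, x = 2 * (v : ℝ) / (Nat.totient (rd n) : ℝ) := by
  have hn : 0 < n := by
    rcases Nat.eq_zero_or_pos n with h0 | h0
    · subst h0; simp at h
    · exact h0
  obtain ⟨h1, h2⟩ := rd_odd_part n
  have hm3 := two_lt_prod h
  set m := ∏ l ∈ n.primeFactors \ {2}, l with hm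
  set N := n / rd n with hNdef
  have hN : n = N * rd n := (Nat.div_mul_cancel (rd_dvd n)).symm
  obtain ⟨w, hw, rfl⟩ := (mem_casselsSet_rd hn hN x).1 hx
  have hw' : ∀ t, ∃ u : ℕ, w t = 2 * u := by
    intro t
    obtain ⟨α, hα⟩ := (isVal_iff_Q (by omega) _).1 ((h1 _).1 (hw t))
    have e1 := Q_even hm3 α
    have e2 := Q_nonneg (by omega : 0 < m) α
    rw [hα] at e1 e2
    obtain ⟨u, hu⟩ := e1
    refine ⟨u.toNat, ?_⟩
    have : 0 ≤ u := by omega
    rw [Int.toNat_of_nonneg this]; omega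
  choose u hu using hw'
  refine ⟨∑ t, u t, ?_⟩
  congr 1
  push_cast
  rw [Finset.mul_sum]
  refine Finset.sum_congr rfl fun t _ => ?_
  rw [hu t]; push_cast; ring

/-- The large heights, when `n` is not `p` or `2p`. -/
theorem height_large {n : ℕ} (h : (n.primeFactors \ {2}).Nonempty)
    (hne : ∀ p : ℕ, p.Prime → n ≠ p ∧ n ≠ 2 * p) (v : ℕ)
    (hv : (∏ l ∈ n.primeFactors \ {2}, l) ^ 2 ≤ v) :
    2 * (v : ℝ) / (Nat.totient (rd n) : ℝ) ∈ casselsSet n := by
  rcases Nat.lt_or_ge 1 (n.primeFactors \ {2}).card with h2 | h2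
  · exact (cofinite_main n h2).2 v hv
  · have hn : 0 < n := by
      rcases Nat.eq_zero_or_pos n with h0 | h0
      · subst h0; simp at h
      · exact h0
    have hcard : (n.primeFactors \ {2}).card = 1 := by
      have := Finset.card_pos.2 h
      omega
    obtain ⟨p, hp⟩ := Finset.card_eq_one.1 hcard
    have hpm : p ∈ n.primeFactors \ {2} := by rw [hp]; simp
    rw [Finset.mem_sdiff, Finset.mem_singleton] at hpm
    have hpr := Nat.prime_of_mem_primeFactors hpm.1
    obtain ⟨h1, h3⟩ := rd_odd_part n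
    have hrd := rd_eq n
    rw [hp, Finset.prod_singleton] at h1 h3 hv hrd
    obtain ⟨N, hN⟩ : ∃ N, n = N * rd n := ⟨n / rd n, (Nat.div_mul_cancel (rd_dvd n)).symm⟩
    have hN2 : 2 ≤ N := by
      by_contra hcon
      push Not at hcon
      have h01 : N = 0 ∨ N = 1 := by omega
      rcases h01 with h0 | h0
      · rw [h0, zero_mul] at hN; omega
      · rw [h0, one_mul] at hN
        have h4 := hne p hpr
        rcases hrd with h5 | h5
        · exact h4.1 (hN.trans h5)
        · exact h4.2 (hN.trans h5)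
    obtain ⟨M, rfl⟩ : ∃ M, N = M + 2 := ⟨N - 2, by omega⟩
    obtain ⟨w₁, w₂, g1, g2, g3⟩ := one_large hpr hpm.2 v (by exact_mod_cast hv)
    rw [mem_casselsSet_rd hn hN]
    refine ⟨Fin.cons w₁ (Fin.cons w₂ (fun _ => 0)), ?_, ?_⟩
    · intro t
      rw [h1]
      refine Fin.cases ?_ (fun t => ?_) t
      · simpa using g1
      · refine Fin.cases ?_ (fun t => ?_) t
        · simpa using g2
        · simpa using isVal_zero p
    · congr 1
      rw [Fin.sum_univ_succ, Fin.sum_univ_succ]
      simp only [Fin.cons_zero, Fin.cons_succ, Finset.sum_const_zero, add_zero]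
      rw [g3]
      push_cast
      ring

/-- Infinitely many missing values for `n = p` and `n = 2p`. -/
theorem height_missing {n p : ℕ} (hp : p.Prime) (hp2 : p ≠ 2) (hn : n = p ∨ n = 2 * p) :
    {v : ℕ | 2 * (v : ℝ) / (Nat.totient (rd n) : ℝ) ∉ casselsSet n}.Infinite := by
  have hodd := hp.odd_of_ne_two hp2
  have hn0 : 0 < n := by
    have := hp.pos
    rcases hn with h | h <;> omega
  have hpf : n.primeFactors \ {2} = {p} := by
    rcases hn with h | h
    · rw [h, hp.primeFactors]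
      ext x; simp only [mem_sdiff, mem_singleton]
      constructor
      · exact fun h => h.1
      · rintro rfl; exact ⟨rfl, hp2⟩
    · rw [h, Nat.primeFactors_mul (by norm_num) hp.ne_zero, Nat.prime_two.primeFactors, hp.primeFactors]
      ext x; simp only [mem_sdiff, mem_singleton, mem_union]
      constructor
      · rintro ⟨h1 | h1, h2⟩
        · exact absurd h1 h2
        · exact h1
      · rintro rfl; exact ⟨Or.inr rfl, hp2⟩
  obtain ⟨h1, h3⟩ := rd_odd_part n
  rw [hpf, Finset.prod_singleton] at h1 h3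
  have hrdn : rd n = n := by
    rcases hn with h | h
    · rw [h]; unfold rd; rw [hp.primeFactors, Finset.prod_singleton]
    · rw [h]; unfold rd
      rw [Nat.primeFactors_mul (by norm_num) hp.ne_zero, Nat.prime_two.primeFactors, hp.primeFactors,
        Finset.prod_union (by simpa using hp2.symm), Finset.prod_singleton, Finset.prod_singleton]
  have hN : n = 1 * rd n := by rw [hrdn, one_mul]
  have hφ : (0 : ℝ) < (Nat.totient (rd n) : ℝ) := by
    rw [h3]; exact_mod_cast Nat.totient_pos.2 hp.pos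
  obtain ⟨v₀, hv₀⟩ := one_missing hp hp2
  have hinj : Function.Injective (fun j : ℕ => v₀ + p * j) := by
    intro i j hij
    have h : p * i = p * j := by simpa using hij
    exact Nat.eq_of_mul_eq_mul_left hp.pos h
  refine Set.infinite_of_injective_forall_mem hinj (fun j => ?_)
  intro hmem
  obtain ⟨w, hw, hx⟩ := (mem_casselsSet_rd hn0 hN _).1 hmem
  rw [div_left_inj' hφ.ne'] at hx
  have h4 : ∑ t, w t = 2 * ((v₀ : ℤ) + p * j) := by
    have : ((∑ t, w t : ℤ) : ℝ) = ((2 * ((v₀ : ℤ) + p * j) : ℤ) : ℝ) := by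
      rw [← hx]; push_cast; ring
    exact_mod_cast this
  rw [Fin.sum_univ_one] at h4
  exact hv₀ j (by rw [← h4]; exact (h1 _).1 (hw 0))

theorem crit_main (n : ℕ) (h : (n.primeFactors \ {2}).Nonempty) :
    (∀ x ∈ casselsSet n, ∃ v : ℕ, x = 2 * (v : ℝ) / (Nat.totient (rd n) : ℝ)) ∧
    ({v : ℕ | 2 * (v : ℝ) / (Nat.totient (rd n) : ℝ) ∉ casselsSet n}.Finite ↔
      ∀ p : ℕ, p.Prime → n ≠ p ∧ n ≠ 2 * p) ∧
    ((∀ p : ℕ, p.Prime → n ≠ p ∧ n ≠ 2 * p) → ∀ v : ℕ,
      (∏ l ∈ n.primeFactors \ {2}, l) ^ 2 ≤ v →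
        2 * (v : ℝ) / (Nat.totient (rd n) : ℝ) ∈ casselsSet n) := by
  refine ⟨height_form h, ⟨fun hfin => ?_, fun hne => ?_⟩, fun hne => height_large h hne⟩
  · by_contra hcon
    push Not at hcon
    obtain ⟨p, hp, hpn⟩ := hcon
    have hor : n = p ∨ n = 2 * p := by
      by_cases h1 : n = p
      · exact Or.inl h1
      · exact Or.inr (hpn h1)
    by_cases hp2 : p = 2
    · subst hp2
      obtain ⟨l, hl⟩ := h
      rw [Finset.mem_sdiff, Finset.mem_singleton] at hl
      have hlp := Nat.prime_of_mem_primeFactors hl.1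
      have hln := Nat.dvd_of_mem_primeFactors hl.1
      have : l ∣ 2 ^ 2 := by
        rcases hor with h | h
        · rw [h] at hln; exact hln.trans ⟨2, by norm_num⟩
        · rw [h] at hln; exact hln
      have := hlp.dvd_of_dvd_pow this
      exact hl.2 ((Nat.prime_dvd_prime_iff_eq hlp Nat.prime_two).1 this)
    · exact height_missing hp hp2 hor hfin
  · refine (Set.finite_lt_nat ((∏ l ∈ n.primeFactors \ {2}, l) ^ 2)).subset ?_
    intro v hv
    simp only [Set.mem_ofPred_eq] at hv ⊢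
    by_contra hlt
    push Not at hlt
    exact hv (height_large h hne v hlt)

end Pool.Agent.Work.MP_097698_nt
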