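import Mathlib

/-!
Definitions for the hand-ins on MP_097698_nt (Cassels heights of cyclotomic integers).
-/

namespace Pool.Agent.Work.MP_097698_nt

open Polynomial

/-- The root of unity `ω_n = exp(2πi/n)`. -/
noncomputable def omega (n : ℕ) : ℂ := Complex.exp (2 * Real.pi * Complex.I / n)

/-- The Cassels height `𝓜(β)` of the cyclotomic integer `β = P(ω_n)`, `P ∈ ℤ[X]`: the mean of
`|σ_k(β)|²` over `1 ≤ k ≤ n` with `gcd(k, n) = 1`, where `σ_k(β) = P(ω_n ^ k)`. -/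
noncomputable def casselsHeight (n : ℕ) (P : ℤ[X]) : ℝ :=
  (∑ k ∈ (Finset.Icc 1 n).filter (fun k => Nat.Coprime k n), ‖aeval (omega n ^ k) P‖ ^ 2)
    / (Nat.totient n : ℝ)

/-- The set `𝒞_n` of the Cassels heights of the elements `β = P(ω_n)` of `ℤ[ω_n]`. -/
def casselsSet (n : ℕ) : Set ℝ := Set.range (casselsHeight n)

/-- The radical of `n`, the product of the primes dividing `n`. -/
def rd (n : ℕ) : ℕ := ∏ l ∈ n.primeFactors, l

/-- The Gale–Ryser condition: `r` and `c` are the row sums and the column sums of a matrix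
with entries `0` and `1`. -/
def GaleRyser {p q : ℕ} (r : Fin p → ℕ) (c : Fin q → ℕ) : Prop :=
  ∑ i, r i = ∑ j, c j ∧ ∀ I : Finset (Fin p), ∑ i ∈ I, r i ≤ ∑ j, min (c j) I.card

/-- The integer `p q s - q (c_1² + ... + c_q²) - p (r_1² + ... + r_p²) + s²`, `s = r_1 + ... + r_p`. -/
def gap {p q : ℕ} (r : Fin p → ℕ) (c : Fin q → ℕ) : ℤ :=
  (p : ℤ) * q * (∑ i, (r i : ℤ)) - q * (∑ j, (c j : ℤ) ^ 2) - p * (∑ i, (r i : ℤ) ^ 2)
    + (∑ i, (r i : ℤ)) ^ 2

end Pool.Agent.Work.MP_097698_nt
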