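import Pool.Agent.Work.MP_097698_nt.Ram
import Pool.Agent.Work.MP_097698_nt.Defs

namespace Pool.Agent.Work.MP_097698_nt

open Finset Polynomial

/-- Integer values `φ(n) · 𝓜(β)`. -/
def IsVal (n : ℕ) (v : ℤ) : Prop :=
  ∃ (m : ℕ) (e : Fin m → ℕ) (a : Fin m → ℤ), v = ∑ i, ∑ i', a i * a i' * ram ((e i : ℤ) - e i') n

theorem isVal_of {n : ℕ} {ι : Type*} [Fintype ι] (e : ι → ℕ) (a : ι → ℤ) :
    IsVal n (∑ i, ∑ i', a i * a i' * ram ((e i : ℤ) - e i') n) := by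
  let f := (Fintype.equivFin ι).symm
  refine ⟨Fintype.card ι, fun t => e (f t), fun t => a (f t), ?_⟩
  rw [← f.sum_comp]
  refine Finset.sum_congr rfl fun i _ => ?_
  rw [← f.sum_comp]

theorem sum_coprime {n : ℕ} (hn : 0 < n) (F : ℂ → ℝ) :
    ∑ k ∈ (Finset.Icc 1 n).filter (fun k => Nat.Coprime k n), F (omega n ^ k)
      = ∑ η ∈ primitiveRoots n ℂ, F η := by
  have hζ : IsPrimitiveRoot (omega n) n := Complex.isPrimitiveRoot_exp n hn.ne'
  refine Finset.sum_nbij (fun k => omega n ^ k) ?_ ?_ ?_ (fun _ _ => rfl)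
  · intro k hk
    rw [mem_filter, mem_Icc] at hk
    rw [mem_primitiveRoots hn]
    exact hζ.pow_of_coprime k hk.2
  · intro i hi j hj hij
    rw [Finset.mem_coe, mem_filter, mem_Icc] at hi hj
    have h1 : omega n ^ i = omega n ^ j := hij
    have h0 : omega n ≠ 0 := Complex.exp_ne_zero _
    have h2 : (n : ℤ) ∣ (i : ℤ) - j := by
      rw [← hζ.zpow_eq_one_iff_dvd, zpow_sub₀ h0, zpow_natCast, zpow_natCast, h1,
        div_self (pow_ne_zero _ h0)]
    have h3 : |(i : ℤ) - j| < n := by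
      rw [abs_lt]; constructor <;> omega
    have h4 := Int.eq_zero_of_abs_lt_dvd h2 h3
    omega
  · intro η hη
    rw [Finset.mem_coe, mem_primitiveRoots hn] at hη
    have : NeZero n := ⟨hn.ne'⟩
    obtain ⟨i, hi, hco, rfl⟩ := (hζ.isPrimitiveRoot_iff).1 hη
    rcases Nat.eq_zero_or_pos i with h0 | h0
    · subst h0
      have h1 : n = 1 := by simpa using hco
      subst h1
      refine ⟨1, by simp, ?_⟩
      simp [omega]
    · refine ⟨i, ?_, rfl⟩
      rw [Finset.mem_coe, mem_filter, mem_Icc]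
      exact ⟨⟨h0, hi.le⟩, hco⟩

theorem mem_casselsSet {n : ℕ} (hn : 0 < n) (x : ℝ) :
    x ∈ casselsSet n ↔ ∃ v : ℤ, IsVal n v ∧ x = (v : ℝ) / (Nat.totient n : ℝ) := by
  constructor
  · rintro ⟨P, rfl⟩
    refine ⟨_, ⟨P.natDegree + 1, fun i => i, fun i => P.coeff i, rfl⟩, ?_⟩
    unfold casselsHeight
    rw [sum_coprime hn (fun η => ‖aeval η P‖ ^ 2), ← sum_norm_sq hn]
    congr 1
    refine Finset.sum_congr rfl fun η _ => ?_
    rw [aeval_eq_sum_range, ← Fin.sum_univ_eq_sum_range (fun i => P.coeff i • η ^ i)]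
    simp
  · rintro ⟨v, ⟨m, e, a, rfl⟩, rfl⟩
    refine ⟨∑ i, C (a i) * X ^ e i, ?_⟩
    unfold casselsHeight
    rw [sum_coprime hn (fun η => ‖aeval η (∑ i, C (a i) * X ^ e i : ℤ[X])‖ ^ 2), ← sum_norm_sq hn]
    congr 1
    refine Finset.sum_congr rfl fun η _ => ?_
    simp

end Pool.Agent.Work.MP_097698_nt
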