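import Mathlib

/-!
Universality of `x^2 + xy + y^2 + z^2 + zw + w^2` and variants (for MP_097698_nt, Cassels heights).
-/

namespace Pool.Agent.Work.MP_097698_nt

/-- The Loeschian form. -/
def LN (a b : ℤ) : ℤ := a ^ 2 + a * b + b ^ 2

theorem LN_nonneg (a b : ℤ) : 0 ≤ LN a b := by
  unfold LN; nlinarith [sq_nonneg (a + b), sq_nonneg a, sq_nonneg b]

theorem LN_eq_zero {a b : ℤ} (h : LN a b = 0) : a = 0 ∧ b = 0 := by
  unfold LN at h
  have h1 : (2 * a + b) ^ 2 + 3 * b ^ 2 = 0 := by nlinarith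
  have h2 : b = 0 := by nlinarith [sq_nonneg (2 * a + b), sq_nonneg b]
  subst h2
  have h3 : a = 0 := by nlinarith [sq_nonneg a]
  exact ⟨h3, rfl⟩

theorem LN_rot (a b : ℤ) : LN (-b) (a + b) = LN a b := by unfold LN; ring

theorem LN_neg (a b : ℤ) : LN (-a) (-b) = LN a b := by unfold LN; ring

theorem LN_comm (a b : ℤ) : LN a b = LN b a := by unfold LN; ring

/-- Multiplicativity for the norm form of the quaternion order. -/
theorem LN_mul (a b c d e f g h : ℤ) :
    (LN a b + LN c d) * (LN e f + LN g h) =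
      LN (a * e - b * f - (c * (g + h) + d * h)) (a * f + b * e + b * f - (d * (g + h) - c * h - d * h))
      + LN (a * g - b * h + (c * (e + f) + d * f)) (a * h + b * g + b * h + (d * (e + f) - c * f - d * f)) := by
  unfold LN
  ring

/-- Version with the second factor conjugated. -/
theorem LN_mul_conj (a b c d e f g h : ℤ) :
    (LN a b + LN c d) * (LN e f + LN g h) =
      LN (a * (e + f) + b * f + c * (g + h) + d * h) (-(a * f) + b * e + d * g - c * h)
      + LN (-(a * g) + b * h + c * e - d * f) (-(a * h) - b * g - b * h + d * e + c * f + d * f) := by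
  unfold LN
  ring

theorem tri {a b c : ℤ} (ha : 0 ≤ a) (hb : 0 ≤ b) (hca : a ≤ c) (hcb : b ≤ c) :
    3 * LN a b ≤ (a + b + c) ^ 2 := by
  unfold LN
  rcases le_total a b with h | h
  · have : (a + b + b) ^ 2 ≤ (a + b + c) ^ 2 := by
      apply pow_le_pow_left₀ <;> linarith
    nlinarith [mul_nonneg ha hb, mul_nonneg (sub_nonneg.2 h) ha, mul_nonneg (sub_nonneg.2 h) hb]
  · have : (a + b + a) ^ 2 ≤ (a + b + c) ^ 2 := by
      apply pow_le_pow_left₀ <;> linarith
    nlinarith [mul_nonneg ha hb, mul_nonneg (sub_nonneg.2 h) ha, mul_nonneg (sub_nonneg.2 h) hb]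

theorem tri' {a b c m : ℤ} (ha : 0 ≤ a) (hb : 0 ≤ b) (hc : 0 ≤ c) (hm : a + b + c = m) :
    ∃ s t : ℤ, 3 * LN (a - m * s) (b - m * t) ≤ m ^ 2 := by
  rcases le_total a b with h1 | h1 <;> rcases le_total a c with h2 | h2 <;>
    rcases le_total b c with h3 | h3
  · refine ⟨0, 0, ?_⟩
    have := tri ha hb h2 h3
    simpa [hm] using this
  · refine ⟨0, 1, ?_⟩
    have h4 : LN (a - m * 0) (b - m * 1) = LN a c := by
      subst hm; unfold LN; ring
    rw [h4]
    have := tri (c := b) ha hc h1 h3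
    have h5 : a + c + b = m := by linarith
    rwa [h5] at this
  · refine ⟨0, 0, ?_⟩
    have := tri ha hb (by linarith) h3
    simpa [hm] using this
  · refine ⟨0, 1, ?_⟩
    have h4 : LN (a - m * 0) (b - m * 1) = LN a c := by
      subst hm; unfold LN; ring
    rw [h4]
    have := tri (c := b) ha hc h1 h3
    have h5 : a + c + b = m := by linarith
    rwa [h5] at this
  · refine ⟨0, 0, ?_⟩
    have := tri ha hb h2 h3
    simpa [hm] using this
  · refine ⟨0, 1, ?_⟩
    have h4 : LN (a - m * 0) (b - m * 1) = LN a c := by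
      subst hm; unfold LN; ring
    rw [h4]
    have := tri (c := b) ha hc (by linarith) h3
    have h5 : a + c + b = m := by linarith
    rwa [h5] at this
  · refine ⟨1, 0, ?_⟩
    have h4 : LN (a - m * 1) (b - m * 0) = LN b c := by
      subst hm; unfold LN; ring
    rw [h4]
    have := tri (c := a) hb hc h1 h2
    have h5 : b + c + a = m := by linarith
    rwa [h5] at this
  · refine ⟨1, 0, ?_⟩
    have h4 : LN (a - m * 1) (b - m * 0) = LN b c := by
      subst hm; unfold LN; ring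
    rw [h4]
    have := tri (c := a) hb hc h1 h2
    have h5 : b + c + a = m := by linarith
    rwa [h5] at this

/-- Reduction modulo `m` with norm at most `m²/3`. -/
theorem LN_reduce (a b m : ℤ) (hm : 0 < m) :
    ∃ s t : ℤ, 3 * LN (a - m * s) (b - m * t) ≤ m ^ 2 := by
  have ha0 := Int.emod_nonneg a hm.ne'
  have hb0 := Int.emod_nonneg b hm.ne'
  have ha1 := Int.emod_lt_of_pos a hm
  have hb1 := Int.emod_lt_of_pos b hm
  have ha2 := Int.emod_add_mul_ediv a m
  have hb2 := Int.emod_add_mul_ediv b m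
  rcases le_total (a % m + b % m) m with h | h
  · obtain ⟨s, t, hst⟩ := tri' (a := a % m) (b := b % m) (c := m - a % m - b % m) (m := m)
      ha0 hb0 (by linarith) (by ring)
    refine ⟨a / m + s, b / m + t, ?_⟩
    have e1 : a - m * (a / m + s) = a % m - m * s := by linear_combination -ha2
    have e2 : b - m * (b / m + t) = b % m - m * t := by linear_combination -hb2
    rw [e1, e2]; exact hst
  · obtain ⟨s, t, hst⟩ := tri' (a := m - a % m) (b := m - b % m) (c := a % m + b % m - m) (m := m)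
      (by linarith) (by linarith) (by linarith) (by ring)
    refine ⟨a / m + 1 - s, b / m + 1 - t, ?_⟩
    have e1 : a - m * (a / m + 1 - s) = -(m - a % m - m * s) := by linear_combination -ha2
    have e2 : b - m * (b / m + 1 - t) = -(m - b % m - m * t) := by linear_combination -hb2
    rw [e1, e2, LN_neg]; exact hst

/-- `m` is a sum of two Loeschian numbers. -/
def Rep2 (m : ℤ) : Prop := ∃ a b c d : ℤ, LN a b + LN c d = m

theorem Rep2_mul {m n : ℤ} (hm : Rep2 m) (hn : Rep2 n) : Rep2 (m * n) := by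
  obtain ⟨a, b, c, d, h1⟩ := hm
  obtain ⟨e, f, g, h, h2⟩ := hn
  exact ⟨_, _, _, _, by rw [← h1, ← h2, LN_mul]⟩

theorem exists_mod_prime (p : ℕ) [hp : Fact p.Prime] (h3 : p ≠ 3) :
    ∃ a b : ℤ, (p : ℤ) ∣ LN a b + 1 := by
  rcases hp.out.eq_two_or_odd' with h2 | hodd
  · subst h2
    exact ⟨1, 0, by norm_num [LN]⟩
  · have h2 : p ≠ 2 := by rintro rfl; exact absurd hodd (by decide)
    have h3' : (3 : ZMod p) ≠ 0 := by
      intro h
      have : ((3 : ℕ) : ZMod p) = 0 := by exact_mod_cast h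
      rw [ZMod.natCast_eq_zero_iff] at this
      exact h3 ((Nat.prime_dvd_prime_iff_eq hp.out Nat.prime_three).1 this)
    have h2' : (2 : ZMod p) ≠ 0 := by
      intro h
      have : ((2 : ℕ) : ZMod p) = 0 := by exact_mod_cast h
      rw [ZMod.natCast_eq_zero_iff] at this
      exact h2 ((Nat.prime_dvd_prime_iff_eq hp.out Nat.prime_two).1 this)
    obtain ⟨u, v, huv⟩ := FiniteField.exists_root_sum_quadratic (R := ZMod p)
      (f := Polynomial.X ^ 2)
      (g := Polynomial.C 3 * Polynomial.X ^ 2 + Polynomial.C 0 * Polynomial.X + Polynomial.C 4)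
      (Polynomial.degree_X_pow 2)
      (Polynomial.degree_quadratic h3') (by rw [ZMod.card]; exact Nat.odd_iff.1 hodd)
    simp only [Polynomial.eval_pow, Polynomial.eval_X, Polynomial.eval_add, Polynomial.eval_mul,
      Polynomial.eval_C] at huv
    refine ⟨(((u - v) / 2 : ZMod p).val : ℤ), (v.val : ℤ), ?_⟩
    rw [← ZMod.intCast_zmod_eq_zero_iff_dvd]
    unfold LN
    push_cast
    rw [ZMod.natCast_val, ZMod.natCast_val, ZMod.cast_id, ZMod.cast_id]
    have h4 : (4 : ZMod p) ≠ 0 := by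
      have : (4 : ZMod p) = 2 * 2 := by norm_num
      rw [this]; exact mul_ne_zero h2' h2'
    apply mul_left_cancel₀ h4
    have e : (u - v) / 2 * 2 = u - v := div_mul_cancel₀ _ h2'
    set w := (u - v) / 2 with hw
    have e2 : u = 2 * w + v := by linear_combination -e
    rw [e2] at huv
    linear_combination huv

/-- One descent step. -/
theorem descent {p m : ℤ} (hm : 1 < m) (hmp : m < p) (hpp : Prime p) (h : Rep2 (m * p)) :
    ∃ m' : ℤ, 0 < m' ∧ m' < m ∧ Rep2 (m' * p) := by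
  obtain ⟨a, b, c, d, habcd⟩ := h
  obtain ⟨s, t, hst⟩ := LN_reduce a b m (by linarith)
  obtain ⟨u, v, huv⟩ := LN_reduce c d m (by linarith)
  set a' := a - m * s with ha'
  set b' := b - m * t with hb'
  set c' := c - m * u with hc'
  set d' := d - m * v with hd'
  have hN : m ∣ LN a' b' + LN c' d' := by
    have : LN a' b' + LN c' d' = m * p + m * (m * LN s t + m * LN u v - 2 * a * s - a * t - b * s - 2 * b * t
      - 2 * c * u - c * v - d * u - 2 * d * v) := by
      rw [← habcd, ha', hb', hc', hd']; unfold LN; ring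
    rw [this]
    exact Dvd.intro _ (by ring : m * (p + (m * LN s t + m * LN u v - 2 * a * s - a * t - b * s - 2 * b * t
      - 2 * c * u - c * v - d * u - 2 * d * v)) = _)
  obtain ⟨m', hm'⟩ := hN
  have h0 := LN_nonneg a' b'
  have h0' := LN_nonneg c' d'
  have hlt : m' < m := by
    have : 3 * (m * m') ≤ 2 * m ^ 2 := by rw [← hm']; linarith
    by_contra hcon
    push Not at hcon
    nlinarith
  have hpos : 0 < m' := by
    rcases lt_trichotomy m' 0 with h | h | h
    · exfalso; nlinarith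
    · exfalso
      rw [h, mul_zero] at hm'
      have hz1 : LN a' b' = 0 := by linarith
      have hz2 : LN c' d' = 0 := by linarith
      obtain ⟨e1, e2⟩ := LN_eq_zero hz1
      obtain ⟨e3, e4⟩ := LN_eq_zero hz2
      have f1 : a = m * s := by linarith
      have f2 : b = m * t := by linarith
      have f3 : c = m * u := by linarith
      have f4 : d = m * v := by linarith
      rw [f1, f2, f3, f4] at habcd
      have g : m * (m * (LN s t + LN u v)) = m * p := by rw [← habcd]; unfold LN; ring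
      have g2 : m * (LN s t + LN u v) = p := mul_left_cancel₀ (by linarith : m ≠ 0) g
      have hdvd : m ∣ p := Dvd.intro _ g2
      have hirr := hpp.irreducible
      rcases hirr.isUnit_or_isUnit g2.symm with hu | hu
      · rcases Int.isUnit_iff.1 hu with h | h <;> linarith
      · rcases Int.isUnit_iff.1 hu with h | h
        · rw [h, mul_one] at g2; linarith
        · rw [h] at g2; linarith
    · exact h
  refine ⟨m', hpos, hlt, ?_⟩
  -- the product is divisible by m
  have key := LN_mul_conj a b c d a' b' c' d'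
  obtain ⟨A1, hA1⟩ : m ∣ a * (a' + b') + b * b' + c * (c' + d') + d * d' := by
    refine ⟨p - (a * (s + t) + b * t + c * (u + v) + d * v), ?_⟩
    have h7 : m * p = LN a b + LN c d := habcd.symm
    unfold LN at h7
    rw [ha', hb', hc', hd']
    linear_combination -h7
  obtain ⟨A2, hA2⟩ : m ∣ -(a * b') + b * a' + d * c' - c * d' := by
    refine ⟨a * t - b * s - d * u + c * v, ?_⟩
    rw [ha', hb', hc', hd']; ring
  obtain ⟨B1, hB1⟩ : m ∣ -(a * c') + b * d' + c * a' - d * b' := by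
    refine ⟨a * u - b * v - c * s + d * t, ?_⟩
    rw [ha', hb', hc', hd']; ring
  obtain ⟨B2, hB2⟩ : m ∣ -(a * d') - b * c' - b * d' + d * a' + c * b' + d * b' := by
    refine ⟨a * v + b * u + b * v - d * s - c * t - d * t, ?_⟩
    rw [ha', hb', hc', hd']; ring
  rw [hA1, hA2, hB1, hB2, habcd, hm'] at key
  refine ⟨A1, A2, B1, B2, ?_⟩
  have h5 : m ^ 2 * (LN A1 A2 + LN B1 B2) = m ^ 2 * (m' * p) := by
    have : m * p * (m * m') = m ^ 2 * (m' * p) := by ring
    rw [← this, key]; unfold LN; ring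
  exact mul_left_cancel₀ (pow_ne_zero 2 (by linarith : m ≠ 0)) h5

theorem Rep2_prime (p : ℕ) [hp : Fact p.Prime] : Rep2 (p : ℤ) := by
  by_cases h3 : p = 3
  · subst h3; exact ⟨1, 1, 0, 0, by norm_num [LN]⟩
  have hpp : Prime (p : ℤ) := Nat.prime_iff_prime_int.1 hp.out
  have hp1 : (1 : ℤ) < p := by exact_mod_cast hp.out.one_lt
  -- start
  have hstart : ∃ m : ℕ, 0 < m ∧ (m : ℤ) < p ∧ Rep2 ((m : ℤ) * p) := by
    obtain ⟨a, b, hab⟩ := exists_mod_prime p h3
    obtain ⟨s, t, hst⟩ := LN_reduce a b p (by linarith)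
    have hd : (p : ℤ) ∣ LN (a - p * s) (b - p * t) + LN 1 0 := by
      have : LN (a - p * s) (b - p * t) + LN 1 0 = (LN a b + 1) + p * (p * LN s t - 2 * a * s - a * t - b * s - 2 * b * t) := by
        unfold LN; ring
      rw [this]
      exact dvd_add hab (Dvd.intro _ rfl)
    obtain ⟨m, hm⟩ := hd
    have h0 := LN_nonneg (a - p * s) (b - p * t)
    have h1 : LN 1 0 = 1 := by norm_num [LN]
    rw [h1] at hm
    have hmpos : 0 < m := by
      by_contra hcon
      push Not at hcon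
      nlinarith
    have hmlt : m < p := by
      by_contra hcon
      push Not at hcon
      nlinarith
    refine ⟨m.toNat, by omega, by omega, ?_⟩
    have : ((m.toNat : ℕ) : ℤ) = m := Int.toNat_of_nonneg hmpos.le
    rw [this]
    exact ⟨a - p * s, b - p * t, 1, 0, by rw [h1, hm]; ring⟩
  -- minimal
  classical
  let m := Nat.find hstart
  obtain ⟨hm0, hmp, hrep⟩ := Nat.find_spec hstart
  rcases Nat.lt_or_ge 1 m with h | h
  · exfalso
    obtain ⟨m', h1, h2, h3⟩ := descent (p := p) (m := (m : ℤ)) (by exact_mod_cast h) hmp hpp hrep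
    have hm'lt : m'.toNat < m := by omega
    refine Nat.find_min hstart hm'lt ⟨by omega, by omega, ?_⟩
    rwa [Int.toNat_of_nonneg h1.le]
  · have : m = 1 := by omega
    have h6 : Nat.find hstart = 1 := this
    rw [h6] at hrep
    simpa using hrep

/-- `x² + xy + y² + z² + zw + w²` is universal. -/
theorem Rep2_nat (m : ℕ) : Rep2 (m : ℤ) := by
  induction m using induction_on_primes with
  | zero => exact ⟨0, 0, 0, 0, by norm_num [LN]⟩
  | one => exact ⟨1, 0, 0, 0, by norm_num [LN]⟩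
  | prime_mul p a hp ih =>
    have : Fact p.Prime := ⟨hp⟩
    push_cast
    exact Rep2_mul (Rep2_prime p) ih

theorem LN_odd_iff (a b : ℤ) : LN a b % 2 = 1 ↔ ¬ (a % 2 = 0 ∧ b % 2 = 0) := by
  unfold LN
  rcases Int.emod_two_eq_zero_or_one a with ha | ha <;>
    rcases Int.emod_two_eq_zero_or_one b with hb | hb <;>
    simp [pow_two, Int.add_emod, Int.mul_emod, ha, hb]

theorem LN_even {a b : ℤ} (h : LN a b % 2 = 0) : ∃ a' b' : ℤ, a = 2 * a' ∧ b = 2 * b' := by
  have h1 : ¬ (LN a b % 2 = 1) := by omega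
  rw [LN_odd_iff, not_not] at h1
  exact ⟨a / 2, b / 2, by omega, by omega⟩

/-- Sum of two odd Loeschian numbers. -/
def Rep2odd (m : ℤ) : Prop :=
  ∃ a b c d : ℤ, LN a b + LN c d = m ∧ LN a b % 2 = 1 ∧ LN c d % 2 = 1

theorem Rep2odd_four {a b c d : ℤ} (h : ¬ ((a + c) % 2 = 0 ∧ (b + d) % 2 = 0)) :
    Rep2odd (4 * (LN a b + LN c d)) := by
  refine ⟨a - c - 2 * d, b + 2 * c + d, -a - 2 * b + c, 2 * a + b + d, ?_, ?_, ?_⟩
  · unfold LN; ring
  · rw [LN_odd_iff]; omega
  · rw [LN_odd_iff]; omega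

theorem Rep2odd_nat (k : ℕ) : Rep2odd (2 * (k : ℤ) + 2) := by
  induction k using Nat.strong_induction_on with
  | _ k ih =>
    obtain ⟨a, b, c, d, h⟩ := Rep2_nat (2 * k + 2)
    push_cast at h
    by_cases h1 : LN a b % 2 = 1
    · exact ⟨a, b, c, d, h, h1, by omega⟩
    · have h2 : LN a b % 2 = 0 := by omega
      have h3 : LN c d % 2 = 0 := by omega
      obtain ⟨a', b', rfl, rfl⟩ := LN_even h2
      obtain ⟨c', d', rfl, rfl⟩ := LN_even h3
      have e1 : ∀ x y : ℤ, LN (2 * x) (2 * y) = 4 * LN x y := by intro x y; unfold LN; ring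
      rw [e1, e1] at h
      have h4 : 4 * (LN a' b' + LN c' d') = 2 * (k : ℤ) + 2 := by linarith
      rw [← h4]
      by_cases h5 : (LN a' b' + LN c' d') % 2 = 1
      · apply Rep2odd_four
        rintro ⟨h6, h7⟩
        have p1 := LN_odd_iff a' b'
        have p2 := LN_odd_iff c' d'
        have p3 : LN a' b' % 2 = 1 ↔ LN c' d' % 2 = 1 := by
          rw [p1, p2]; omega
        omega
      · have hpos : 0 < LN a' b' + LN c' d' := by omega
        have hlt : (LN a' b' + LN c' d' - 2).toNat / 2 < k := by omega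
        have := ih _ hlt
        have h8 : 2 * ((((LN a' b' + LN c' d' - 2).toNat / 2 : ℕ)) : ℤ) + 2 = LN a' b' + LN c' d' := by
          omega
        rw [h8] at this
        obtain ⟨x, y, z, w, g1, g2, g3⟩ := this
        rw [← g1]
        by_cases h9 : (x + z) % 2 = 0 ∧ (y + w) % 2 = 0
        · rw [← LN_rot z w]
          apply Rep2odd_four
          rw [LN_odd_iff] at g2 g3
          omega
        · exact Rep2odd_four h9

/-- Loeschian residue facts modulo three. -/
theorem LN_mod3 (a b : ℤ) : LN a b % 3 = 0 ∧ (a - b) % 3 = 0 ∨ LN a b % 3 = 1 ∧ (a - b) % 3 ≠ 0 := by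
  have h : LN a b = (a - b) ^ 2 + 3 * (a * b) := by unfold LN; ring
  rw [h]
  have h3 : (a - b) % 3 = 0 ∨ (a - b) % 3 = 1 ∨ (a - b) % 3 = 2 := by omega
  rcases h3 with h3 | h3 | h3 <;> simp [pow_two, Int.add_emod, Int.mul_emod, h3]

theorem LN_div3 {a b : ℤ} (h : LN a b % 3 = 0) : ∃ c d : ℤ, LN a b = 3 * LN c d := by
  rcases LN_mod3 a b with h1 | h1
  · -- a ≡ b mod 3
    obtain ⟨t, ht⟩ : ∃ t, a = b + 3 * t := ⟨(a - b) / 3, by omega⟩
    refine ⟨t, b + t, ?_⟩
    subst ht
    unfold LN; ring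
  · omega

theorem LN_div4 {a b : ℤ} (h : LN a b % 2 = 0) : ∃ c d : ℤ, LN a b = 4 * LN c d := by
  obtain ⟨c, d, rfl, rfl⟩ := LN_even h
  exact ⟨c, d, by unfold LN; ring⟩

/-- `m` is a Loeschian number. -/
def Lo (m : ℤ) : Prop := ∃ a b : ℤ, LN a b = m

theorem Lo_nonneg {m : ℤ} (h : Lo m) : 0 ≤ m := by
  obtain ⟨a, b, rfl⟩ := h; exact LN_nonneg a b

theorem combo11 (k : ℕ) : ∃ m n : ℤ, Lo (6 * m + 1) ∧ Lo (6 * n + 1) ∧ m + n = k := by
  obtain ⟨a, b, c, d, h, h1, h2⟩ := Rep2odd_nat (3 * k)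
  push_cast at h
  have p1 := LN_mod3 a b
  have p2 := LN_mod3 c d
  exact ⟨LN a b / 6, LN c d / 6, ⟨a, b, by omega⟩, ⟨c, d, by omega⟩, by omega⟩

theorem combo22 (k : ℕ) : ∃ m n : ℤ, Lo (2 * m + 1) ∧ Lo (2 * n + 1) ∧ m + n = k := by
  obtain ⟨a, b, c, d, h, h1, h2⟩ := Rep2odd_nat k
  exact ⟨LN a b / 2, LN c d / 2, ⟨a, b, by omega⟩, ⟨c, d, by omega⟩, by omega⟩

theorem combo12 (k : ℕ) : ∃ m n : ℤ, Lo (6 * m + 1) ∧ Lo (2 * n + 1) ∧ m + n = k := by
  obtain ⟨a, b, c, d, h, h1, h2⟩ := Rep2odd_nat (3 * k + 1)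
  push_cast at h
  have p1 := LN_mod3 a b
  have p2 := LN_mod3 c d
  rcases p1 with ⟨p1, _⟩ | ⟨p1, _⟩
  · obtain ⟨e, f, hef⟩ := LN_div3 p1
    exact ⟨LN c d / 6, LN e f / 2, ⟨c, d, by omega⟩, ⟨e, f, by omega⟩, by omega⟩
  · have p2' : LN c d % 3 = 0 := by omega
    obtain ⟨e, f, hef⟩ := LN_div3 p2'
    exact ⟨LN a b / 6, LN e f / 2, ⟨a, b, by omega⟩, ⟨e, f, by omega⟩, by omega⟩

theorem combo13 (k : ℕ) : ∃ m n : ℤ, Lo (6 * m + 1) ∧ Lo (3 * n + 1) ∧ m + 2 * n = k := by
  obtain ⟨a, b, c, d, h⟩ := Rep2_nat (6 * k + 5)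
  push_cast at h
  have p1 := LN_mod3 a b
  have p2 := LN_mod3 c d
  by_cases h1 : LN a b % 2 = 0
  · obtain ⟨e, f, hef⟩ := LN_div4 h1
    exact ⟨LN c d / 6, LN e f / 3, ⟨c, d, by omega⟩, ⟨e, f, by omega⟩, by omega⟩
  · have h2 : LN c d % 2 = 0 := by omega
    obtain ⟨e, f, hef⟩ := LN_div4 h2
    exact ⟨LN a b / 6, LN e f / 3, ⟨a, b, by omega⟩, ⟨e, f, by omega⟩, by omega⟩

end Pool.Agent.Work.MP_097698_nt
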