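import Pool.Agent.Work.MP_097698_nt.Two

namespace Pool.Agent.Work.MP_097698_nt

open Finset

theorem gx_neg (x : ℤ) : gx (-x) = gx x := by
  ext d
  rw [gx_apply, gx_apply]
  simp only [dvd_neg]

theorem ram_neg (x : ℤ) : ram (-x) = ram x := by
  unfold ram; rw [gx_neg]

theorem ram_congr {m : ℕ} (hm : 0 < m) {x y : ℤ} (h : (m : ℤ) ∣ x - y) : ram x m = ram y m := by
  have h1 := sum_primitiveRoots hm x
  have h2 := sum_primitiveRoots hm y
  have h3 : ∑ η ∈ primitiveRoots m ℂ, η ^ x = ∑ η ∈ primitiveRoots m ℂ, η ^ y := by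
    refine Finset.sum_congr rfl fun η hη => ?_
    have hη' := (mem_primitiveRoots hm).1 hη
    have hη0 : η ≠ 0 := hη'.ne_zero hm.ne'
    obtain ⟨t, ht⟩ := h
    have : x = m * t + y := by linarith
    rw [this, zpow_add₀ hη0, zpow_mul, hη'.zpow_eq_one, one_zpow, one_mul]
  rw [h1, h2] at h3
  exact_mod_cast h3

/-- The Hermitian form of conductor `m` on `ℤ^m`. -/
def Q (m : ℕ) (α : Fin m → ℤ) : ℤ := ∑ x, ∑ y, α x * α y * ram ((x : ℤ) - y) m

/-- Linear form: trace of `α ζ^{-x}`. -/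
def Lf (m : ℕ) (α : Fin m → ℤ) (x : Fin m) : ℤ := ∑ y, α y * ram ((y : ℤ) - x) m

theorem isVal_Q {m : ℕ} (α : Fin m → ℤ) : IsVal m (Q m α) := ⟨m, fun x => x, α, rfl⟩

theorem isVal_iff_Q {m : ℕ} (hm : 0 < m) (v : ℤ) : IsVal m v ↔ ∃ α : Fin m → ℤ, Q m α = v := by
  constructor
  · rintro ⟨k, e, a, rfl⟩
    let f : Fin k → Fin m := fun i => ⟨e i % m, Nat.mod_lt _ hm⟩
    refine ⟨fun x => ∑ i, if f i = x then a i else 0, ?_⟩
    unfold Q
    have h1 : ∀ x y : Fin m, (∑ i, if f i = x then a i else 0) * (∑ i, if f i = y then a i else 0)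
        * ram ((x : ℤ) - y) m
        = ∑ i, ∑ i', (if f i = x then a i else 0) * (if f i' = y then a i' else 0)
          * ram ((x : ℤ) - y) m := by
      intro x y
      rw [Finset.sum_mul_sum, Finset.sum_mul]
      refine Finset.sum_congr rfl fun i _ => ?_
      rw [Finset.sum_mul]
    simp only [h1]
    have hswap : ∀ F : Fin m → Fin m → Fin k → Fin k → ℤ,
        ∑ x, ∑ y, ∑ i, ∑ i', F x y i i' = ∑ i, ∑ i', ∑ x, ∑ y, F x y i i' := by
      intro F
      have e1 : ∀ x, ∑ y, ∑ i, ∑ i', F x y i i' = ∑ i, ∑ i', ∑ y, F x y i i' := by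
        intro x
        rw [Finset.sum_comm]
        refine Finset.sum_congr rfl fun i _ => ?_
        rw [Finset.sum_comm]
      simp only [e1]
      rw [Finset.sum_comm]
      refine Finset.sum_congr rfl fun i _ => ?_
      rw [Finset.sum_comm]
    rw [hswap]
    refine Finset.sum_congr rfl fun i _ => Finset.sum_congr rfl fun i' _ => ?_
    rw [Finset.sum_eq_single (f i)]
    · rw [Finset.sum_eq_single (f i')]
      · rw [if_pos rfl, if_pos rfl]
        congr 1
        apply ram_congr hm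
        have e1 := Nat.div_add_mod (e i) m
        have e2 := Nat.div_add_mod (e i') m
        refine ⟨-((e i / m : ℕ) : ℤ) + ((e i' / m : ℕ) : ℤ), ?_⟩
        have e1' : (m : ℤ) * ((e i / m : ℕ) : ℤ) + ((e i % m : ℕ) : ℤ) = e i := by exact_mod_cast e1
        have e2' : (m : ℤ) * ((e i' / m : ℕ) : ℤ) + ((e i' % m : ℕ) : ℤ) = e i' := by exact_mod_cast e2
        show ((e i % m : ℕ) : ℤ) - ((e i' % m : ℕ) : ℤ) - ((e i : ℤ) - e i') = _
        linear_combination e1' - e2'
      · intro y _ hy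
        rw [if_neg (fun hh : f i' = y => hy hh.symm)]
        ring
      · simp
    · intro x _ hx
      refine Finset.sum_eq_zero fun y _ => ?_
      rw [if_neg (fun hh : f i = x => hx hh.symm)]
      ring
    · simp
  · rintro ⟨α, rfl⟩
    exact isVal_Q α

theorem Q_even {m : ℕ} (hm : 2 < m) (α : Fin m → ℤ) : Even (Q m α) := by
  have h0 : Even (ram 0 m) := by
    rw [ram_zero (by omega)]
    exact_mod_cast Nat.totient_even hm
  set f : Fin m → Fin m → ℤ := fun x y => α x * α y * ram ((x : ℤ) - y) m with hf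
  have hsym : ∀ x y, f x y = f y x := fun x y => by
    rw [hf]; dsimp only
    rw [← ram_neg ((y : ℤ) - x), neg_sub]; ring
  have h1 : Q m α = ∑ x, ∑ y, (if y < x then f x y else 0) + ∑ x, ∑ y, (if x = y then f x y else 0)
      + ∑ x, ∑ y, (if x < y then f x y else 0) := by
    unfold Q
    rw [← Finset.sum_add_distrib, ← Finset.sum_add_distrib]
    refine Finset.sum_congr rfl fun x _ => ?_
    rw [← Finset.sum_add_distrib, ← Finset.sum_add_distrib]
    refine Finset.sum_congr rfl fun y _ => ?_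
    rcases lt_trichotomy x y with h | h | h
    · simp [h, h.ne, h.not_gt, hf]
    · simp [h, hf]
    · simp [h, h.ne', h.not_gt, hf]
  have h2 : ∑ x, ∑ y, (if x < y then f x y else 0) = ∑ x, ∑ y, (if y < x then f x y else 0) := by
    rw [Finset.sum_comm]
    refine Finset.sum_congr rfl fun x _ => Finset.sum_congr rfl fun y _ => ?_
    rw [hsym]
  have h3 : Even (∑ x, ∑ y, (if x = y then f x y else 0)) := by
    refine Finset.even_sum _ fun x _ => Finset.even_sum _ fun y _ => ?_
    by_cases h : x = y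
    · subst h
      simp only [if_true, hf, sub_self]
      exact h0.mul_left _
    · simp [h]
  rw [h1, h2]
  have : ∑ x, ∑ y, (if y < x then f x y else 0) + ∑ x, ∑ y, (if x = y then f x y else 0)
      + ∑ x, ∑ y, (if y < x then f x y else 0)
      = 2 * ∑ x, ∑ y, (if y < x then f x y else 0) + ∑ x, ∑ y, (if x = y then f x y else 0) := by ring
  rw [this]
  exact (even_two_mul _).add h3

/-- Orthogonality: the kernel squared is `m` times the kernel. -/
theorem kernel_sq {m : ℕ} (hm : 0 < m) (y z : ℤ) :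
    ∑ x : Fin m, ram (y - x) m * ram (z - x) m = m * ram (y - z) m := by
  have h : ((∑ x : Fin m, ram (y - x) m * ram (z - x) m : ℤ) : ℂ) = ((m * ram (y - z) m : ℤ) : ℂ) := by
    push_cast
    have e1 : ∀ x : Fin m, ((ram (y - x) m : ℤ) : ℂ) * ((ram (z - x) m : ℤ) : ℂ)
        = ∑ η ∈ primitiveRoots m ℂ, ∑ ξ ∈ primitiveRoots m ℂ, (η ^ y * ξ ^ (-z)) * (ξ / η) ^ (x : ℕ) := by
      intro x
      have : ram (z - x) m = ram (x - z) m := by rw [← ram_neg, neg_sub]
      rw [this, ← sum_primitiveRoots hm, ← sum_primitiveRoots hm, Finset.sum_mul_sum]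
      refine Finset.sum_congr rfl fun η hη => Finset.sum_congr rfl fun ξ hξ => ?_
      have hη0 : η ≠ 0 := ((mem_primitiveRoots hm).1 hη).ne_zero hm.ne'
      have hξ0 : ξ ≠ 0 := ((mem_primitiveRoots hm).1 hξ).ne_zero hm.ne'
      rw [div_pow, zpow_sub₀ hη0, zpow_sub₀ hξ0, zpow_neg, zpow_natCast, zpow_natCast]
      field_simp
    simp only [e1]
    rw [Finset.sum_comm, ← sum_primitiveRoots hm, Finset.mul_sum]
    refine Finset.sum_congr rfl fun η hη => ?_
    have hη' := (mem_primitiveRoots hm).1 hη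
    have hη0 : η ≠ 0 := hη'.ne_zero hm.ne'
    rw [Finset.sum_comm, Finset.sum_eq_single η]
    · rw [div_self hη0]
      simp only [one_pow, mul_one, Finset.sum_const, card_univ, Fintype.card_fin, nsmul_eq_mul]
      rw [← zpow_add₀ hη0]; rfl
    · intro ξ hξ hne
      have hξ' := (mem_primitiveRoots hm).1 hξ
      rw [← Finset.mul_sum]
      have h1 : ∑ x : Fin m, (ξ / η) ^ (x : ℕ) = 0 := by
        rw [Fin.sum_univ_eq_sum_range (fun k => (ξ / η) ^ k) m]
        have h4 := mul_neg_geom_sum (ξ / η) m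
        rw [div_pow, hξ'.pow_eq_one, hη'.pow_eq_one, div_one, sub_self, mul_eq_zero] at h4
        rcases h4 with h4 | h4
        · exfalso
          apply hne
          have := (sub_eq_zero.1 h4).symm
          exact (div_eq_one_iff_eq hη0).1 this
        · exact h4
      rw [h1, mul_zero]
    · intro hh; exact absurd hη hh
  exact_mod_cast h

theorem sum_Lf_sq {m : ℕ} (hm : 0 < m) (α : Fin m → ℤ) : ∑ x, Lf m α x ^ 2 = m * Q m α := by
  unfold Lf Q
  have h1 : ∀ x : Fin m, (∑ y, α y * ram ((y : ℤ) - x) m) ^ 2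
      = ∑ y, ∑ z, (α y * α z) * (ram ((y : ℤ) - x) m * ram ((z : ℤ) - x) m) := by
    intro x
    rw [pow_two, Finset.sum_mul_sum]
    refine Finset.sum_congr rfl fun y _ => Finset.sum_congr rfl fun z _ => ?_
    ring
  simp only [h1]
  rw [Finset.sum_comm, Finset.mul_sum]
  refine Finset.sum_congr rfl fun y _ => ?_
  rw [Finset.sum_comm, Finset.mul_sum]
  refine Finset.sum_congr rfl fun z _ => ?_
  rw [← Finset.mul_sum, kernel_sq hm]
  ring

theorem exists_odd_Lf {m : ℕ} (hm : Odd m) (α : Fin m → ℤ) (s : ℤ) (hs : Odd s)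
    (h : Q m α = 2 * s) : ∃ x, Odd (Lf m α x) := by
  by_contra hcon
  push Not at hcon
  have h1 := sum_Lf_sq hm.pos α
  rw [h] at h1
  have h2 : (4 : ℤ) ∣ ∑ x, Lf m α x ^ 2 := by
    refine Finset.dvd_sum fun x _ => ?_
    have := hcon x
    rw [Int.not_odd_iff_even] at this
    obtain ⟨t, ht⟩ := this
    exact ⟨t ^ 2, by rw [ht]; ring⟩
  rw [h1] at h2
  have hm' : Odd (m : ℤ) := by exact_mod_cast hm
  obtain ⟨a, ha⟩ := hm'
  obtain ⟨b, hb⟩ := hs
  obtain ⟨c, hc⟩ := h2
  rw [ha, hb] at hc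
  have : 2 * (2 * a * b + a + b) + 1 = 2 * c := by linarith
  omega

/-- Bilinear expansions. -/
theorem Q_add (m : ℕ) (α β : Fin m → ℤ) :
    Q m (α + β) = Q m α + Q m β + 2 * ∑ x, ∑ y, α x * β y * ram ((x : ℤ) - y) m := by
  unfold Q
  have h : ∀ x y : Fin m, (α + β) x * (α + β) y * ram ((x : ℤ) - y) m
      = α x * α y * ram ((x : ℤ) - y) m + β x * β y * ram ((x : ℤ) - y) m
        + (α x * β y * ram ((x : ℤ) - y) m + β x * α y * ram ((x : ℤ) - y) m) := by
    intro x y; simp only [Pi.add_apply]; ring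
  simp only [h, Finset.sum_add_distrib]
  have h2 : ∑ x, ∑ y, β x * α y * ram ((x : ℤ) - y) m = ∑ x, ∑ y, α x * β y * ram ((x : ℤ) - y) m := by
    rw [Finset.sum_comm]
    refine Finset.sum_congr rfl fun x _ => Finset.sum_congr rfl fun y _ => ?_
    rw [← ram_neg ((y : ℤ) - x), neg_sub]; ring
  rw [h2]; ring

theorem Q_neg (m : ℕ) (α : Fin m → ℤ) : Q m (-α) = Q m α := by
  unfold Q
  refine Finset.sum_congr rfl fun x _ => Finset.sum_congr rfl fun y _ => ?_
  simp

theorem Q_single {m : ℕ} (hm : 0 < m) (x : Fin m) (c : ℤ) :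
    Q m (Pi.single x c) = c ^ 2 * (Nat.totient m : ℤ) := by
  unfold Q
  rw [Finset.sum_eq_single x]
  · rw [Finset.sum_eq_single x]
    · rw [Pi.single_eq_same, sub_self, ram_zero hm]; ring
    · intro y _ hy
      rw [Pi.single_eq_of_ne hy]; ring
    · simp
  · intro y _ hy
    refine Finset.sum_eq_zero fun z _ => ?_
    rw [Pi.single_eq_of_ne hy]; ring
  · simp

theorem Q_zero (m : ℕ) : Q m 0 = 0 := by
  unfold Q; simp

theorem Q_add_single {m : ℕ} (hm : 0 < m) (α : Fin m → ℤ) (x : Fin m) (c : ℤ) :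
    Q m (α + Pi.single x c) = Q m α + c ^ 2 * (Nat.totient m : ℤ) + 2 * c * Lf m α x := by
  rw [Q_add, Q_single hm]
  have : ∑ y, ∑ z, α y * (Pi.single x c : Fin m → ℤ) z * ram ((y : ℤ) - z) m = c * Lf m α x := by
    unfold Lf
    rw [Finset.mul_sum]
    refine Finset.sum_congr rfl fun y _ => ?_
    rw [Finset.sum_eq_single x]
    · rw [Pi.single_eq_same]; ring
    · intro z _ hz
      rw [Pi.single_eq_of_ne hz]; ring
    · simp
  rw [this]; ring

/-- The recursion for a new prime. -/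
theorem isVal_mul {l m : ℕ} (hl : l.Prime) (hm : 0 < m) (hco : Nat.Coprime l m)
    (A : Fin l → Fin m → ℤ) :
    IsVal (l * m) (l * ∑ i, Q m (A i) - Q m (∑ i, A i)) := by
  have h := isVal_of (n := l * m) (ι := Fin l × Fin m)
    (fun t => (Nat.chineseRemainder hco t.1 t.2 : ℕ)) (fun t => A t.1 t.2)
  have hE : ∑ t : Fin l × Fin m, ∑ t' : Fin l × Fin m, A t.1 t.2 * A t'.1 t'.2 *
      ram (((Nat.chineseRemainder hco t.1 t.2 : ℕ) : ℤ) - (Nat.chineseRemainder hco t'.1 t'.2 : ℕ)) (l * m)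
      = l * ∑ i, Q m (A i) - Q m (∑ i, A i) := by
    have e1 : ∀ t t' : Fin l × Fin m,
        ram (((Nat.chineseRemainder hco t.1 t.2 : ℕ) : ℤ) - (Nat.chineseRemainder hco t'.1 t'.2 : ℕ)) (l * m)
        = ((if t.1 = t'.1 then (l : ℤ) else 0) - 1) * ram ((t.2 : ℤ) - t'.2) m := by
      intro t t'
      rw [ram_mul hco]
      congr 1
      · rw [ram_prime hl]
        congr 1
        have c1 := (Nat.chineseRemainder hco t.1 t.2).2.1
        have c2 := (Nat.chineseRemainder hco t'.1 t'.2).2.1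
        have hiff : ((l : ℤ) ∣ ((Nat.chineseRemainder hco t.1 t.2 : ℕ) : ℤ)
            - (Nat.chineseRemainder hco t'.1 t'.2 : ℕ)) ↔ t.1 = t'.1 := by
          rw [← Int.modEq_iff_dvd, Int.natCast_modEq_iff]
          constructor
          · intro hh
            have h3 : (t'.1 : ℕ) ≡ t.1 [MOD l] := (c2.symm.trans hh).trans c1
            exact (Fin.ext (Nat.ModEq.eq_of_lt_of_lt h3 t'.1.2 t.1.2)).symm
          · intro hh
            have h4 : (t'.1 : ℕ) ≡ t.1 [MOD l] := by rw [hh]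
            exact (c2.trans h4).trans c1.symm
        simp only [hiff]
      · apply ram_congr hm
        have c1 := (Nat.chineseRemainder hco t.1 t.2).2.2
        have c2 := (Nat.chineseRemainder hco t'.1 t'.2).2.2
        have d1 : (m : ℤ) ∣ (t.2 : ℕ) - ((Nat.chineseRemainder hco t.1 t.2 : ℕ) : ℤ) :=
          (Int.modEq_iff_dvd).1 ((Int.natCast_modEq_iff).2 c1)
        have d2 : (m : ℤ) ∣ (t'.2 : ℕ) - ((Nat.chineseRemainder hco t'.1 t'.2 : ℕ) : ℤ) :=
          (Int.modEq_iff_dvd).1 ((Int.natCast_modEq_iff).2 c2)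
        have := dvd_sub d2 d1
        have e : ((Nat.chineseRemainder hco t.1 t.2 : ℕ) : ℤ) - (Nat.chineseRemainder hco t'.1 t'.2 : ℕ)
            - ((t.2 : ℤ) - t'.2) = ((t'.2 : ℕ) : ℤ) - ((Nat.chineseRemainder hco t'.1 t'.2 : ℕ) : ℤ)
              - (((t.2 : ℕ) : ℤ) - ((Nat.chineseRemainder hco t.1 t.2 : ℕ) : ℤ)) := by ring
        rw [e]; exact this
    simp only [e1]
    simp only [Fintype.sum_prod_type]
    have e2 : ∀ i : Fin l, ∀ x : Fin m, ∑ i' : Fin l, ∑ x' : Fin m, A i x * A i' x' *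
        (((if i = i' then (l : ℤ) else 0) - 1) * ram ((x : ℤ) - x') m)
        = l * ∑ x', A i x * A i x' * ram ((x : ℤ) - x') m
          - ∑ i', ∑ x', A i x * A i' x' * ram ((x : ℤ) - x') m := by
      intro i x
      have : ∀ i' x', A i x * A i' x' * (((if i = i' then (l : ℤ) else 0) - 1) * ram ((x : ℤ) - x') m)
          = (if i = i' then (l : ℤ) * (A i x * A i' x' * ram ((x : ℤ) - x') m) else 0)
            - A i x * A i' x' * ram ((x : ℤ) - x') m := by
        intro i' x'
        by_cases hh : i = i' <;> simp [hh] <;> ring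
      simp only [this, Finset.sum_sub_distrib]
      congr 1
      rw [Finset.sum_eq_single i]
      · simp only [if_true, Finset.mul_sum]
      · intro i' _ hi'
        refine Finset.sum_eq_zero fun x' _ => ?_
        rw [if_neg hi'.symm]
      · simp
    simp only [e2, Finset.sum_sub_distrib, ← Finset.mul_sum]
    congr 1
    unfold Q
    rw [Finset.sum_comm]
    refine Finset.sum_congr rfl fun x _ => ?_
    have : ∀ i, ∑ i', ∑ x', A i x * A i' x' * ram ((x : ℤ) - x') m
        = ∑ x', A i x * (∑ i', A i' x') * ram ((x : ℤ) - x') m := by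
      intro i
      rw [Finset.sum_comm]
      refine Finset.sum_congr rfl fun x' _ => ?_
      rw [Finset.mul_sum, Finset.sum_mul]
    simp only [this]
    rw [Finset.sum_comm]
    refine Finset.sum_congr rfl fun x' _ => ?_
    rw [Finset.sum_apply, Finset.sum_apply, Finset.sum_mul, Finset.sum_mul]
  rw [hE] at h
  exact h

end Pool.Agent.Work.MP_097698_nt
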