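import Pool.Agent.Work.MP_097698_nt.Mat

namespace Pool.Agent.Work.MP_097698_nt

open Finset

section

variable {ι κ : Type*} [Fintype ι] [Fintype κ]

/-- Max-flow min-cut for 0-1 matrices, via Hall's theorem. -/
theorem exists_01 (r : ι → ℤ) (c : κ → ℤ) (hs : ∑ i, r i = ∑ j, c j)
    (hcut : ∀ (I : Finset ι) (J : Finset κ),
      ∑ i ∈ I, r i - ∑ j ∈ J, c j ≤ (#I : ℤ) * ((Fintype.card κ : ℤ) - #J)) :
    ∃ b : ι → κ → ℤ, (∀ i j, b i j = 0 ∨ b i j = 1) ∧ (∀ i, ∑ j, b i j = r i) ∧
      (∀ j, ∑ i, b i j = c j) := by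
  classical
  have hr : ∀ i, r i ≤ Fintype.card κ := fun i => by
    have := hcut {i} ∅
    simpa using this
  have hc : ∀ j, 0 ≤ c j := fun j => by
    have := hcut ∅ {j}
    simpa using this
  let z : ι → ℕ := fun i => ((Fintype.card κ : ℤ) - r i).toNat
  let cc : κ → ℕ := fun j => (c j).toNat
  have hz : ∀ i, (z i : ℤ) = Fintype.card κ - r i := fun i =>
    Int.toNat_of_nonneg (by linarith [hr i])
  have hcc : ∀ j, (cc j : ℤ) = c j := fun j => Int.toNat_of_nonneg (hc j)
  let α := (Σ i, Fin (z i)) ⊕ (Σ j, Fin (cc j))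
  let t : ι × κ → Finset α := fun x => univ.filter (fun y => match y with
    | Sum.inl u => u.1 = x.1
    | Sum.inr u => u.1 = x.2)
  have hall : ∀ s : Finset (ι × κ), #s ≤ #(s.biUnion t) := by
    intro s
    let I := s.image Prod.fst
    let J := s.image Prod.snd
    have h1 : s ⊆ I ×ˢ J := by
      intro x hx
      rw [mem_product]
      exact ⟨mem_image_of_mem _ hx, mem_image_of_mem _ hx⟩
    have h2 : #s ≤ #I * #J := by
      rw [← card_product]; exact card_le_card h1
    let A : Finset (Σ i, Fin (z i)) := I.sigma fun i => univ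
    let B : Finset (Σ j, Fin (cc j)) := J.sigma fun j => univ
    have h3 : A.disjSum B ⊆ s.biUnion t := by
      intro y hy
      rw [mem_biUnion]
      rcases mem_disjSum.1 hy with ⟨u, hu, rfl⟩ | ⟨u, hu, rfl⟩
      · have : u.1 ∈ I := (mem_sigma.1 hu).1
        obtain ⟨x, hx, hxu⟩ := mem_image.1 this
        exact ⟨x, hx, by simp [t, hxu]⟩
      · have : u.1 ∈ J := (mem_sigma.1 hu).1
        obtain ⟨x, hx, hxu⟩ := mem_image.1 this
        exact ⟨x, hx, by simp [t, hxu]⟩
    have h4 : #(A.disjSum B) = ∑ i ∈ I, z i + ∑ j ∈ J, cc j := by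
      rw [card_disjSum, card_sigma, card_sigma]
      simp
    have h5 : #(A.disjSum B) ≤ #(s.biUnion t) := card_le_card h3
    refine h2.trans (le_trans ?_ h5)
    rw [h4]
    have h6 := hcut I J
    have h7 : ((∑ i ∈ I, z i + ∑ j ∈ J, cc j : ℕ) : ℤ)
        = (#I : ℤ) * Fintype.card κ - ∑ i ∈ I, r i + ∑ j ∈ J, c j := by
      push_cast
      simp only [hz, hcc]
      rw [Finset.sum_sub_distrib, Finset.sum_const, nsmul_eq_mul]
    have h8 : ((#I * #J : ℕ) : ℤ) ≤ ((∑ i ∈ I, z i + ∑ j ∈ J, cc j : ℕ) : ℤ) := by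
      rw [h7]; push_cast; linarith
    exact_mod_cast h8
  obtain ⟨f, hf, hft⟩ := (Finset.all_card_le_biUnion_card_iff_exists_injective t).1 hall
  have hcard : Fintype.card (ι × κ) = Fintype.card α := by
    have : ((Fintype.card α : ℕ) : ℤ) = (Fintype.card (ι × κ) : ℤ) := by
      rw [Fintype.card_sum, Fintype.card_sigma, Fintype.card_sigma, Fintype.card_prod]
      push_cast
      simp only [Fintype.card_fin, hz, hcc]
      rw [Finset.sum_sub_distrib, Finset.sum_const, nsmul_eq_mul, card_univ, ← hs]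
      ring
    exact_mod_cast this.symm
  have hbij : Function.Bijective f := (Fintype.bijective_iff_injective_and_card f).2 ⟨hf, hcard⟩
  refine ⟨fun i j => if (f (i, j)).isRight then 1 else 0, fun i j => ?_, fun i => ?_, fun j => ?_⟩
  · by_cases h : (f (i, j)).isRight <;> simp [h]
  · -- row sums
    have hL : #(univ.filter fun j => (f (i, j)).isLeft) = z i := by
      have : z i = #(univ : Finset (Fin (z i))) := by simp
      rw [this]
      symm
      refine Finset.card_bij (fun u _ => (Function.surjInv hbij.2 (Sum.inl ⟨i, u⟩ : α)).2) ?_ ?_ ?_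
      · intro u _
        have h1 := Function.surjInv_eq hbij.2 (Sum.inl ⟨i, u⟩ : α)
        set x := Function.surjInv hbij.2 (Sum.inl ⟨i, u⟩ : α) with hx
        have h2 := hft x
        rw [h1] at h2
        have h3 : i = x.1 := by simpa [t] using h2
        rw [mem_filter]
        refine ⟨mem_univ _, ?_⟩
        have h4 : (i, x.2) = x := by rw [h3]
        rw [h4, h1]; rfl
      · intro u _ v _ huv
        have h1 := Function.surjInv_eq hbij.2 (Sum.inl ⟨i, u⟩ : α)
        have h1' := Function.surjInv_eq hbij.2 (Sum.inl ⟨i, v⟩ : α)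
        set x := Function.surjInv hbij.2 (Sum.inl ⟨i, u⟩ : α) with hx
        set y := Function.surjInv hbij.2 (Sum.inl ⟨i, v⟩ : α) with hy
        have h2 := hft x
        rw [h1] at h2
        have h3 : i = x.1 := by simpa [t] using h2
        have h2' := hft y
        rw [h1'] at h2'
        have h3' : i = y.1 := by simpa [t] using h2'
        have hxy : x = y := Prod.ext (h3.symm.trans h3') huv
        rw [hxy, h1'] at h1
        have h9 := Sum.inl_injective h1
        exact (eq_of_heq (Sigma.mk.inj_iff.1 h9).2).symm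
      · intro j hj
        rw [mem_filter] at hj
        obtain ⟨u, hu⟩ := Sum.isLeft_iff.1 hj.2
        have h2 := hft (i, j)
        rw [hu] at h2
        have h3 : u.1 = i := by simpa [t] using h2
        obtain ⟨u1, u2⟩ := u
        simp only at h3
        subst h3
        refine ⟨u2, mem_univ _, ?_⟩
        rw [← hu, Function.leftInverse_surjInv hbij]
    have : ∀ j, (if (f (i, j)).isRight then (1 : ℤ) else 0) = 1 - (if (f (i, j)).isLeft then 1 else 0) := by
      intro j
      rcases h : f (i, j) with u | u <;> simp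
    simp only [this]
    rw [Finset.sum_sub_distrib, Finset.sum_boole, hL, hz]
    simp
  · -- column sums
    have hR : #(univ.filter fun i => (f (i, j)).isRight) = cc j := by
      have : cc j = #(univ : Finset (Fin (cc j))) := by simp
      rw [this]
      symm
      refine Finset.card_bij (fun u _ => (Function.surjInv hbij.2 (Sum.inr ⟨j, u⟩ : α)).1) ?_ ?_ ?_
      · intro u _
        have h1 := Function.surjInv_eq hbij.2 (Sum.inr ⟨j, u⟩ : α)
        set x := Function.surjInv hbij.2 (Sum.inr ⟨j, u⟩ : α) with hx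
        have h2 := hft x
        rw [h1] at h2
        have h3 : j = x.2 := by simpa [t] using h2
        rw [mem_filter]
        refine ⟨mem_univ _, ?_⟩
        have h4 : (x.1, j) = x := by rw [h3]
        rw [h4, h1]; rfl
      · intro u _ v _ huv
        have h1 := Function.surjInv_eq hbij.2 (Sum.inr ⟨j, u⟩ : α)
        have h1' := Function.surjInv_eq hbij.2 (Sum.inr ⟨j, v⟩ : α)
        set x := Function.surjInv hbij.2 (Sum.inr ⟨j, u⟩ : α) with hx
        set y := Function.surjInv hbij.2 (Sum.inr ⟨j, v⟩ : α) with hy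
        have h2 := hft x
        rw [h1] at h2
        have h3 : j = x.2 := by simpa [t] using h2
        have h2' := hft y
        rw [h1'] at h2'
        have h3' : j = y.2 := by simpa [t] using h2'
        have hxy : x = y := Prod.ext huv (h3.symm.trans h3')
        rw [hxy, h1'] at h1
        have h9 := Sum.inr_injective h1
        exact (eq_of_heq (Sigma.mk.inj_iff.1 h9).2).symm
      · intro i hi
        rw [mem_filter] at hi
        obtain ⟨u, hu⟩ := Sum.isRight_iff.1 hi.2
        have h2 := hft (i, j)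
        rw [hu] at h2
        have h3 : u.1 = j := by simpa [t] using h2
        obtain ⟨u1, u2⟩ := u
        simp only at h3
        subst h3
        refine ⟨u2, mem_univ _, ?_⟩
        rw [← hu, Function.leftInverse_surjInv hbij]
    rw [Finset.sum_boole, hR, hcc]

/-- Every integer matrix has, up to a shift `x_i + y_j`, the margins of a 0-1 matrix. -/
theorem exists_shift_01 (a : ι → κ → ℤ) :
    ∃ (x : ι → ℤ) (y : κ → ℤ) (b : ι → κ → ℤ), (∀ i j, b i j = 0 ∨ b i j = 1) ∧
      (∀ i, ∑ j, (a i j - x i - y j) = ∑ j, b i j) ∧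
      (∀ j, ∑ i, (a i j - x i - y j) = ∑ i, b i j) := by
  classical
  -- the functional
  let Φ : (ι → ℤ) × (κ → ℤ) → ℤ := fun p =>
    ∑ i, ∑ j, (a i j - p.1 i - p.2 j) * (a i j - p.1 i - p.2 j - 1)
  have hΦ0 : ∀ p, 0 ≤ Φ p := fun p => Finset.sum_nonneg fun i _ => Finset.sum_nonneg fun j _ => by
    set w := a i j - p.1 i - p.2 j
    rcases le_or_gt w 0 with h | h
    · nlinarith
    · nlinarith
  obtain ⟨p, hp⟩ : ∃ p, ∀ p', Φ p ≤ Φ p' := by
    have hex : ∃ n : ℕ, ∃ p, Φ p = n := ⟨(Φ (0, 0)).toNat, (0, 0), (Int.toNat_of_nonneg (hΦ0 _)).symm⟩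
    obtain ⟨p, hp⟩ := Nat.find_spec hex
    refine ⟨p, fun p' => ?_⟩
    by_contra hcon
    push Not at hcon
    have hlt : (Φ p').toNat < Nat.find hex := by
      have := hΦ0 p'
      omega
    exact Nat.find_min hex hlt ⟨p', (Int.toNat_of_nonneg (hΦ0 _)).symm⟩
  obtain ⟨x, y⟩ := p
  set e : ι → κ → ℤ := fun i j => a i j - x i - y j with he
  have hopt : ∀ (I : Finset ι) (J : Finset κ),
      ∑ i ∈ I, ∑ j, e i j - ∑ j ∈ J, ∑ i, e i j ≤ (#I : ℤ) * ((Fintype.card κ : ℤ) - #J) := by
    intro I J
    set u : ι → ℤ := fun i => if i ∈ I then 1 else 0 with hu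
    set w : κ → ℤ := fun j => if j ∈ J then 1 else 0 with hw
    have hu2 : ∀ i, u i * u i = u i := fun i => by rw [hu]; dsimp only; split_ifs <;> norm_num
    have hw2 : ∀ j, w j * w j = w j := fun j => by rw [hw]; dsimp only; split_ifs <;> norm_num
    have h := hp (fun i => x i + u i, fun j => y j - w j)
    have h1 : ∀ i j, (a i j - (x i + u i) - (y j - w j))
        * (a i j - (x i + u i) - (y j - w j) - 1)
        = e i j * (e i j - 1) + 2 * (u i * (1 - w j) - u i * e i j + w j * e i j) := by
      intro i j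
      rw [he]
      linear_combination hu2 i + hw2 j
    simp only [Φ, h1] at h
    have h2 : 0 ≤ ∑ i, ∑ j, (u i * (1 - w j) - u i * e i j + w j * e i j) := by
      have h3 : ∑ i, ∑ j, (e i j * (e i j - 1) + 2 * (u i * (1 - w j) - u i * e i j + w j * e i j))
          = ∑ i, ∑ j, e i j * (e i j - 1) + 2 * ∑ i, ∑ j, (u i * (1 - w j) - u i * e i j + w j * e i j) := by
        rw [Finset.mul_sum, ← Finset.sum_add_distrib]
        refine Finset.sum_congr rfl fun i _ => ?_
        rw [Finset.mul_sum, ← Finset.sum_add_distrib]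
      rw [h3] at h
      linarith
    have h4 : ∑ i, ∑ j, u i * (1 - w j) = (#I : ℤ) * ((Fintype.card κ : ℤ) - #J) := by
      rw [← Finset.sum_mul_sum]
      congr 1
      · simp [hu]
      · simp [hw]
    have h5 : ∑ i, ∑ j, u i * e i j = ∑ i ∈ I, ∑ j, e i j := by
      simp only [← Finset.mul_sum]
      simp [hu, Finset.sum_ite_mem]
    have h6 : ∑ i, ∑ j, w j * e i j = ∑ j ∈ J, ∑ i, e i j := by
      rw [Finset.sum_comm]
      simp only [← Finset.mul_sum]
      simp [hw, Finset.sum_ite_mem]
    simp only [Finset.sum_add_distrib, Finset.sum_sub_distrib] at h2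
    rw [h4, h5, h6] at h2
    linarith
  have hs : ∑ i, ∑ j, e i j = ∑ j, ∑ i, e i j := Finset.sum_comm
  obtain ⟨b, hb, hbr, hbc⟩ := exists_01 (fun i => ∑ j, e i j) (fun j => ∑ i, e i j) hs hopt
  exact ⟨x, y, b, hb, fun i => (hbr i).symm, fun j => (hbc j).symm⟩

end

end Pool.Agent.Work.MP_097698_nt
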