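import Mathlib

namespace Pool.Agent.Work.MP_097698_nt

/-- Type of a pair of column classes: 0 is the zero class, 1..6 are the vertices of a hexagon. -/
def typN (a b : Fin 7) : ℕ :=
  if a = b then 0 else if a = 0 ∨ b = 0 then 1 else
    let d := (a.val + 6 - b.val) % 6
    if d = 1 ∨ d = 5 then 1 else if d = 2 ∨ d = 4 then 2 else 3

def nn (a b : Fin 7) : Bool := typN a b == 1 || typN a b == 2

/-- good configuration for the ordered five classes: pairs (a,b), (c,d) or pair (a,b) and triple (c,d,e). -/
def goodc (a b c d e : Fin 7) : Bool :=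
  (nn a b && nn c d) || (typN a b == 1 && typN c d == 3) || (nn a b && (c == d) && (d == e))

def sel (a b c d e : Fin 7) : Bool :=
  goodc a b c d e || goodc a b c e d || goodc a b d e c || goodc a c b d e ||
  goodc a c d e b || goodc a d c e b || goodc a e c d b ||
  goodc b c d e a || goodc b d c e a || goodc b e c d a ||
  goodc a c b e d || goodc a d b c e || goodc a d b e c || goodc a e b c d || goodc a e b d c ||
  goodc b c a d e || goodc b c a e d || goodc b d a c e || goodc b d a e c ||
  goodc b e a c d || goodc b e a d c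

/-- The opposite class. -/
def opp (a : Fin 7) : Fin 7 := ![0, 4, 5, 6, 1, 2, 3] a

theorem nn_false : ∀ b c : Fin 7, nn b c = false → c = b ∨ c = opp b := by
  decide +kernel

theorem nn_opp : ∀ b c : Fin 7, nn b (opp c) = nn b c ∧ nn b c = nn c b := by
  decide +kernel

theorem sel_b : ∀ a b : Fin 7, nn a b = true →
    sel a b b b b = true ∧ sel a b b b (opp b) = true ∧ sel a b b (opp b) b = true ∧
    sel a b b (opp b) (opp b) = true ∧ sel a b (opp b) b b = true ∧
    sel a b (opp b) b (opp b) = true ∧ sel a b (opp b) (opp b) b = true ∧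
    sel a b (opp b) (opp b) (opp b) = true := by
  decide +kernel

theorem sel_a : ∀ a b : Fin 7, nn a b = true →
    sel a b a a a = true ∧ sel a b a a (opp a) = true ∧ sel a b a (opp a) a = true ∧
    sel a b a (opp a) (opp a) = true ∧ sel a b (opp a) a a = true ∧
    sel a b (opp a) a (opp a) = true ∧ sel a b (opp a) (opp a) a = true ∧
    sel a b (opp a) (opp a) (opp a) = true := by
  decide +kernel

/-- If `c` and `d` lie on the same axis, `nn x c` and `nn x d` agree. -/
theorem nn_trans {x c d : Fin 7} (h : nn c d = false) : nn x d = nn x c := by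
  rcases nn_false c d h with h | h
  · rw [h]
  · rw [h, (nn_opp x c).1]

theorem sel_of_nn (a b c d e : Fin 7) (h : nn a b = true) : sel a b c d e = true := by
  by_cases h1 : nn c d = true
  · simp [sel, goodc, h, h1]
  by_cases h2 : nn c e = true
  · simp [sel, goodc, h, h2]
  by_cases h3 : nn d e = true
  · simp [sel, goodc, h, h3]
  rw [Bool.not_eq_true] at h1 h2 h3
  by_cases h4 : nn a c = true
  · by_cases h5 : nn b c = true
    · have h6 : nn b d = true := by rw [nn_trans h1]; exact h5
      simp [sel, goodc, h4, h6]
    · rw [Bool.not_eq_true] at h5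
      have h6 : nn b d = false := by rw [nn_trans h1]; exact h5
      have h7 : nn b e = false := by rw [nn_trans h2]; exact h5
      obtain ⟨k1, k2, k3, k4, k5, k6, k7, k8⟩ := sel_b a b h
      rcases nn_false b c h5 with r1 | r1 <;> rcases nn_false b d h6 with r2 | r2 <;>
        rcases nn_false b e h7 with r3 | r3 <;> rw [r1, r2, r3] <;> assumption
  · rw [Bool.not_eq_true] at h4
    have h6 : nn a d = false := by rw [nn_trans h1]; exact h4
    have h7 : nn a e = false := by rw [nn_trans h2]; exact h4
    obtain ⟨k1, k2, k3, k4, k5, k6, k7, k8⟩ := sel_a a b h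
    rcases nn_false a c h4 with r1 | r1 <;> rcases nn_false a d h6 with r2 | r2 <;>
      rcases nn_false a e h7 with r3 | r3 <;> rw [r1, r2, r3] <;> assumption

end Pool.Agent.Work.MP_097698_nt
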