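import Pool.Agent.Work.MP_097698_nt.Forms
import Pool.Agent.Work.MP_097698_nt.Sel

namespace Pool.Agent.Work.MP_097698_nt

open Finset

/-- Increment form of a pair of columns with difference `(x, y, z)`. -/
def R3 (x y z m : ℤ) : Prop :=
  ∃ u v w : ℤ, u + v + w = 0 ∧ u ^ 2 + v ^ 2 + w ^ 2 + x * u + y * v + z * w = m

theorem R3_shift {x y z m : ℤ} (t : ℤ) (h : R3 x y z m) : R3 (x + t) (y + t) (z + t) m := by
  obtain ⟨u, v, w, h1, h2⟩ := h
  exact ⟨u, v, w, h1, by linear_combination h2 + t * h1⟩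

theorem R3_neg {x y z m : ℤ} (h : R3 x y z m) : R3 (-x) (-y) (-z) m := by
  obtain ⟨u, v, w, h1, h2⟩ := h
  exact ⟨-u, -v, -w, by linear_combination -h1, by linear_combination h2⟩

theorem R3_rot {x y z m : ℤ} (h : R3 x y z m) : R3 y z x m := by
  obtain ⟨u, v, w, h1, h2⟩ := h
  exact ⟨v, w, u, by linear_combination h1, by linear_combination h2⟩

theorem R3_zero (x y z : ℤ) : R3 x y z 0 := ⟨0, 0, 0, by norm_num, by norm_num⟩

/-- Normalisation: odd Loeschian numbers have a representation `LN X Y` with `X` odd, `Y` even. -/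
theorem odd_norm {m : ℤ} (h : Lo m) (hm : m % 2 = 1) :
    ∃ X Y : ℤ, LN X Y = m ∧ X % 2 = 1 ∧ Y % 2 = 0 := by
  obtain ⟨x, y, hxy⟩ := h
  have h2 : LN x y % 2 = 1 := by omega
  rw [LN_odd_iff] at h2
  rcases Int.emod_two_eq_zero_or_one x with hx | hx <;>
    rcases Int.emod_two_eq_zero_or_one y with hy | hy
  · exact absurd ⟨hx, hy⟩ h2
  · exact ⟨y, x, by rw [LN_comm]; exact hxy, hy, hx⟩
  · exact ⟨x, y, hxy, hx, hy⟩
  · exact ⟨-y, x + y, by rw [LN_rot]; exact hxy, by omega, by omega⟩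

theorem sign_norm {X Y : ℤ} (h : LN X Y % 3 = 1) :
    (X - Y) % 3 = 1 ∨ (-X - -Y) % 3 = 1 := by
  have := LN_mod3 X Y
  omega

theorem R3_100 {m : ℤ} (h : Lo (6 * m + 1)) : R3 1 0 0 m := by
  obtain ⟨X, Y, h1, h2, h3⟩ := odd_norm h (by omega)
  have h4 : LN X Y % 3 = 1 := by omega
  have key : ∀ X Y : ℤ, LN X Y = 6 * m + 1 → X % 2 = 1 → Y % 2 = 0 → (X - Y) % 3 = 1 → R3 1 0 0 m := by
    intro X Y h1 h2 h3 h4
    obtain ⟨b, hb⟩ : ∃ b, Y - X + 1 = 6 * b := ⟨(Y - X + 1) / 6, by omega⟩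
    obtain ⟨a, ha⟩ : ∃ a, X = 2 * a + 1 := ⟨X / 2, by omega⟩
    refine ⟨a + b, b, -a - 2 * b, by ring, ?_⟩
    have hY : Y = 6 * b + 2 * a := by linarith
    subst ha hY
    unfold LN at h1
    nlinarith
  rcases sign_norm h4 with h5 | h5
  · exact key X Y h1 h2 h3 h5
  · exact key (-X) (-Y) (by rw [LN_neg]; exact h1) (by omega) (by omega) h5

theorem R3_1n0 {m : ℤ} (h : Lo (2 * m + 1)) : R3 1 (-1) 0 m := by
  obtain ⟨X, Y, h1, h2, h3⟩ := odd_norm h (by omega)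
  obtain ⟨a, ha⟩ : ∃ a, X = 2 * a + 1 := ⟨X / 2, by omega⟩
  obtain ⟨b, hb⟩ : ∃ b, Y = 2 * b := ⟨Y / 2, by omega⟩
  refine ⟨a, -a - b, b, by ring, ?_⟩
  subst ha hb
  unfold LN at h1
  nlinarith

theorem R3_200 {n : ℤ} (h : Lo (3 * n + 1)) : R3 2 0 0 (2 * n) := by
  obtain ⟨X, Y, h1⟩ := h
  have h4 : LN X Y % 3 = 1 := by omega
  have key : ∀ X Y : ℤ, LN X Y = 3 * n + 1 → (X - Y) % 3 = 1 → R3 2 0 0 (2 * n) := by
    intro X Y h1 h4
    obtain ⟨b, hb⟩ : ∃ b, Y - X + 1 = 3 * b := ⟨(Y - X + 1) / 3, by omega⟩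
    refine ⟨X - 1 + b, b, -X + 1 - 2 * b, by ring, ?_⟩
    have hY : Y = 3 * b + X - 1 := by linarith
    subst hY
    unfold LN at h1
    nlinarith
  rcases sign_norm h4 with h5 | h5
  · exact key X Y h1 h5
  · exact key (-X) (-Y) (by rw [LN_neg]; exact h1) h5

/-- The zero triple: three equal columns. -/
theorem Z3 (k : ℕ) (hk : k % 3 ≠ 1) :
    ∃ a b c d : ℤ, LN a b + LN c d + LN (a + c) (b + d) = k := by
  obtain ⟨A1, A2, B1, B2, h⟩ := Rep2_nat k
  have pA := LN_mod3 A1 A2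
  have pB := LN_mod3 B1 B2
  have key : ∀ B1 B2 : ℤ, LN A1 A2 + LN B1 B2 = k → (A1 - A2 - (B1 - B2)) % 3 = 0 →
      ∃ a b c d : ℤ, LN a b + LN c d + LN (a + c) (b + d) = k := by
    intro B1 B2 h hd
    obtain ⟨t, ht⟩ : ∃ t, A1 - A2 - (B1 - B2) = 3 * t := ⟨(A1 - A2 - (B1 - B2)) / 3, by omega⟩
    set P := A2 - B2 with hP
    refine ⟨P + t, -P - 2 * t, B1 + t, B2 + P + t, ?_⟩
    rw [← h]
    have e1 : A1 = B1 + P + 3 * t := by rw [hP]; linarith
    have e2 : A2 = B2 + P := by rw [hP]; ring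
    rw [e1, e2]
    unfold LN; ring
  by_cases h0 : (A1 - A2 - (B1 - B2)) % 3 = 0
  · exact key B1 B2 h h0
  · refine key (-B1) (-B2) (by rw [LN_neg]; exact h) ?_
    have c1 : (A1 - A2) % 3 = 0 ∨ (A1 - A2) % 3 = 1 ∨ (A1 - A2) % 3 = 2 := by omega
    have c2 : (B1 - B2) % 3 = 0 ∨ (B1 - B2) % 3 = 1 ∨ (B1 - B2) % 3 = 2 := by omega
    rcases c1 with c1 | c1 | c1 <;> rcases c2 with c2 | c2 | c2 <;> omega

section Matrices

variable {ι κ : Type*} [Fintype ι] [Fintype κ]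

/-- The sum of squares can be raised by `2k` without changing row and column sums. -/
def IncR (a : ι → κ → ℤ) (k : ℤ) : Prop :=
  ∃ X : ι → κ → ℤ, (∀ i, ∑ j, X i j = 0) ∧ (∀ j, ∑ i, X i j = 0) ∧
    ∑ i, ∑ j, (X i j ^ 2 + 2 * a i j * X i j) = 2 * k

theorem IncR_extend {ι' κ' : Type*} [Fintype ι'] [Fintype κ'] (f : ι' → ι) (g : κ' → κ)
    (hf : Function.Injective f) (hg : Function.Injective g) (a : ι → κ → ℤ) (k : ℤ)
    (h : IncR (fun s t => a (f s) (g t)) k) : IncR a k := by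
  classical
  obtain ⟨Y, h1, h2, h3⟩ := h
  have hfg : Function.Injective (Prod.map f g) := hf.prodMap hg
  let X0 : ι × κ → ℤ := Function.extend (Prod.map f g) (fun p => Y p.1 p.2) 0
  have e1 : ∀ s t, X0 (f s, g t) = Y s t := fun s t => by
    have := hfg.extend_apply (fun p => Y p.1 p.2) 0 (s, t)
    simpa using this
  have e2 : ∀ i j, (¬ ∃ s, f s = i) → X0 (i, j) = 0 := fun i j hn => by
    have := Function.extend_apply' (fun p => Y p.1 p.2) (0 : ι × κ → ℤ) (i, j) (f := Prod.map f g) (by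
      rintro ⟨⟨s, t⟩, hst⟩
      exact hn ⟨s, (Prod.mk.inj hst).1⟩)
    simpa using this
  have e3 : ∀ i j, (¬ ∃ t, g t = j) → X0 (i, j) = 0 := fun i j hn => by
    have := Function.extend_apply' (fun p => Y p.1 p.2) (0 : ι × κ → ℤ) (i, j) (f := Prod.map f g) (by
      rintro ⟨⟨s, t⟩, hst⟩
      exact hn ⟨t, (Prod.mk.inj hst).2⟩)
    simpa using this
  refine ⟨fun i j => X0 (i, j), ?_, ?_, ?_⟩
  · intro i
    by_cases hi : ∃ s, f s = i
    · obtain ⟨s, rfl⟩ := hi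
      rw [← h1 s]
      exact (Fintype.sum_of_injective g hg (fun t => Y s t) (fun j => X0 (f s, j))
        (fun j hj => e3 _ _ hj) (fun t => (e1 s t).symm)).symm
    · exact Finset.sum_eq_zero fun j _ => e2 i j hi
  · intro j
    by_cases hj : ∃ t, g t = j
    · obtain ⟨t, rfl⟩ := hj
      rw [← h2 t]
      exact (Fintype.sum_of_injective f hf (fun s => Y s t) (fun i => X0 (i, g t))
        (fun i hi => e2 _ _ hi) (fun s => (e1 s t).symm)).symm
    · exact Finset.sum_eq_zero fun i _ => e3 i j hj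
  · rw [← h3]
    rw [← Fintype.sum_prod_type' (fun i j => X0 (i, j) ^ 2 + 2 * a i j * X0 (i, j)),
      ← Fintype.sum_prod_type' (fun s t => Y s t ^ 2 + 2 * a (f s) (g t) * Y s t)]
    refine (Fintype.sum_of_injective (Prod.map f g) hfg _ _ ?_ ?_).symm
    · rintro ⟨i, j⟩ hij
      have : X0 (i, j) = 0 := by
        have := Function.extend_apply' (fun p => Y p.1 p.2) (0 : ι × κ → ℤ) (i, j)
          (f := Prod.map f g) hij
        simpa using this
      simp [this]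
    · rintro ⟨s, t⟩
      simp [e1]

/-- Composition with a first move which does not change the sum of squares. -/
theorem IncR_switch {a X : ι → κ → ℤ} {k : ℤ} (h1 : ∀ i, ∑ j, X i j = 0)
    (h2 : ∀ j, ∑ i, X i j = 0) (h3 : ∑ i, ∑ j, (X i j ^ 2 + 2 * a i j * X i j) = 0)
    (h : IncR (fun i j => a i j + X i j) k) : IncR a k := by
  obtain ⟨Y, g1, g2, g3⟩ := h
  refine ⟨fun i j => X i j + Y i j, fun i => ?_, fun j => ?_, ?_⟩
  · rw [Finset.sum_add_distrib, h1, g1, add_zero]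
  · rw [Finset.sum_add_distrib, h2, g2, add_zero]
  · have e : ∑ i, ∑ j, ((X i j + Y i j) ^ 2 + 2 * a i j * (X i j + Y i j))
        = ∑ i, ∑ j, (X i j ^ 2 + 2 * a i j * X i j)
          + ∑ i, ∑ j, (Y i j ^ 2 + 2 * (a i j + X i j) * Y i j) := by
      rw [← Finset.sum_add_distrib]
      refine Finset.sum_congr rfl fun i _ => ?_
      rw [← Finset.sum_add_distrib]
      refine Finset.sum_congr rfl fun j _ => ?_
      ring
    rw [e, h3, zero_add]
    exact g3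

end Matrices

/-- Two disjoint pairs of columns. -/
theorem Inc_pairs (a : Fin 3 → Fin 5 → ℤ) {m n : ℤ}
    (h1 : R3 (a 0 0 - a 0 1) (a 1 0 - a 1 1) (a 2 0 - a 2 1) m)
    (h2 : R3 (a 0 2 - a 0 3) (a 1 2 - a 1 3) (a 2 2 - a 2 3) n) : IncR a (m + n) := by
  obtain ⟨u, v, w, e1, e2⟩ := h1
  obtain ⟨u', v', w', e1', e2'⟩ := h2
  refine ⟨![![u, -u, u', -u', 0], ![v, -v, v', -v', 0], ![w, -w, w', -w', 0]], ?_, ?_, ?_⟩
  · intro i; fin_cases i <;> simp [Fin.sum_univ_succ]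
  · intro j; fin_cases j <;> simp [Fin.sum_univ_succ] <;> linarith
  · simp only [Fin.sum_univ_succ, Fin.sum_univ_zero, Matrix.cons_val_zero, Matrix.cons_val_succ,
      Fin.succ_zero_eq_one]
    simp
    rw [← e2, ← e2']
    ring

/-- A pair of columns and a triple of equal columns. -/
theorem Inc_triple (a : Fin 3 → Fin 5 → ℤ) {m n : ℤ}
    (h1 : R3 (a 0 0 - a 0 1) (a 1 0 - a 1 1) (a 2 0 - a 2 1) m)
    (h2 : a 0 2 - a 0 3 = a 1 2 - a 1 3) (h3 : a 1 2 - a 1 3 = a 2 2 - a 2 3)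
    (h4 : a 0 3 - a 0 4 = a 1 3 - a 1 4) (h5 : a 1 3 - a 1 4 = a 2 3 - a 2 4)
    (h6 : ∃ a b c d : ℤ, LN a b + LN c d + LN (a + c) (b + d) = n) : IncR a (m + n) := by
  obtain ⟨u, v, w, e1, e2⟩ := h1
  obtain ⟨x, y, z, t, e3⟩ := h6
  -- columns u_j = (α¹, -α¹-α², α²)
  refine ⟨![![u, -u, x, z, -x - z], ![v, -v, -x - y, -z - t, x + y + z + t],
    ![w, -w, y, t, -y - t]], ?_, ?_, ?_⟩
  · intro i; fin_cases i <;> simp [Fin.sum_univ_succ]
  · intro j; fin_cases j <;> simp [Fin.sum_univ_succ] <;> linarith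
  · simp only [Fin.sum_univ_succ, Fin.sum_univ_zero, Matrix.cons_val_zero, Matrix.cons_val_succ,
      Fin.succ_zero_eq_one]
    simp
    rw [← e2, ← e3]
    unfold LN
    linear_combination (2 * x) * h2 - (2 * y) * h3 + 2 * (x + z) * h4 - 2 * (y + t) * h5

end Pool.Agent.Work.MP_097698_nt
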