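import Pool.Agent.Work.MP_097698_nt.Core2

namespace Pool.Agent.Work.MP_097698_nt

open Finset

section

variable {ι κ : Type*} [Fintype ι] [Fintype κ]

/-- The normalised quadratic form `p q Σ a² - q Σ_j c_j² - p Σ_i r_i² + s²`. -/
def V (a : ι → κ → ℤ) : ℤ :=
  (Fintype.card ι * Fintype.card κ : ℤ) * ∑ i, ∑ j, a i j ^ 2
    - (Fintype.card κ : ℤ) * ∑ j, (∑ i, a i j) ^ 2
    - (Fintype.card ι : ℤ) * ∑ i, (∑ j, a i j) ^ 2
    + (∑ i, ∑ j, a i j) ^ 2

theorem var_sum (d : κ → ℤ) :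
    ∑ j, ∑ j', (d j - d j') ^ 2 = 2 * ((Fintype.card κ : ℤ) * ∑ j, d j ^ 2 - (∑ j, d j) ^ 2) := by
  have h : ∀ j, ∑ j', (d j - d j') ^ 2
      = (Fintype.card κ : ℤ) * d j ^ 2 - 2 * d j * (∑ j', d j') + ∑ j', d j' ^ 2 := fun j => by
    have : ∀ j', (d j - d j') ^ 2 = d j ^ 2 - 2 * d j * d j' + d j' ^ 2 := fun j' => by ring
    simp only [this, Finset.sum_add_distrib, Finset.sum_sub_distrib, Finset.sum_const,
      Finset.card_univ, nsmul_eq_mul, ← Finset.mul_sum]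
  simp only [h, Finset.sum_add_distrib, Finset.sum_sub_distrib, Finset.sum_const,
      Finset.card_univ, nsmul_eq_mul, ← Finset.mul_sum]
  have h2 : ∑ j, 2 * d j * ∑ j', d j' = 2 * (∑ j, d j) ^ 2 := by
    rw [← Finset.sum_mul, ← Finset.mul_sum]; ring
  rw [h2]; ring

theorem four_V (a : ι → κ → ℤ) :
    4 * V a = ∑ i, ∑ i', ∑ j, ∑ j', (a i j - a i j' - a i' j + a i' j') ^ 2 := by
  have e : ∀ i i', ∑ j, ∑ j', (a i j - a i j' - a i' j + a i' j') ^ 2
      = 2 * ((Fintype.card κ : ℤ) * ∑ j, (a i j - a i' j) ^ 2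
        - (∑ j, a i j - ∑ j, a i' j) ^ 2) := by
    intro i i'
    rw [← Finset.sum_sub_distrib, ← var_sum (fun j => a i j - a i' j)]
    refine Finset.sum_congr rfl fun j _ => Finset.sum_congr rfl fun j' _ => ?_
    ring
  have h1 : ∑ i, ∑ i', ∑ j, (a i j - a i' j) ^ 2 = ∑ j, ∑ i, ∑ i', (a i j - a i' j) ^ 2 := by
    calc ∑ i, ∑ i', ∑ j, (a i j - a i' j) ^ 2 = ∑ i, ∑ j, ∑ i', (a i j - a i' j) ^ 2 :=
          Finset.sum_congr rfl fun i _ => Finset.sum_comm
      _ = _ := Finset.sum_comm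
  have h2 : ∀ j, ∑ i, ∑ i', (a i j - a i' j) ^ 2
      = 2 * ((Fintype.card ι : ℤ) * ∑ i, a i j ^ 2 - (∑ i, a i j) ^ 2) := fun j =>
    var_sum (fun i => a i j)
  have h3 : ∑ i, ∑ i', (∑ j, a i j - ∑ j, a i' j) ^ 2
      = 2 * ((Fintype.card ι : ℤ) * ∑ i, (∑ j, a i j) ^ 2 - (∑ i, ∑ j, a i j) ^ 2) :=
    var_sum (fun i => ∑ j, a i j)
  have h4 : ∑ j, ∑ i, a i j ^ 2 = ∑ i, ∑ j, a i j ^ 2 := Finset.sum_comm
  simp only [e, ← Finset.mul_sum, Finset.sum_sub_distrib]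
  simp only [← Finset.mul_sum, h1, h3]
  simp only [h2, ← Finset.mul_sum, Finset.sum_sub_distrib, h4]
  unfold V
  ring

theorem V_nonneg (a : ι → κ → ℤ) : 0 ≤ V a := by
  have h := four_V a
  have : 0 ≤ ∑ i, ∑ i', ∑ j, ∑ j', (a i j - a i j' - a i' j + a i' j') ^ 2 :=
    Finset.sum_nonneg fun i _ => Finset.sum_nonneg fun i' _ => Finset.sum_nonneg fun j _ =>
      Finset.sum_nonneg fun j' _ => sq_nonneg _
  linarith

theorem V_shift (a : ι → κ → ℤ) (x : ι → ℤ) (y : κ → ℤ) :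
    V (fun i j => a i j - x i - y j) = V a := by
  have h1 := four_V a
  have h2 := four_V (fun i j => a i j - x i - y j)
  have : ∑ i, ∑ i', ∑ j, ∑ j', ((a i j - x i - y j) - (a i j' - x i - y j') - (a i' j - x i' - y j)
      + (a i' j' - x i' - y j')) ^ 2 = ∑ i, ∑ i', ∑ j, ∑ j', (a i j - a i j' - a i' j + a i' j') ^ 2 := by
    refine Finset.sum_congr rfl fun i _ => Finset.sum_congr rfl fun i' _ =>
      Finset.sum_congr rfl fun j _ => Finset.sum_congr rfl fun j' _ => ?_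
    ring
  beta_reduce at h2
  linarith

theorem V_eq_zero {a : ι → κ → ℤ} (h : V a = 0) (i i' : ι) (j j' : κ) :
    a i j - a i j' - a i' j + a i' j' = 0 := by
  have h1 := four_V a
  rw [h, mul_zero] at h1
  have h2 := (Finset.sum_eq_zero_iff_of_nonneg (fun i _ => Finset.sum_nonneg fun i' _ =>
    Finset.sum_nonneg fun j _ => Finset.sum_nonneg fun j' _ =>
      sq_nonneg (a i j - a i j' - a i' j + a i' j'))).1 h1.symm i (mem_univ _)
  have h3 := (Finset.sum_eq_zero_iff_of_nonneg (fun i' _ =>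
    Finset.sum_nonneg fun j _ => Finset.sum_nonneg fun j' _ =>
      sq_nonneg (a i j - a i j' - a i' j + a i' j'))).1 h2 i' (mem_univ _)
  have h4 := (Finset.sum_eq_zero_iff_of_nonneg (fun j _ => Finset.sum_nonneg fun j' _ =>
      sq_nonneg (a i j - a i j' - a i' j + a i' j'))).1 h3 j (mem_univ _)
  have h5 := (Finset.sum_eq_zero_iff_of_nonneg (fun j' _ =>
      sq_nonneg (a i j - a i j' - a i' j + a i' j'))).1 h4 j' (mem_univ _)
  exact pow_eq_zero_iff (two_ne_zero) |>.1 h5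

theorem V_ne_zero {a : ι → κ → ℤ} (h : V a ≠ 0) :
    ∃ i i' j j', a i j - a i j' ≠ a i' j - a i' j' := by
  by_contra hcon
  push Not at hcon
  apply h
  have h1 := four_V a
  have : ∑ i, ∑ i', ∑ j, ∑ j', (a i j - a i j' - a i' j + a i' j') ^ 2 = 0 := by
    refine Finset.sum_eq_zero fun i _ => Finset.sum_eq_zero fun i' _ =>
      Finset.sum_eq_zero fun j _ => Finset.sum_eq_zero fun j' _ => ?_
    have := hcon i i' j j'
    have : a i j - a i j' - a i' j + a i' j' = 0 := by linarith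
    rw [this]; ring
  linarith

/-- Same margins: the difference of `V` comes from the sums of squares. -/
theorem V_same_margins {a b : ι → κ → ℤ} (hr : ∀ i, ∑ j, a i j = ∑ j, b i j)
    (hc : ∀ j, ∑ i, a i j = ∑ i, b i j) :
    V a = V b + (Fintype.card ι * Fintype.card κ : ℤ) *
      (∑ i, ∑ j, a i j ^ 2 - ∑ i, ∑ j, b i j ^ 2) := by
  unfold V
  simp only [hr, hc]
  ring

/-- For `k ≠ 1` there is a zero-margin matrix with sum of squares `2k`. -/
theorem IncR_zero (hι : 3 ≤ Fintype.card ι) (hκ : 5 ≤ Fintype.card κ) (k : ℕ) (hk : k ≠ 1) :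
    IncR (fun (_ : ι) (_ : κ) => (0 : ℤ)) k := by
  classical
  obtain ⟨f⟩ : Nonempty (Fin 3 ↪ ι) := Function.Embedding.nonempty_of_card_le (by simpa using hι)
  obtain ⟨g⟩ : Nonempty (Fin 5 ↪ κ) := Function.Embedding.nonempty_of_card_le (by simpa using hκ)
  apply IncR_extend f g f.injective g.injective
  by_cases h : k % 3 = 1
  · have e : (k : ℤ) = 2 + ((k - 2 : ℕ) : ℤ) := by omega
    rw [e]
    refine Inc_triple _ ⟨1, -1, 0, by norm_num, by norm_num⟩ ?_ ?_ ?_ ?_ (Z3 (k - 2) (by omega)) <;> simp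
  · have e : (k : ℤ) = 0 + (k : ℤ) := by ring
    rw [e]
    refine Inc_triple _ (R3_zero _ _ _) ?_ ?_ ?_ ?_ (Z3 k h) <;> simp

/-- An injection of `Fin n` with prescribed values at `0` and `1`. -/
theorem exists_inj {α : Type*} [Fintype α] {n : ℕ} (hn : n + 2 ≤ Fintype.card α) {x y : α}
    (hxy : x ≠ y) : ∃ f : Fin (n + 2) → α, Function.Injective f ∧ f 0 = x ∧ f 1 = y := by
  classical
  obtain ⟨e⟩ : Nonempty (Fin (n + 2) ↪ α) :=
    Function.Embedding.nonempty_of_card_le (by simpa using hn)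
  let τ := Equiv.swap (e 0) x
  have h0 : τ (e 0) = x := Equiv.swap_apply_left _ _
  have h1 : τ (e 1) ≠ x := by
    rw [← h0]
    intro h
    have := e.injective (τ.injective h)
    exact absurd this (by simp)
  let σ := Equiv.swap (τ (e 1)) y
  refine ⟨fun t => σ (τ (e t)), ?_, ?_, ?_⟩
  · exact σ.injective.comp (τ.injective.comp e.injective)
  · show σ (τ (e 0)) = x
    rw [h0]
    exact Equiv.swap_apply_of_ne_of_ne h1.symm hxy
  · exact Equiv.swap_apply_left _ _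

theorem IncR_main (hι : 3 ≤ Fintype.card ι) (hκ : 5 ≤ Fintype.card κ) (a : ι → κ → ℤ)
    (h01 : ∀ i j, a i j = 0 ∨ a i j = 1) (hV : V a ≠ 0) (k : ℕ) : IncR a k := by
  obtain ⟨i, i', j, j', h⟩ := V_ne_zero hV
  have hi : i ≠ i' := by rintro rfl; exact h rfl
  have hj : j ≠ j' := by rintro rfl; exact h (by ring)
  obtain ⟨f, hf, f0, f1⟩ := exists_inj (n := 1) hι hi
  obtain ⟨g, hg, g0, g1⟩ := exists_inj (n := 3) hκ hj
  apply IncR_extend f g hf hg
  refine Inc35 _ (fun s t => h01 _ _) ⟨0, 1, Or.inl ?_⟩ k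
  show a (f 0) (g 0) - a (f 0) (g 1) ≠ a (f 1) (g 0) - a (f 1) (g 1)
  rw [f0, f1, g0, g1]
  exact h

/-- A zero-margin integer matrix does not have sum of squares two. -/
theorem no_two (X : ι → κ → ℤ) (hr : ∀ i, ∑ j, X i j = 0) (hc : ∀ j, ∑ i, X i j = 0) :
    ∑ i, ∑ j, X i j ^ 2 ≠ 2 := by
  classical
  intro h
  have hne : ∃ i j, X i j ≠ 0 := by
    by_contra hcon
    push Not at hcon
    simp [hcon] at h
  obtain ⟨i, j, hij⟩ := hne
  -- another nonzero entry in the column j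
  obtain ⟨i', hi', hi'j⟩ : ∃ i', i' ≠ i ∧ X i' j ≠ 0 := by
    by_contra hcon
    push Not at hcon
    have := hc j
    rw [Finset.sum_eq_single i (fun b _ hb => hcon b hb) (by simp)] at this
    exact hij this
  obtain ⟨j1, hj1, h1⟩ : ∃ j1, j1 ≠ j ∧ X i j1 ≠ 0 := by
    by_contra hcon
    push Not at hcon
    have := hr i
    rw [Finset.sum_eq_single j (fun b _ hb => hcon b hb) (by simp)] at this
    exact hij this
  obtain ⟨j2, hj2, h2⟩ : ∃ j2, j2 ≠ j ∧ X i' j2 ≠ 0 := by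
    by_contra hcon
    push Not at hcon
    have := hr i'
    rw [Finset.sum_eq_single j (fun b _ hb => hcon b hb) (by simp)] at this
    exact hi'j this
  have row : ∀ (i : ι) (j j1 : κ), j1 ≠ j → X i j ≠ 0 → X i j1 ≠ 0 → 2 ≤ ∑ t, X i t ^ 2 := by
    intro i j j1 hne h1 h2
    have : ∑ t ∈ {j, j1}, X i t ^ 2 ≤ ∑ t, X i t ^ 2 :=
      Finset.sum_le_sum_of_subset_of_nonneg (Finset.subset_univ _) fun _ _ _ => sq_nonneg _
    rw [Finset.sum_pair hne.symm] at this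
    have e1 : 0 < X i j ^ 2 := by positivity
    have e2 : 0 < X i j1 ^ 2 := by positivity
    linarith
  have : ∑ s ∈ {i, i'}, ∑ t, X s t ^ 2 ≤ ∑ s, ∑ t, X s t ^ 2 :=
    Finset.sum_le_sum_of_subset_of_nonneg (Finset.subset_univ _) fun _ _ _ =>
      Finset.sum_nonneg fun _ _ => sq_nonneg _
  rw [Finset.sum_pair hi'.symm] at this
  have r1 := row i j j1 hj1 hij h1
  have r2 := row i' j j2 hj2 hi'j h2
  linarith

end

end Pool.Agent.Work.MP_097698_nt
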