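import Pool.Agent.Work.MP_097698_nt.HallL

namespace Pool.Agent.Work.MP_097698_nt

open Finset

section

variable {ι κ : Type*} [Fintype ι] [Fintype κ]

/-- The Gale–Ryser condition for row sums `r` and column sums `c` of a 0-1 matrix. -/
def GR (r : ι → ℕ) (c : κ → ℕ) : Prop :=
  ∑ i, r i = ∑ j, c j ∧ ∀ I : Finset ι, ∑ i ∈ I, r i ≤ ∑ j, min (c j) (#I)

/-- `p q s - q Σ c_j² - p Σ r_i² + s²`. -/
def Wrc (r : ι → ℕ) (c : κ → ℕ) : ℤ :=
  (Fintype.card ι * Fintype.card κ : ℤ) * ∑ i, (r i : ℤ)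
    - (Fintype.card κ : ℤ) * ∑ j, (c j : ℤ) ^ 2
    - (Fintype.card ι : ℤ) * ∑ i, (r i : ℤ) ^ 2
    + (∑ i, (r i : ℤ)) ^ 2

theorem V_01 {b : ι → κ → ℤ} (h01 : ∀ i j, b i j = 0 ∨ b i j = 1) (r : ι → ℕ) (c : κ → ℕ)
    (hr : ∀ i, ∑ j, b i j = r i) (hc : ∀ j, ∑ i, b i j = c j) : V b = Wrc r c := by
  have h2 : ∀ i j, b i j ^ 2 = b i j := fun i j => by
    rcases h01 i j with h | h <;> rw [h] <;> norm_num
  unfold V Wrc
  simp only [h2, hr, hc]

theorem GR_of_01 {b : ι → κ → ℤ} (h01 : ∀ i j, b i j = 0 ∨ b i j = 1) (r : ι → ℕ) (c : κ → ℕ)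
    (hr : ∀ i, ∑ j, b i j = r i) (hc : ∀ j, ∑ i, b i j = c j) : GR r c := by
  constructor
  · have h : ((∑ i, r i : ℕ) : ℤ) = ((∑ j, c j : ℕ) : ℤ) := by
      push_cast
      simp only [← hr, ← hc]
      exact Finset.sum_comm
    exact_mod_cast h
  · intro I
    have h : ((∑ i ∈ I, r i : ℕ) : ℤ) ≤ ((∑ j, min (c j) (#I) : ℕ) : ℤ) := by
      push_cast
      simp only [← hr]
      rw [Finset.sum_comm]
      refine Finset.sum_le_sum fun j _ => ?_
      refine le_min ?_ ?_
      · rw [← hc j]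
        refine Finset.sum_le_sum_of_subset_of_nonneg (Finset.subset_univ _) fun i _ _ => ?_
        rcases h01 i j with h | h <;> rw [h]; norm_num
      · calc ∑ i ∈ I, b i j ≤ ∑ i ∈ I, (1 : ℤ) := Finset.sum_le_sum fun i _ => by
              rcases h01 i j with h | h <;> rw [h]; norm_num
          _ = (#I : ℤ) := by simp
    exact_mod_cast h

theorem exists_01_of_GR (r : ι → ℕ) (c : κ → ℕ) (h : GR r c) :
    ∃ b : ι → κ → ℤ, (∀ i j, b i j = 0 ∨ b i j = 1) ∧ (∀ i, ∑ j, b i j = r i) ∧
      (∀ j, ∑ i, b i j = c j) := by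
  classical
  obtain ⟨h1, h2⟩ := h
  refine exists_01 (fun i => (r i : ℤ)) (fun j => (c j : ℤ)) (by exact_mod_cast h1) ?_
  intro I J
  have h3 := h2 I
  have h4 : ∑ j, min (c j) (#I) ≤ ∑ j ∈ J, c j + ∑ j ∈ Jᶜ, #I := by
    rw [← Finset.sum_add_sum_compl J]
    exact add_le_add (Finset.sum_le_sum fun j _ => min_le_left _ _)
      (Finset.sum_le_sum fun j _ => min_le_right _ _)
  rw [Finset.sum_const, card_compl, smul_eq_mul] at h4
  have h5 : #J ≤ Fintype.card κ := card_le_univ J
  have h6 : ((∑ i ∈ I, r i : ℕ) : ℤ) ≤ ((∑ j ∈ J, c j + (Fintype.card κ - #J) * #I : ℕ) : ℤ) := by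
    exact_mod_cast h3.trans h4
  push_cast [Nat.cast_sub h5] at h6
  linarith

/-- The values of `V` on integer matrices. -/
theorem values_V (hι : 3 ≤ Fintype.card ι) (hκ : 5 ≤ Fintype.card κ) (v : ℤ) :
    (∃ a : ι → κ → ℤ, V a = v) ↔
      ∃ (r : ι → ℕ) (c : κ → ℕ) (k : ℕ), GR r c ∧ (Wrc r c ≠ 0 ∨ k ≠ 1) ∧
        v = Wrc r c + 2 * (Fintype.card ι * Fintype.card κ : ℤ) * k := by
  constructor
  · rintro ⟨a, rfl⟩
    obtain ⟨x, y, b, h01, hr, hc⟩ := exists_shift_01 a
    set a' : ι → κ → ℤ := fun i j => a i j - x i - y j with ha'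
    have hV : V a' = V a := V_shift a x y
    have hr0 : ∀ i, 0 ≤ ∑ j, b i j := fun i => Finset.sum_nonneg fun j _ => by
      rcases h01 i j with h | h <;> rw [h]; norm_num
    have hc0 : ∀ j, 0 ≤ ∑ i, b i j := fun j => Finset.sum_nonneg fun i _ => by
      rcases h01 i j with h | h <;> rw [h]; norm_num
    have hr' : ∀ i, ∑ j, b i j = ((∑ j, b i j).toNat : ℤ) := fun i => (Int.toNat_of_nonneg (hr0 i)).symm
    have hc' : ∀ j, ∑ i, b i j = ((∑ i, b i j).toNat : ℤ) := fun j => (Int.toNat_of_nonneg (hc0 j)).symm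
    have hVb := V_01 h01 _ _ hr' hc'
    have hGR := GR_of_01 h01 _ _ hr' hc'
    have hsame := V_same_margins (a := a') (b := b) hr hc
    have hb2 : ∑ i, ∑ j, b i j ^ 2 = ∑ i, ∑ j, b i j := by
      refine Finset.sum_congr rfl fun i _ => Finset.sum_congr rfl fun j _ => ?_
      rcases h01 i j with h | h <;> rw [h] <;> norm_num
    have hsum : ∑ i, ∑ j, a' i j = ∑ i, ∑ j, b i j := Finset.sum_congr rfl fun i _ => hr i
    -- the difference of the sums of squares is nonnegative and even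
    have hdiff : ∑ i, ∑ j, a' i j ^ 2 - ∑ i, ∑ j, b i j ^ 2 = ∑ i, ∑ j, a' i j * (a' i j - 1) := by
      rw [hb2, ← hsum, ← Finset.sum_sub_distrib]
      refine Finset.sum_congr rfl fun i _ => ?_
      rw [← Finset.sum_sub_distrib]
      refine Finset.sum_congr rfl fun j _ => ?_
      ring
    have hdvd : (2 : ℤ) ∣ ∑ i, ∑ j, a' i j * (a' i j - 1) :=
      Finset.dvd_sum fun i _ => Finset.dvd_sum fun j _ => by
        have := Int.even_mul_pred_self (a' i j)
        exact this.two_dvd
    have hnn : 0 ≤ ∑ i, ∑ j, a' i j * (a' i j - 1) :=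
      Finset.sum_nonneg fun i _ => Finset.sum_nonneg fun j _ => by
        set w := a' i j
        rcases le_or_gt w 0 with h | h
        · nlinarith
        · nlinarith
    obtain ⟨k, hk⟩ := hdvd
    have hk0 : 0 ≤ k := by linarith
    refine ⟨_, _, k.toNat, hGR, ?_, ?_⟩
    · by_contra hcon
      push Not at hcon
      obtain ⟨hW, hk1⟩ := hcon
      have hk1' : k = 1 := by omega
      rw [← hVb] at hW
      -- a' - b has zero margins and sum of squares two
      have hX := no_two (fun i j => a' i j - b i j)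
        (fun i => by rw [Finset.sum_sub_distrib, hr i, sub_self])
        (fun j => by rw [Finset.sum_sub_distrib, hc j, sub_self])
      apply hX
      have hzero : ∑ i, ∑ j, (a' i j - b i j) * b i j = 0 := by
        -- b is additive
        rcases isEmpty_or_nonempty ι with hι' | ⟨⟨i0⟩⟩
        · simp
        rcases isEmpty_or_nonempty κ with hκ' | ⟨⟨j0⟩⟩
        · simp
        have hb : ∀ i j, b i j = b i j0 + (b i0 j - b i0 j0) := fun i j => by
          have := V_eq_zero hW i i0 j j0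
          linarith
        have : ∀ i j, (a' i j - b i j) * b i j
            = (a' i j - b i j) * b i j0 + (a' i j - b i j) * (b i0 j - b i0 j0) := fun i j => by
          linear_combination (a' i j - b i j) * hb i j
        simp only [this, Finset.sum_add_distrib]
        have e1 : ∑ i, ∑ j, (a' i j - b i j) * b i j0 = 0 := by
          refine Finset.sum_eq_zero fun i _ => ?_
          rw [← Finset.sum_mul, Finset.sum_sub_distrib, hr i, sub_self, zero_mul]
        have e2 : ∑ i, ∑ j, (a' i j - b i j) * (b i0 j - b i0 j0) = 0 := by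
          rw [Finset.sum_comm]
          refine Finset.sum_eq_zero fun j _ => ?_
          rw [← Finset.sum_mul, Finset.sum_sub_distrib, hc j, sub_self, zero_mul]
        rw [e1, e2, add_zero]
      have e : ∑ i, ∑ j, (a' i j - b i j) ^ 2
          = (∑ i, ∑ j, a' i j ^ 2 - ∑ i, ∑ j, b i j ^ 2) - 2 * ∑ i, ∑ j, (a' i j - b i j) * b i j := by
        rw [Finset.mul_sum, ← Finset.sum_sub_distrib, ← Finset.sum_sub_distrib]
        refine Finset.sum_congr rfl fun i _ => ?_
        rw [Finset.mul_sum, ← Finset.sum_sub_distrib, ← Finset.sum_sub_distrib]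
        refine Finset.sum_congr rfl fun j _ => ?_
        ring
      rw [e, hzero, hdiff, hk, hk1']
      norm_num
    · rw [← hV, hsame, hdiff, hk, hVb, Int.toNat_of_nonneg hk0]
      ring
  · rintro ⟨r, c, k, hGR, hor, rfl⟩
    obtain ⟨b, h01, hr, hc⟩ := exists_01_of_GR r c hGR
    have hVb := V_01 h01 _ _ hr hc
    by_cases hW : Wrc r c = 0
    · have hk : k ≠ 1 := by
        rcases hor with h | h
        · exact absurd hW h
        · exact h
      obtain ⟨X, h1, h2, h3⟩ := IncR_zero (ι := ι) (κ := κ) hι hκ k hk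
      refine ⟨X, ?_⟩
      rw [hW]
      unfold V
      have h4 : ∑ i, ∑ j, X i j ^ 2 = 2 * k := by
        rw [← h3]
        refine Finset.sum_congr rfl fun i _ => Finset.sum_congr rfl fun j _ => ?_
        ring
      simp only [h1, h2, h4]
      simp
      ring
    · rw [← hVb] at hW
      obtain ⟨X, h1, h2, h3⟩ := IncR_main hι hκ b h01 hW k
      refine ⟨fun i j => b i j + X i j, ?_⟩
      rw [V_same_margins (b := b) (fun i => by rw [Finset.sum_add_distrib, h1, add_zero])
        (fun j => by rw [Finset.sum_add_distrib, h2, add_zero]), hVb]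
      have h4 : ∑ i, ∑ j, (b i j + X i j) ^ 2 - ∑ i, ∑ j, b i j ^ 2 = 2 * k := by
        rw [← h3, ← Finset.sum_sub_distrib]
        refine Finset.sum_congr rfl fun i _ => ?_
        rw [← Finset.sum_sub_distrib]
        refine Finset.sum_congr rfl fun j _ => ?_
        ring
      rw [h4]
      ring

end

end Pool.Agent.Work.MP_097698_nt
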