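import Pool.Agent.Work.MP_097698_nt.Cof
import Pool.Agent.Work.MP_097698_nt.Forms

namespace Pool.Agent.Work.MP_097698_nt

open Finset

theorem Q_prime {p : ℕ} (hp : p.Prime) (α : Fin p → ℤ) :
    Q p α = p * ∑ i, α i ^ 2 - (∑ i, α i) ^ 2 := by
  unfold Q
  have h : ∀ x y : Fin p, α x * α y * ram ((x : ℤ) - y) p
      = (if x = y then (p : ℤ) * α x ^ 2 else 0) - α x * α y := by
    intro x y
    rw [ram_prime hp]
    have hd : ((p : ℤ) ∣ (x : ℤ) - y) ↔ x = y := by
      constructor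
      · intro hh
        have h3 : |(x : ℤ) - y| < p := by
          have := x.2; have := y.2
          rw [abs_lt]; constructor <;> omega
        have h4 := Int.eq_zero_of_abs_lt_dvd hh h3
        exact Fin.ext (by omega)
      · rintro rfl; simp
    simp only [hd]
    by_cases hxy : x = y
    · subst hxy; simp only [if_true]; ring
    · simp only [if_neg hxy]; ring
  simp only [h, Finset.sum_sub_distrib]
  congr 1
  · rw [Finset.mul_sum]
    refine Finset.sum_congr rfl fun x _ => ?_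
    rw [Finset.sum_ite_eq]
    simp
  · rw [pow_two, Finset.sum_mul_sum]

theorem isVal_p_iff {p : ℕ} (hp : p.Prime) (v : ℤ) :
    IsVal p v ↔ ∃ a : Fin p → ℤ, p * ∑ i, a i ^ 2 - (∑ i, a i) ^ 2 = v := by
  rw [isVal_iff_Q hp.pos]
  simp only [Q_prime hp]

theorem row_update {p : ℕ} (a : Fin p → ℤ) (i j k l : Fin p) (hij : i ≠ j) (hik : i ≠ k)
    (hil : i ≠ l) (hjk : j ≠ k) (hjl : j ≠ l) (hkl : k ≠ l) (h1 : a i = a j) (h2 : a k = a l)
    (x y : ℤ) : ∃ b : Fin p → ℤ, ∑ i, b i = ∑ i, a i ∧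
      ∑ i, b i ^ 2 = ∑ i, a i ^ 2 + 2 * x ^ 2 + 2 * y ^ 2 := by
  let d : Fin p → ℤ := Pi.single i x - Pi.single j x + (Pi.single k y - Pi.single l y)
  have hs : ∀ (f : Fin p → ℤ), ∑ t, f t * d t = x * (f i - f j) + y * (f k - f l) := by
    intro f
    have : ∀ t, f t * d t = (f t * (Pi.single i x : Fin p → ℤ) t - f t * (Pi.single j x : Fin p → ℤ) t)
        + (f t * (Pi.single k y : Fin p → ℤ) t - f t * (Pi.single l y : Fin p → ℤ) t) := by
      intro t
      simp only [d, Pi.add_apply, Pi.sub_apply]; ring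
    simp only [this, Finset.sum_add_distrib, Finset.sum_sub_distrib]
    have h3 : ∀ (u : Fin p) (c : ℤ), ∑ t, f t * (Pi.single u c : Fin p → ℤ) t = f u * c := by
      intro u c
      rw [Finset.sum_eq_single u]
      · rw [Pi.single_eq_same]
      · intro t _ ht
        rw [Pi.single_eq_of_ne ht, mul_zero]
      · simp
    rw [h3, h3, h3, h3]; ring
  have hd1 : ∑ t, d t = 0 := by
    have := hs (fun _ => 1)
    simpa using this
  have hdi : d i = x := by simp [d, Pi.single_apply, hij, hik, hil]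
  have hdj : d j = -x := by simp [d, Pi.single_apply, hij.symm, hjk, hjl]
  have hdk : d k = y := by simp [d, Pi.single_apply, hik.symm, hjk.symm, hkl]
  have hdl : d l = -y := by simp [d, Pi.single_apply, hil.symm, hjl.symm, hkl.symm]
  refine ⟨a + d, ?_, ?_⟩
  · simp only [Pi.add_apply, Finset.sum_add_distrib, hd1, add_zero]
  · have e : ∀ t, (a + d) t ^ 2 = a t ^ 2 + 2 * (a t * d t) + d t * d t := by
      intro t; simp only [Pi.add_apply]; ring
    simp only [e, Finset.sum_add_distrib, ← Finset.mul_sum]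
    rw [hs a, hs d, hdi, hdj, hdk, hdl, h1, h2]
    ring

theorem row_exists {p : ℕ} (hp : 5 ≤ p) (s : ℕ) (hs : s ≤ p) (x y : ℤ) :
    ∃ b : Fin p → ℤ, ∑ i, b i = s ∧ ∑ i, b i ^ 2 = s + 2 * x ^ 2 + 2 * y ^ 2 := by
  let a : Fin p → ℤ := fun i => if (i : ℕ) < s then 1 else 0
  have ha1 : ∑ i, a i = s := by
    have e := Fin.sum_univ_eq_sum_range (fun i => if i < s then (1 : ℤ) else 0) p
    show ∑ i : Fin p, (if (i : ℕ) < s then (1 : ℤ) else 0) = s
    rw [e, ← Finset.sum_filter]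
    have : (range p).filter (fun i => i < s) = range s := by
      ext t; simp only [mem_filter, mem_range]; omega
    rw [this]; simp
  have ha2 : ∑ i, a i ^ 2 = s := by
    rw [← ha1]
    refine Finset.sum_congr rfl fun i _ => ?_
    show (if (i : ℕ) < s then (1 : ℤ) else 0) ^ 2 = if (i : ℕ) < s then (1 : ℤ) else 0
    split_ifs <;> norm_num
  have key : ∀ i j k l : ℕ, ∀ (hi : i < p) (hj : j < p) (hk : k < p) (hl : l < p),
      i ≠ j → i ≠ k → i ≠ l → j ≠ k → j ≠ l → k ≠ l → (i < s ↔ j < s) → (k < s ↔ l < s) →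
      ∃ b : Fin p → ℤ, ∑ i, b i = s ∧ ∑ i, b i ^ 2 = s + 2 * x ^ 2 + 2 * y ^ 2 := by
    intro i j k l hi hj hk hl n1 n2 n3 n4 n5 n6 e1 e2
    obtain ⟨b, hb1, hb2⟩ := row_update a ⟨i, hi⟩ ⟨j, hj⟩ ⟨k, hk⟩ ⟨l, hl⟩
      (by simpa using n1) (by simpa using n2) (by simpa using n3) (by simpa using n4)
      (by simpa using n5) (by simpa using n6) (by simp only [a, e1]) (by simp only [a, e2]) x y
    exact ⟨b, by rw [hb1, ha1], by rw [hb2, ha2]⟩
  rcases Nat.lt_or_ge s 4 with h | h
  · interval_cases s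
    · exact key 0 1 2 3 (by omega) (by omega) (by omega) (by omega) (by omega) (by omega) (by omega)
        (by omega) (by omega) (by omega) (by omega) (by omega)
    · exact key 1 2 3 4 (by omega) (by omega) (by omega) (by omega) (by omega) (by omega) (by omega)
        (by omega) (by omega) (by omega) (by omega) (by omega)
    · exact key 0 1 2 3 (by omega) (by omega) (by omega) (by omega) (by omega) (by omega) (by omega)
        (by omega) (by omega) (by omega) (by omega) (by omega)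
    · exact key 0 1 3 4 (by omega) (by omega) (by omega) (by omega) (by omega) (by omega) (by omega)
        (by omega) (by omega) (by omega) (by omega) (by omega)
  · exact key 0 1 2 3 (by omega) (by omega) (by omega) (by omega) (by omega) (by omega) (by omega)
        (by omega) (by omega) (by omega) (by omega) (by omega)

/-- Two copies, `p ≥ 5`: all increments. -/
theorem two_rows {p : ℕ} (hp : p.Prime) (hp5 : 5 ≤ p) (s t k : ℕ) (hs : s ≤ p) (ht : t ≤ p) :
    ∃ w₁ w₂ : ℤ, IsVal p w₁ ∧ IsVal p w₂ ∧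
      w₁ + w₂ = s * (p - s) + t * (p - t) + 2 * p * k := by
  obtain ⟨x, y, z, w, h⟩ := Nat.sum_four_squares k
  obtain ⟨b, hb1, hb2⟩ := row_exists hp5 s hs x y
  obtain ⟨c, hc1, hc2⟩ := row_exists hp5 t ht z w
  refine ⟨_, _, (isVal_p_iff hp _).2 ⟨b, rfl⟩, (isVal_p_iff hp _).2 ⟨c, rfl⟩, ?_⟩
  rw [hb1, hb2, hc1, hc2, ← h]
  push_cast
  ring

theorem one_large {p : ℕ} (hp : p.Prime) (hp2 : p ≠ 2) (v : ℤ) (hv : (p : ℤ) ^ 2 ≤ v) :
    ∃ w₁ w₂ : ℤ, IsVal p w₁ ∧ IsVal p w₂ ∧ w₁ + w₂ = 2 * v := by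
  rcases eq_or_ne p 3 with h3 | h3
  · subst h3
    have hv0 : 0 ≤ v := by linarith [sq_nonneg ((3 : ℕ) : ℤ)]
    obtain ⟨a, b, c, d, h⟩ := Rep2_nat v.toNat
    rw [Int.toNat_of_nonneg hv0] at h
    have key : ∀ a b : ℤ, IsVal 3 (2 * LN a b) := by
      intro a b
      rw [isVal_p_iff hp]
      refine ⟨![a + b, b, 0], ?_⟩
      simp only [Fin.sum_univ_three, Matrix.cons_val_zero, Matrix.cons_val_one, Matrix.cons_val]
      unfold LN
      push_cast
      ring
    exact ⟨_, _, key a b, key c d, by rw [← h]; ring⟩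
  · have hp5 : 5 ≤ p := by
      have := hp.two_le
      rcases Nat.lt_or_ge p 5 with h | h
      · exfalso
        have : p = 4 := by omega
        subst this
        exact absurd hp (by norm_num)
      · exact h
    have : Fact p.Prime := ⟨hp⟩
    obtain ⟨a, b, hab⟩ := ZMod.sq_add_sq p ((-(2 * v) : ℤ) : ZMod p)
    have ha := ZMod.val_lt a
    have hb := ZMod.val_lt b
    set s := a.val with hs
    set t := b.val with ht
    have hd : (p : ℤ) ∣ 2 * v + s ^ 2 + t ^ 2 := by
      rw [← ZMod.intCast_zmod_eq_zero_iff_dvd]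
      push_cast
      rw [hs, ht, ZMod.natCast_zmod_val, ZMod.natCast_zmod_val]
      push_cast at hab
      linear_combination hab
    have hpo : Odd (p : ℤ) := by exact_mod_cast hp.odd_of_ne_two hp2
    have hev : ∀ s : ℤ, Even (s * (p - s)) := by
      intro s
      rcases Int.even_or_odd s with h | h
      · exact h.mul_right _
      · exact (hpo.sub_odd h).mul_left _
    obtain ⟨e1, he1⟩ := hev s
    obtain ⟨e2, he2⟩ := hev t
    have hd2 : (p : ℤ) ∣ 2 * (v - e1 - e2) := by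
      have : 2 * (v - e1 - e2) = 2 * v + s ^ 2 + t ^ 2 - p * (s + t) := by linarith
      rw [this]
      exact dvd_sub hd ⟨_, rfl⟩
    have hcop : IsCoprime (p : ℤ) 2 := by
      have : Nat.Coprime p 2 := (Nat.coprime_two_right).2 (hp.odd_of_ne_two hp2)
      exact_mod_cast Nat.isCoprime_iff_coprime.2 this
    obtain ⟨k, hk⟩ := hcop.dvd_of_dvd_mul_left hd2
    have hk0 : 0 ≤ k := by
      have h1 : (0 : ℤ) < p := by exact_mod_cast hp.pos
      have h2 : (s : ℤ) < p := by exact_mod_cast ha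
      have h3 : (t : ℤ) < p := by exact_mod_cast hb
      have h4 : (s : ℤ) * (p - s) ≤ p ^ 2 := by nlinarith
      have h5 : (t : ℤ) * (p - t) ≤ p ^ 2 := by nlinarith
      have h6 : 0 ≤ (p : ℤ) * k := by rw [← hk]; linarith
      exact nonneg_of_mul_nonneg_right h6 h1
    obtain ⟨k', rfl⟩ := Int.eq_ofNat_of_zero_le hk0
    obtain ⟨w₁, w₂, h1, h2, h3⟩ := two_rows hp hp5 s t k' ha.le hb.le
    exact ⟨w₁, w₂, h1, h2, by rw [h3, he1, he2]; linarith⟩

/-- In prime conductor infinitely many values are missing. -/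
theorem one_missing {p : ℕ} (hp : p.Prime) (hp2 : p ≠ 2) :
    ∃ v₀ : ℕ, ∀ j : ℕ, ¬ IsVal p (2 * ((v₀ : ℤ) + p * j)) := by
  have : Fact p.Prime := ⟨hp⟩
  have hchar : ringChar (ZMod p) ≠ 2 := by rw [ZMod.ringChar_zmod_n]; exact hp2
  obtain ⟨c, hc⟩ := FiniteField.exists_nonsquare hchar
  have h2 : (2 : ZMod p) ≠ 0 := by
    intro h
    have h' : ((2 : ℕ) : ZMod p) = 0 := by exact_mod_cast h
    rw [ZMod.natCast_eq_zero_iff] at h'
    exact hp2 ((Nat.prime_dvd_prime_iff_eq hp Nat.prime_two).1 h')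
  refine ⟨(-c / 2).val, fun j hj => ?_⟩
  obtain ⟨a, ha⟩ := (isVal_p_iff hp _).1 hj
  have h : ((p * ∑ i, a i ^ 2 - (∑ i, a i) ^ 2 : ℤ) : ZMod p)
      = ((2 * (((-c / 2).val : ℤ) + p * j) : ℤ) : ZMod p) := by rw [ha]
  push_cast at h
  rw [ZMod.natCast_zmod_val] at h
  simp only [CharP.cast_eq_zero, zero_mul, zero_sub, add_zero] at h
  apply hc
  refine ⟨∑ i, (a i : ZMod p), ?_⟩
  have e : 2 * (-c / 2) = -c := by field_simp
  rw [e] at h
  linear_combination h

end Pool.Agent.Work.MP_097698_nt
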