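import Pool.Agent.Work.MP_097698_nt.Cyc
import Pool.Agent.Work.MP_097698_nt.MatMain

namespace Pool.Agent.Work.MP_097698_nt

open Finset ArithmeticFunction
open scoped ArithmeticFunction.Moebius

theorem rd_dvd (n : ℕ) : rd n ∣ n := Nat.prod_primeFactors_dvd n

theorem rd_pos (n : ℕ) : 0 < rd n :=
  Finset.prod_pos fun _ hp => (Nat.prime_of_mem_primeFactors hp).pos

theorem squarefree_dvd_rd {n e : ℕ} (hn : n ≠ 0) (he : Squarefree e) (h : e ∣ n) : e ∣ rd n := by
  rw [← Nat.prod_primeFactors_of_squarefree he]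
  exact Finset.prod_dvd_prod_of_subset _ _ _ (Nat.primeFactors_mono h hn)

theorem ram_rd {n N : ℕ} (hn : 0 < n) (hN : n = N * rd n) (x : ℤ) :
    ram x n = if (N : ℤ) ∣ x then (N : ℤ) * ram (x / N) (rd n) else 0 := by
  have hr := rd_pos n
  have hN0 : 0 < N := by
    rcases Nat.eq_zero_or_pos N with h | h
    · rw [h, zero_mul] at hN; omega
    · exact h
  have h1 : ram x n = ∑ e ∈ (rd n).divisors, μ e * gx x (n / e) := by
    unfold ram
    rw [ArithmeticFunction.mul_apply, Nat.sum_divisorsAntidiagonal (fun i j => μ i * gx x j)]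
    symm
    refine Finset.sum_subset (Nat.divisors_subset_of_dvd hn.ne' (rd_dvd n)) ?_
    intro e he hne
    have h2 : ¬ Squarefree e := fun hs => hne (Nat.mem_divisors.2
      ⟨squarefree_dvd_rd hn.ne' hs (Nat.dvd_of_mem_divisors he), hr.ne'⟩)
    rw [ArithmeticFunction.moebius_eq_zero_of_not_squarefree h2, zero_mul]
  have h3 : ∀ e ∈ (rd n).divisors, gx x (n / e)
      = if (N : ℤ) ∣ x then (N : ℤ) * gx (x / N) (rd n / e) else 0 := by
    intro e he
    obtain ⟨d, hd⟩ := Nat.dvd_of_mem_divisors he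
    have he0 : 0 < e := Nat.pos_of_mem_divisors he
    have e1 : rd n / e = d := by rw [hd]; exact Nat.mul_div_cancel_left _ he0
    have e2 : n / e = N * d := by
      rw [hN, hd, ← mul_assoc, mul_comm N e, mul_assoc]; exact Nat.mul_div_cancel_left _ he0
    rw [e1, e2, gx_apply, gx_apply]
    push_cast
    have hNz : (N : ℤ) ≠ 0 := by exact_mod_cast hN0.ne'
    by_cases h : (N : ℤ) ∣ x
    · rw [if_pos h]
      obtain ⟨y, rfl⟩ := h
      rw [Int.mul_ediv_cancel_left _ hNz]
      by_cases h' : (d : ℤ) ∣ y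
      · rw [if_pos h', if_pos (mul_dvd_mul_left _ h')]
      · rw [if_neg h', if_neg (fun hh => h' ((mul_dvd_mul_iff_left hNz).1 hh)), mul_zero]
    · rw [if_neg h, if_neg (fun hh => h ((Dvd.intro _ rfl).trans hh))]
  rw [h1, Finset.sum_congr rfl (fun e he => by rw [h3 e he])]
  by_cases h : (N : ℤ) ∣ x
  · simp only [if_pos h]
    unfold ram
    rw [ArithmeticFunction.mul_apply, Nat.sum_divisorsAntidiagonal (fun i j => μ i * gx (x / N) j),
      Finset.mul_sum]
    refine Finset.sum_congr rfl fun e _ => ?_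
    ring
  · simp only [if_neg h, mul_zero, Finset.sum_const_zero]

theorem ram_zero {n : ℕ} (hn : 0 < n) : ram 0 n = (Nat.totient n : ℤ) := by
  have h := sum_primitiveRoots hn 0
  simp only [zpow_zero, Finset.sum_const, nsmul_eq_mul, mul_one] at h
  rw [Complex.card_primitiveRoots] at h
  exact_mod_cast h.symm

theorem totient_rd {n N : ℕ} (hn : 0 < n) (hN : n = N * rd n) :
    (Nat.totient n : ℤ) = N * (Nat.totient (rd n) : ℤ) := by
  have h := ram_rd hn hN 0
  rw [if_pos (dvd_zero _), Int.zero_ediv, ram_zero hn, ram_zero (rd_pos n)] at h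
  exact h

theorem isVal_rd {n N : ℕ} (hn : 0 < n) (hN : n = N * rd n) (v : ℤ) :
    IsVal n v ↔ ∃ w : Fin N → ℤ, (∀ t, IsVal (rd n) (w t)) ∧ v = N * ∑ t, w t := by
  have hN0 : 0 < N := by
    rcases Nat.eq_zero_or_pos N with h | h
    · rw [h, zero_mul] at hN; omega
    · exact h
  constructor
  · rintro ⟨m, e, a, rfl⟩
    refine ⟨fun t => ∑ i : Fin m, ∑ i' : Fin m, (if e i % N = t then a i else 0) * (if e i' % N = t then a i' else 0)
      * ram (((e i / N : ℕ) : ℤ) - ((e i' / N : ℕ) : ℤ)) (rd n), fun t => isVal_of _ _, ?_⟩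
    have hswap : ∀ F : Fin N → Fin m → Fin m → ℤ,
        ∑ t, ∑ i, ∑ i', F t i i' = ∑ i, ∑ i', ∑ t, F t i i' := by
      intro F
      rw [Finset.sum_comm]
      refine Finset.sum_congr rfl fun i _ => ?_
      rw [Finset.sum_comm]
    rw [hswap, Finset.mul_sum]
    refine Finset.sum_congr rfl fun i _ => ?_
    rw [Finset.mul_sum]
    refine Finset.sum_congr rfl fun i' _ => ?_
    rw [ram_rd hn hN]
    rw [← Finset.sum_mul]
    by_cases h : e i % N = e i' % N
    · have h1 : (N : ℤ) ∣ (e i : ℤ) - e i' := by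
        have : (e i' : ℤ) ≡ e i [ZMOD N] := (Int.natCast_modEq_iff.2 h.symm)
        exact this.dvd
      have h2 : ((e i : ℤ) - e i') / N = ((e i / N : ℕ) : ℤ) - ((e i' / N : ℕ) : ℤ) := by
        have e1 := Nat.div_add_mod (e i) N
        have e2 := Nat.div_add_mod (e i') N
        have e3 : (e i : ℤ) - e i' = N * (((e i / N : ℕ) : ℤ) - ((e i' / N : ℕ) : ℤ)) := by
          have e1' : (N : ℤ) * ((e i / N : ℕ) : ℤ) + ((e i % N : ℕ) : ℤ) = e i := by exact_mod_cast e1
          have e2' : (N : ℤ) * ((e i' / N : ℕ) : ℤ) + ((e i' % N : ℕ) : ℤ) = e i' := by exact_mod_cast e2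
          rw [h] at e1'
          linear_combination e2' - e1'
        rw [e3, Int.mul_ediv_cancel_left _ (by exact_mod_cast hN0.ne')]
      rw [if_pos h1, h2]
      have h3 : ∑ t : Fin N, (if e i % N = t then a i else 0) * (if e i' % N = t then a i' else 0)
          = a i * a i' := by
        rw [Finset.sum_eq_single (⟨e i % N, Nat.mod_lt _ hN0⟩ : Fin N)]
        · simp [h]
        · intro t _ ht
          rw [if_neg (fun hh => ht (Fin.ext hh.symm)), zero_mul]
        · simp
      rw [h3]; ring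
    · have h1 : ¬ (N : ℤ) ∣ (e i : ℤ) - e i' := by
        intro hd
        apply h
        have : (e i' : ℤ) ≡ e i [ZMOD N] := (Int.modEq_iff_dvd).2 hd
        exact ((Int.natCast_modEq_iff).1 this).symm
      rw [if_neg h1]
      have h3 : ∑ t : Fin N, (if e i % N = t then a i else 0) * (if e i' % N = t then a i' else 0)
          = 0 := by
        refine Finset.sum_eq_zero fun t _ => ?_
        by_cases h4 : e i % N = t
        · have h5 : ¬ e i' % N = t := fun hh => h (h4.trans hh.symm)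
          rw [if_neg h5, mul_zero]
        · rw [if_neg h4, zero_mul]
      rw [h3]; ring
  · rintro ⟨w, hw, rfl⟩
    choose m e a hw using hw
    have hv : N * ∑ t, w t = ∑ x : (Σ t : Fin N, Fin (m t)), ∑ y : (Σ t : Fin N, Fin (m t)),
        a x.1 x.2 * a y.1 y.2 * ram (((x.1 + N * e x.1 x.2 : ℕ) : ℤ) - ((y.1 + N * e y.1 y.2 : ℕ) : ℤ)) n := by
      rw [Fintype.sum_sigma, Finset.mul_sum]
      refine Finset.sum_congr rfl fun t _ => ?_
      rw [hw t, Finset.mul_sum]
      refine Finset.sum_congr rfl fun i _ => ?_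
      rw [Fintype.sum_sigma, Finset.sum_eq_single t]
      · rw [Finset.mul_sum]
        refine Finset.sum_congr rfl fun i' _ => ?_
        rw [ram_rd hn hN]
        have h1 : ((t + N * e t i : ℕ) : ℤ) - ((t + N * e t i' : ℕ) : ℤ) = N * ((e t i : ℤ) - e t i') := by
          push_cast; ring
        rw [h1, if_pos (Dvd.intro _ rfl), Int.mul_ediv_cancel_left _ (by exact_mod_cast hN0.ne')]
        ring
      · intro t' _ ht'
        refine Finset.sum_eq_zero fun i' _ => ?_
        rw [ram_rd hn hN, if_neg, mul_zero]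
        intro hd
        apply ht'
        have h2 : (N : ℤ) ∣ (t : ℤ) - t' := by
          have : (t : ℤ) - t' = (((t + N * e t i : ℕ) : ℤ) - ((t' + N * e t' i' : ℕ) : ℤ))
            - N * ((e t i : ℤ) - e t' i') := by push_cast; ring
          rw [this]
          exact dvd_sub hd (Dvd.intro _ rfl)
        have h3 : |((t : ℕ) : ℤ) - (t' : ℕ)| < N := by
          have := t.2; have := t'.2
          rw [abs_lt]; constructor <;> omega
        have h4 := Int.eq_zero_of_abs_lt_dvd h2 h3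
        exact Fin.ext (by omega)
      · simp
    rw [hv]
    exact isVal_of _ _

theorem mem_casselsSet_rd {n N : ℕ} (hn : 0 < n) (hN : n = N * rd n) (x : ℝ) :
    x ∈ casselsSet n ↔ ∃ w : Fin N → ℤ, (∀ t, IsVal (rd n) (w t)) ∧
      x = ((∑ t, w t : ℤ) : ℝ) / (Nat.totient (rd n) : ℝ) := by
  have hN0 : 0 < N := by
    rcases Nat.eq_zero_or_pos N with h | h
    · rw [h, zero_mul] at hN; omega
    · exact h
  have hφ : (Nat.totient n : ℝ) = N * (Nat.totient (rd n) : ℝ) := by
    have := totient_rd hn hN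
    exact_mod_cast this
  rw [mem_casselsSet hn]
  have hNR : (N : ℝ) ≠ 0 := by exact_mod_cast hN0.ne'
  constructor
  · rintro ⟨v, hv, rfl⟩
    obtain ⟨w, hw, rfl⟩ := (isVal_rd hn hN v).1 hv
    refine ⟨w, hw, ?_⟩
    rw [hφ]
    push_cast
    rw [mul_div_mul_left _ _ hNR]
  · rintro ⟨w, hw, rfl⟩
    refine ⟨N * ∑ t, w t, (isVal_rd hn hN _).2 ⟨w, hw, rfl⟩, ?_⟩
    rw [hφ]
    push_cast
    rw [mul_div_mul_left _ _ hNR]

/-- Doubling an odd conductor changes nothing. -/
theorem isVal_two_mul {m : ℕ} (hm : Odd m) (v : ℤ) : IsVal (2 * m) v ↔ IsVal m v := by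
  have hco : Nat.Coprime 2 m := (Nat.coprime_two_left).2 hm
  have h2 : ∀ x y : ℕ, ram ((x : ℤ) - y) 2 = (-1) ^ x * (-1) ^ y := by
    intro x y
    rw [ram_prime Nat.prime_two]
    rcases Nat.even_or_odd x with hx | hx <;> rcases Nat.even_or_odd y with hy | hy
    · rw [if_pos, hx.neg_one_pow, hy.neg_one_pow]; · norm_num
      obtain ⟨a, rfl⟩ := hx; obtain ⟨b, rfl⟩ := hy
      push_cast; omega
    · rw [if_neg, hx.neg_one_pow, hy.neg_one_pow]; · norm_num
      obtain ⟨a, rfl⟩ := hx; obtain ⟨b, rfl⟩ := hy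
      push_cast; omega
    · rw [if_neg, hx.neg_one_pow, hy.neg_one_pow]; · norm_num
      obtain ⟨a, rfl⟩ := hx; obtain ⟨b, rfl⟩ := hy
      push_cast; omega
    · rw [if_pos, hx.neg_one_pow, hy.neg_one_pow]; · norm_num
      obtain ⟨a, rfl⟩ := hx; obtain ⟨b, rfl⟩ := hy
      push_cast; omega
  have hsq : ∀ x : ℕ, ((-1 : ℤ) ^ x) * (-1) ^ x = 1 := fun x => by
    rw [← mul_pow]; norm_num
  constructor
  · rintro ⟨k, e, a, rfl⟩
    refine ⟨k, e, fun i => (-1) ^ e i * a i, ?_⟩
    refine Finset.sum_congr rfl fun i _ => Finset.sum_congr rfl fun i' _ => ?_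
    rw [ram_mul hco, h2]
    ring
  · rintro ⟨k, e, a, rfl⟩
    refine ⟨k, e, fun i => (-1) ^ e i * a i, ?_⟩
    refine Finset.sum_congr rfl fun i _ => Finset.sum_congr rfl fun i' _ => ?_
    rw [ram_mul hco, h2]
    linear_combination (-(a i * a i' * ram ((e i : ℤ) - e i') m)) * (hsq (e i)) * 1
      - (a i * a i' * ram ((e i : ℤ) - e i') m) * ((-1) ^ e i * (-1) ^ e i) * (hsq (e i'))

end Pool.Agent.Work.MP_097698_nt
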