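import Pool.Agent.Work.MP_097698_nt.One
import Pool.Agent.Work.MP_097698_nt.Rad

/-!
The sets `𝒞_n` for `n` with exactly one odd prime factor, and for the powers of two.
-/

namespace Pool.Agent.Work.MP_097698_nt

open Finset

/-- The conductor: `rd n` is `p` or `2p`. -/
theorem rd_oneP {n p : ℕ} (hp : p.Prime) (hp2 : p ≠ 2) (h : n.primeFactors \ {2} = {p}) :
    (∀ v, IsVal (rd n) v ↔ IsVal p v) ∧ Nat.totient (rd n) = p - 1 ∧ (rd n = p ∨ rd n = 2 * p) := by
  have hodd : Odd p := hp.odd_of_ne_two hp2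
  by_cases h2 : 2 ∈ n.primeFactors
  · have hset : n.primeFactors = insert 2 {p} := by
      rw [← h, Finset.insert_sdiff_self_of_mem h2]
    have hrd : rd n = 2 * p := by
      unfold rd
      rw [hset, Finset.prod_pair (fun hh => hp2 hh.symm)]
    rw [hrd]
    refine ⟨fun v => isVal_two_mul hodd v, ?_, Or.inr rfl⟩
    rw [Nat.totient_mul ((Nat.coprime_two_left).2 hodd), Nat.totient_two, one_mul,
      Nat.totient_prime hp]
  · have hset : n.primeFactors = {p} := by
      rw [← h, Finset.sdiff_singleton_eq_erase, Finset.erase_eq_of_notMem h2]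
    have hrd : rd n = p := by
      unfold rd
      rw [hset, Finset.prod_singleton]
    rw [hrd]
    exact ⟨fun v => Iff.rfl, Nat.totient_prime hp, Or.inl rfl⟩

theorem pos_of_oneP {n p : ℕ} (h : n.primeFactors \ {2} = {p}) : 0 < n := by
  rcases Nat.eq_zero_or_pos n with h0 | h0
  · subst h0
    have : p ∈ ((0 : ℕ).primeFactors \ {2} : Finset ℕ) := by rw [h]; simp
    simp at this
  · exact h0

/-- The number of copies is at least two unless `n` is `p` or `2p`. -/
theorem two_le_N {n p : ℕ} (hp : p.Prime) (hp2 : p ≠ 2) (h : n.primeFactors \ {2} = {p})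
    (h1 : n ≠ p) (h2 : n ≠ 2 * p) : 2 ≤ n / rd n := by
  have hn := pos_of_oneP h
  obtain ⟨-, -, h3⟩ := rd_oneP hp hp2 h
  have h4 : n / rd n * rd n = n := Nat.div_mul_cancel (rd_dvd n)
  generalize n / rd n = N at h4 ⊢
  rcases Nat.lt_or_ge N 2 with h5 | h5
  · exfalso
    have h6 : N = 0 ∨ N = 1 := by omega
    rcases h6 with h6 | h6
    · rw [h6, zero_mul] at h4; omega
    · rw [h6, one_mul] at h4
      rcases h3 with h3 | h3
      · exact h1 (by rw [← h4]; exact h3)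
      · exact h2 (by rw [← h4]; exact h3)
  · exact h5

/-- The values in prime conductor: the necessary form. -/
theorem isVal_p_form {p : ℕ} (hp : p.Prime) (v : ℤ) (hv : IsVal p v) :
    ∃ s k : ℕ, 2 * s ≤ p ∧ v = s * (p - s) + 2 * p * k := by
  obtain ⟨a, ha⟩ := (isVal_p_iff hp v).1 hv
  have hp0 : (0 : ℤ) < p := by exact_mod_cast hp.pos
  set S := ∑ i, a i with hS
  obtain ⟨m, s, hs0, hsp, hSm⟩ : ∃ m s : ℤ, 0 ≤ s ∧ s < p ∧ S = p * m + s :=
    ⟨S / p, S % p, Int.emod_nonneg _ hp0.ne', Int.emod_lt_of_pos _ hp0,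
      (Int.mul_ediv_add_emod S p).symm⟩
  have hk : ∀ i, ∃ k : ℕ, (a i - m) * (a i - m - 1) = 2 * (k : ℤ) := by
    intro i
    have h1 : Even ((a i - m) * (a i - m - 1)) := by
      rcases Int.even_or_odd (a i - m) with h | h
      · exact h.mul_right _
      · exact (h.sub_odd odd_one).mul_left _
    obtain ⟨e, he⟩ := h1
    have h2 : 0 ≤ e := by
      have h3 : 0 ≤ (a i - m) * (a i - m - 1) := by
        rcases le_or_gt 1 (a i - m) with h | h
        · exact mul_nonneg (by omega) (by omega)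
        · exact mul_nonneg_of_nonpos_of_nonpos (by omega) (by omega)
      omega
    obtain ⟨k, rfl⟩ := Int.eq_ofNat_of_zero_le h2
    exact ⟨k, by rw [he]; ring⟩
  choose k hk using hk
  have h1 : ∑ i, (a i - m) * (a i - m - 1) = 2 * ((∑ i, k i : ℕ) : ℤ) := by
    rw [Finset.sum_congr rfl (fun i _ => hk i), ← Finset.mul_sum]
    push_cast
    rfl
  have h2 : ∑ i, (a i - m) * (a i - m - 1)
      = ∑ i, a i ^ 2 - (2 * m + 1) * S + p * (m ^ 2 + m) := by
    have e : ∀ i, (a i - m) * (a i - m - 1) = a i ^ 2 - (2 * m + 1) * a i + (m ^ 2 + m) := by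
      intro i; ring
    rw [Finset.sum_congr rfl (fun i _ => e i), Finset.sum_add_distrib, Finset.sum_sub_distrib,
      ← Finset.mul_sum, Finset.sum_const, Finset.card_univ, Fintype.card_fin, nsmul_eq_mul, ← hS]
  have h3 : v = s * (p - s) + 2 * p * ((∑ i, k i : ℕ) : ℤ) := by
    have h4 : ∑ i, a i ^ 2 = 2 * ((∑ i, k i : ℕ) : ℤ) + (2 * m + 1) * S - p * (m ^ 2 + m) := by
      rw [← h1, h2]; ring
    rw [← ha, h4, hSm]
    ring
  obtain ⟨s', rfl⟩ := Int.eq_ofNat_of_zero_le hs0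
  rcases Nat.lt_or_ge p (2 * s') with h | h
  · refine ⟨p - s', ∑ i, k i, by omega, ?_⟩
    rw [h3]
    have h5 : s' ≤ p := by omega
    push_cast [Nat.cast_sub h5]
    ring
  · exact ⟨s', ∑ i, k i, h, h3⟩

/-- A single row without increment. -/
theorem isVal_p_row {p : ℕ} (hp : p.Prime) (hp5 : 5 ≤ p) (s : ℕ) (hs : s ≤ p) :
    IsVal p (s * (p - s)) := by
  obtain ⟨b, hb1, hb2⟩ := row_exists hp5 s hs 0 0
  rw [isVal_p_iff hp]
  refine ⟨b, ?_⟩
  rw [hb1, hb2]
  ring

theorem oneP_main {n p : ℕ} (hp : p.Prime) (hp5 : 5 ≤ p) (h : n.primeFactors \ {2} = {p})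
    (hn1 : n ≠ p) (hn2 : n ≠ 2 * p) :
    casselsSet n = {x : ℝ | ∃ (s : Fin (n / rd n) → ℕ) (k : ℕ), (∀ t, 2 * s t ≤ p) ∧
      x = ((∑ t, (s t : ℤ) * (p - s t) + 2 * (p : ℤ) * k : ℤ) : ℝ) / ((p : ℝ) - 1)} := by
  have hp2 : p ≠ 2 := by omega
  have hn := pos_of_oneP h
  obtain ⟨h1, h2, -⟩ := rd_oneP hp hp2 h
  have hN2 := two_le_N hp hp2 h hn1 hn2
  set N := n / rd n with hNdef
  have hN : n = N * rd n := (Nat.div_mul_cancel (rd_dvd n)).symm
  have hφ : ((Nat.totient (rd n) : ℕ) : ℝ) = (p : ℝ) - 1 := by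
    rw [h2]
    push_cast [Nat.cast_sub hp.one_le]
    ring
  ext x
  rw [mem_casselsSet_rd hn hN, hφ, Set.mem_ofPred_eq]
  constructor
  · rintro ⟨w, hw, rfl⟩
    have hw' : ∀ t, ∃ s k : ℕ, 2 * s ≤ p ∧ w t = s * (p - s) + 2 * p * k := fun t =>
      isVal_p_form hp (w t) ((h1 _).1 (hw t))
    choose s k hs hwt using hw'
    refine ⟨s, ∑ t, k t, hs, ?_⟩
    congr 2
    push_cast
    rw [Finset.mul_sum, ← Finset.sum_add_distrib]
    exact Finset.sum_congr rfl fun t _ => hwt t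
  · rintro ⟨s, k, hs, rfl⟩
    have hsp : ∀ t, s t ≤ p := fun t => by have := hs t; omega
    let t0 : Fin N := ⟨0, by omega⟩
    let t1 : Fin N := ⟨1, by omega⟩
    have ht : t0 ≠ t1 := by simp [t0, t1]
    obtain ⟨w₁, w₂, hw1, hw2, hsum⟩ := two_rows hp hp5 (s t0) (s t1) k (hsp t0) (hsp t1)
    refine ⟨fun t => if t = t0 then w₁ else if t = t1 then w₂ else (s t : ℤ) * (p - s t),
      fun t => ?_, ?_⟩
    · rw [h1]
      by_cases e0 : t = t0
      · simp only [if_pos e0]; exact hw1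
      · by_cases e1 : t = t1
        · simp only [if_neg e0, if_pos e1]; exact hw2
        · simp only [if_neg e0, if_neg e1]
          exact isVal_p_row hp hp5 (s t) (hsp t)
    · congr 2
      have e : ∀ t : Fin N, (if t = t0 then w₁ else if t = t1 then w₂ else (s t : ℤ) * (p - s t))
          = (s t : ℤ) * (p - s t) + (if t = t0 then w₁ - (s t0 : ℤ) * (p - s t0) else 0)
            + (if t = t1 then w₂ - (s t1 : ℤ) * (p - s t1) else 0) := by
        intro t
        by_cases e0 : t = t0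
        · rw [if_pos e0, if_pos e0, if_neg (fun hh => ht (e0.symm.trans hh)), e0]; ring
        · by_cases e1 : t = t1
          · rw [if_neg e0, if_pos e1, if_neg e0, if_pos e1, e1]; ring
          · rw [if_neg e0, if_neg e1, if_neg e0, if_neg e1]; ring
      rw [Finset.sum_congr rfl (fun t _ => e t), Finset.sum_add_distrib, Finset.sum_add_distrib,
        Finset.sum_ite_eq', Finset.sum_ite_eq', if_pos (mem_univ _), if_pos (mem_univ _)]
      linear_combination -hsum

/-- The case `p = 3`: every natural number. -/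
theorem three_main {n : ℕ} (h : n.primeFactors \ {2} = {3}) (hn1 : n ≠ 3) (hn2 : n ≠ 6) :
    casselsSet n = {x : ℝ | ∃ k : ℕ, x = k} := by
  have hp : Nat.Prime 3 := Nat.prime_three
  have hp2 : (3 : ℕ) ≠ 2 := by norm_num
  have hn := pos_of_oneP h
  obtain ⟨h1, h2, -⟩ := rd_oneP hp hp2 h
  have hN2 := two_le_N hp hp2 h hn1 (by simpa using hn2)
  set N := n / rd n with hNdef
  have hN : n = N * rd n := (Nat.div_mul_cancel (rd_dvd n)).symm
  have hφ : ((Nat.totient (rd n) : ℕ) : ℝ) = 2 := by rw [h2]; norm_num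
  ext x
  rw [mem_casselsSet_rd hn hN, hφ, Set.mem_ofPred_eq]
  constructor
  · rintro ⟨w, hw, rfl⟩
    have hw' : ∀ t, ∃ k : ℕ, w t = 2 * k := by
      intro t
      obtain ⟨s, k, hs, hwt⟩ := isVal_p_form hp (w t) ((h1 _).1 (hw t))
      have hs' : s = 0 ∨ s = 1 := by omega
      rcases hs' with rfl | rfl
      · exact ⟨3 * k, by rw [hwt]; push_cast; ring⟩
      · exact ⟨3 * k + 1, by rw [hwt]; push_cast; ring⟩
    choose k hk using hw'
    refine ⟨∑ t, k t, ?_⟩
    rw [Finset.sum_congr rfl (fun t _ => hk t)]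
    push_cast
    rw [← Finset.mul_sum]
    ring
  · rintro ⟨k, rfl⟩
    let t0 : Fin N := ⟨0, by omega⟩
    let t1 : Fin N := ⟨1, by omega⟩
    have ht : t0 ≠ t1 := by simp [t0, t1]
    obtain ⟨a, b, c, d, habcd⟩ := Rep2_nat k
    have key : ∀ a b : ℤ, IsVal 3 (2 * LN a b) := by
      intro a b
      rw [isVal_p_iff hp]
      refine ⟨![a + b, b, 0], ?_⟩
      simp only [Fin.sum_univ_three, Matrix.cons_val_zero, Matrix.cons_val_one, Matrix.cons_val]
      unfold LN
      push_cast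
      ring
    have hz : IsVal 3 0 := by
      have := key 0 0
      simpa [LN] using this
    refine ⟨fun t => if t = t0 then 2 * LN a b else if t = t1 then 2 * LN c d else 0,
      fun t => ?_, ?_⟩
    · rw [h1]
      by_cases e0 : t = t0
      · simp only [if_pos e0]; exact key a b
      · by_cases e1 : t = t1
        · simp only [if_neg e0, if_pos e1]; exact key c d
        · simp only [if_neg e0, if_neg e1]; exact hz
    · have e : ∀ t : Fin N, (if t = t0 then 2 * LN a b else if t = t1 then 2 * LN c d else 0)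
          = (if t = t0 then 2 * LN a b else 0) + (if t = t1 then 2 * LN c d else 0) := by
        intro t
        by_cases e0 : t = t0
        · rw [if_pos e0, if_pos e0, if_neg (fun hh => ht (e0.symm.trans hh))]; ring
        · rw [if_neg e0, if_neg e0]; ring
      rw [Finset.sum_congr rfl (fun t _ => e t), Finset.sum_add_distrib,
        Finset.sum_ite_eq', Finset.sum_ite_eq', if_pos (mem_univ _), if_pos (mem_univ _)]
      have h3 : ((k : ℕ) : ℝ) = ((LN a b + LN c d : ℤ) : ℝ) := by rw [habcd]; push_cast; rfl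
      rw [h3]
      push_cast
      ring

/-- Conductor one. -/
theorem isVal_one (v : ℤ) : IsVal 1 v ↔ ∃ a : ℤ, v = a ^ 2 := by
  constructor
  · rintro ⟨m, e, a, rfl⟩
    refine ⟨∑ i, a i, ?_⟩
    simp only [ram_one, mul_one]
    rw [pow_two, Finset.sum_mul_sum]
  · rintro ⟨a, rfl⟩
    refine ⟨1, fun _ => 0, fun _ => a, ?_⟩
    simp only [ram_one, mul_one]
    simp [pow_two]

theorem isVal_two (v : ℤ) : IsVal 2 v ↔ ∃ a : ℤ, v = a ^ 2 := by
  have h := isVal_two_mul (m := 1) odd_one v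
  rw [mul_one] at h
  rw [h, isVal_one]

theorem rd_two_pow {a : ℕ} (ha : a ≠ 0) : rd (2 ^ a) = 2 := by
  unfold rd
  rw [Nat.primeFactors_prime_pow ha Nat.prime_two, Finset.prod_singleton]

theorem mem_two_pow (a : ℕ) (x : ℝ) :
    x ∈ casselsSet (2 ^ (a + 1)) ↔ ∃ w : Fin (2 ^ a) → ℤ, x = ((∑ t, w t ^ 2 : ℤ) : ℝ) := by
  have hr : rd (2 ^ (a + 1)) = 2 := rd_two_pow (Nat.succ_ne_zero a)
  have hN : 2 ^ (a + 1) = 2 ^ a * rd (2 ^ (a + 1)) := by rw [hr, pow_succ]
  rw [mem_casselsSet_rd (by positivity) hN, hr, Nat.totient_two]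
  constructor
  · rintro ⟨w, hw, rfl⟩
    have hw' : ∀ t, ∃ b : ℤ, w t = b ^ 2 := fun t => (isVal_two _).1 (hw t)
    choose b hb using hw'
    refine ⟨b, ?_⟩
    rw [Finset.sum_congr rfl (fun t _ => hb t)]
    simp
  · rintro ⟨w, rfl⟩
    refine ⟨fun t => w t ^ 2, fun t => (isVal_two _).2 ⟨_, rfl⟩, ?_⟩
    simp

theorem four_main : casselsSet 4 = {x : ℝ | ∃ a b : ℤ, x = (a : ℝ) ^ 2 + (b : ℝ) ^ 2} := by
  ext x
  have h := mem_two_pow 1 x
  have e : (2 : ℕ) ^ (1 + 1) = 4 := by norm_num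
  rw [e] at h
  rw [h, Set.mem_ofPred_eq]
  constructor
  · rintro ⟨w, rfl⟩
    refine ⟨w ⟨0, by norm_num⟩, w ⟨1, by norm_num⟩, ?_⟩
    have : ∑ t : Fin (2 ^ 1), w t ^ 2 = w ⟨0, by norm_num⟩ ^ 2 + w ⟨1, by norm_num⟩ ^ 2 :=
      Fin.sum_univ_two (fun t : Fin 2 => w t ^ 2)
    rw [this]
    push_cast
    rfl
  · rintro ⟨a, b, rfl⟩
    refine ⟨fun t => if (t : ℕ) = 0 then a else b, ?_⟩
    have : ∑ t : Fin (2 ^ 1), (if (t : ℕ) = 0 then a else b) ^ 2 = a ^ 2 + b ^ 2 := by
      have h2 := Fin.sum_univ_two (fun t : Fin 2 => (if (t : ℕ) = 0 then a else b) ^ 2)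
      simpa using h2
    rw [this]
    push_cast
    rfl

theorem pow_main {a : ℕ} (ha : 3 ≤ a) : casselsSet (2 ^ a) = {x : ℝ | ∃ k : ℕ, x = k} := by
  obtain ⟨b, rfl⟩ : ∃ b, a = b + 1 := ⟨a - 1, by omega⟩
  have hb : 4 ≤ 2 ^ b := by
    calc 4 = 2 ^ 2 := by norm_num
      _ ≤ 2 ^ b := Nat.pow_le_pow_right (by norm_num) (by omega)
  ext x
  rw [mem_two_pow b x, Set.mem_ofPred_eq]
  constructor
  · rintro ⟨w, rfl⟩
    have h0 : 0 ≤ ∑ t, w t ^ 2 := Finset.sum_nonneg fun t _ => sq_nonneg _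
    obtain ⟨k, hk⟩ := Int.eq_ofNat_of_zero_le h0
    refine ⟨k, ?_⟩
    rw [hk]
    simp
  · rintro ⟨k, rfl⟩
    obtain ⟨x, y, z, u, h⟩ := Nat.sum_four_squares k
    let f : ℕ → ℤ := fun t => if t = 0 then x else if t = 1 then y else if t = 2 then z
      else if t = 3 then u else 0
    refine ⟨fun t => f t, ?_⟩
    have e1 : ∑ t : Fin (2 ^ b), f t ^ 2 = ∑ t ∈ range (2 ^ b), f t ^ 2 :=
      Fin.sum_univ_eq_sum_range (fun t => f t ^ 2) (2 ^ b)
    have e2 : ∑ t ∈ range 4, f t ^ 2 = ∑ t ∈ range (2 ^ b), f t ^ 2 := by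
      refine Finset.sum_subset (fun t ht => ?_) (fun t _ ht => ?_)
      · rw [mem_range] at ht ⊢; omega
      · rw [mem_range] at ht
        simp only [f]
        rw [if_neg (by omega), if_neg (by omega), if_neg (by omega), if_neg (by omega)]
        norm_num
    have e3 : ∑ t ∈ range 4, f t ^ 2 = k := by
      rw [← h]
      simp [Finset.sum_range_succ, f]
    rw [e1, ← e2, e3]
    simp

end Pool.Agent.Work.MP_097698_nt
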