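import Pool.Agent.Work.MP_097698_nt.Rad

namespace Pool.Agent.Work.MP_097698_nt

open Finset

theorem sq_points {β T : Type*} [Fintype β] [Fintype T] [DecidableEq β] (a : T → ℤ) (u : T → β) :
    ∑ b, (∑ t, if u t = b then a t else 0) ^ 2
      = ∑ t, ∑ t', a t * a t' * (if u t = u t' then 1 else 0) := by
  have h1 : ∀ b, (∑ t, if u t = b then a t else 0) ^ 2
      = ∑ t, ∑ t', (if u t = b then a t else 0) * (if u t' = b then a t' else 0) := fun b => by
    rw [pow_two, Finset.sum_mul_sum]
  simp only [h1]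
  rw [Finset.sum_comm]
  refine Finset.sum_congr rfl fun t _ => ?_
  rw [Finset.sum_comm]
  refine Finset.sum_congr rfl fun t' _ => ?_
  rw [Finset.sum_eq_single (u t)]
  · by_cases h : u t = u t'
    · simp [h]
    · simp [h, Ne.symm h]
  · intro b _ hb
    rw [if_neg (fun hh => hb hh.symm), zero_mul]
  · simp

/-- Expansion of `V` for a matrix given by weighted points. -/
theorem V_points {ι κ T : Type*} [Fintype ι] [Fintype κ] [Fintype T] [DecidableEq ι] [DecidableEq κ]
    (f : T → ι) (g : T → κ) (a : T → ℤ) :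
    V (fun i j => ∑ t, if f t = i ∧ g t = j then a t else 0)
      = ∑ t, ∑ t', a t * a t' *
        (((if f t = f t' then (Fintype.card ι : ℤ) else 0) - 1)
          * ((if g t = g t' then (Fintype.card κ : ℤ) else 0) - 1)) := by
  have hcol : ∀ j, ∑ i, ∑ t, (if f t = i ∧ g t = j then a t else 0) = ∑ t, if g t = j then a t else 0 := by
    intro j
    rw [Finset.sum_comm]
    refine Finset.sum_congr rfl fun t _ => ?_
    by_cases h : g t = j
    · simp [h]
    · simp [h]
  have hrow : ∀ i, ∑ j, ∑ t, (if f t = i ∧ g t = j then a t else 0) = ∑ t, if f t = i then a t else 0 := by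
    intro i
    rw [Finset.sum_comm]
    refine Finset.sum_congr rfl fun t _ => ?_
    by_cases h : f t = i
    · simp [h]
    · simp [h]
  have htot : ∑ i, ∑ t, (if f t = i then a t else 0) = ∑ t, a t := by
    rw [Finset.sum_comm]
    refine Finset.sum_congr rfl fun t _ => ?_
    simp
  have hall : ∑ i, ∑ j, (∑ t, if f t = i ∧ g t = j then a t else 0) ^ 2
      = ∑ t, ∑ t', a t * a t' * (if f t = f t' ∧ g t = g t' then 1 else 0) := by
    have := sq_points (β := ι × κ) a (fun t => (f t, g t))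
    rw [Fintype.sum_prod_type] at this
    simp only [Prod.mk.injEq] at this
    exact this
  have htot2 : (∑ t, a t) ^ 2 = ∑ t, ∑ t', a t * a t' := by rw [pow_two, Finset.sum_mul_sum]
  unfold V
  rw [hall]
  simp only [hcol, hrow]
  rw [htot, sq_points a f, sq_points a g, htot2]
  simp only [Finset.mul_sum, ← Finset.sum_sub_distrib, ← Finset.sum_add_distrib]
  refine Finset.sum_congr rfl fun t _ => Finset.sum_congr rfl fun t' _ => ?_
  by_cases h1 : f t = f t' <;> by_cases h2 : g t = g t' <;> simp [h1, h2] <;> ring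

theorem isVal_pq {p q : ℕ} (hp : p.Prime) (hq : q.Prime) (hpq : p ≠ q) (v : ℤ) :
    IsVal (p * q) v ↔ ∃ a : Fin p → Fin q → ℤ, V a = v := by
  have hco : Nat.Coprime p q := (Nat.coprime_primes hp hq).2 hpq
  have hp0 := hp.pos
  have hq0 := hq.pos
  have key : ∀ {T : Type} [Fintype T] (e : T → ℕ) (a : T → ℤ),
      ∑ t, ∑ t', a t * a t' * ram ((e t : ℤ) - e t') (p * q)
        = V (fun (i : Fin p) (j : Fin q) => ∑ t, if (⟨e t % p, Nat.mod_lt _ hp0⟩ : Fin p) = i ∧
          (⟨e t % q, Nat.mod_lt _ hq0⟩ : Fin q) = j then a t else 0) := by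
    intro T _ e a
    rw [V_points (fun t => (⟨e t % p, Nat.mod_lt _ hp0⟩ : Fin p))
      (fun t => (⟨e t % q, Nat.mod_lt _ hq0⟩ : Fin q)) a]
    refine Finset.sum_congr rfl fun t _ => Finset.sum_congr rfl fun t' _ => ?_
    rw [ram_mul hco, ram_prime hp, ram_prime hq, Fintype.card_fin, Fintype.card_fin]
    have hd : ∀ r : ℕ, ((r : ℤ) ∣ (e t : ℤ) - e t') ↔ e t % r = e t' % r := by
      intro r
      rw [← Int.modEq_iff_dvd, Int.natCast_modEq_iff]
      exact ⟨fun h => h.symm, fun h => h.symm⟩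
    simp only [hd, Fin.mk.injEq]
  constructor
  · rintro ⟨m, e, a, rfl⟩
    exact ⟨_, (key e a).symm⟩
  · rintro ⟨A, rfl⟩
    have h := key (T := Fin p × Fin q) (fun x => (Nat.chineseRemainder hco x.1 x.2 : ℕ)) (fun x => A x.1 x.2)
    have hA : (fun (i : Fin p) (j : Fin q) => ∑ t : Fin p × Fin q,
        if (⟨(Nat.chineseRemainder hco t.1 t.2 : ℕ) % p, Nat.mod_lt _ hp0⟩ : Fin p) = i ∧
          (⟨(Nat.chineseRemainder hco t.1 t.2 : ℕ) % q, Nat.mod_lt _ hq0⟩ : Fin q) = j
          then A t.1 t.2 else 0) = A := by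
      funext i j
      have h1 : ∀ t : Fin p × Fin q,
          (⟨(Nat.chineseRemainder hco t.1 t.2 : ℕ) % p, Nat.mod_lt _ hp0⟩ : Fin p) = t.1 := by
        intro t
        apply Fin.ext
        have := (Nat.chineseRemainder hco t.1 t.2).2.1
        show (Nat.chineseRemainder hco t.1 t.2 : ℕ) % p = t.1
        rw [this]
        exact Nat.mod_eq_of_lt t.1.2
      have h2 : ∀ t : Fin p × Fin q,
          (⟨(Nat.chineseRemainder hco t.1 t.2 : ℕ) % q, Nat.mod_lt _ hq0⟩ : Fin q) = t.2 := by
        intro t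
        apply Fin.ext
        have := (Nat.chineseRemainder hco t.1 t.2).2.2
        show (Nat.chineseRemainder hco t.1 t.2 : ℕ) % q = t.2
        rw [this]
        exact Nat.mod_eq_of_lt t.2.2
      simp only [h1, h2]
      rw [Finset.sum_eq_single (i, j)]
      · simp
      · intro t _ ht
        rw [if_neg]
        rintro ⟨h3, h4⟩
        exact ht (Prod.ext h3 h4)
      · simp
    rw [hA] at h
    rw [← h]
    exact isVal_of _ _

end Pool.Agent.Work.MP_097698_nt
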