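import Mathlib

namespace Pool.Agent.Work.MP_097698_nt

open Finset ArithmeticFunction
open scoped ArithmeticFunction.Moebius

/-- `d ↦ d` if `d ∣ x`, else `0`. -/
def gx (x : ℤ) : ArithmeticFunction ℤ := ⟨fun d => if (d : ℤ) ∣ x then (d : ℤ) else 0, by simp⟩

theorem gx_apply (x : ℤ) (d : ℕ) : gx x d = if (d : ℤ) ∣ x then (d : ℤ) else 0 := rfl

/-- Ramanujan sums, as an arithmetic function of the modulus. -/
def ram (x : ℤ) : ArithmeticFunction ℤ := μ * gx x

theorem gx_mult (x : ℤ) : (gx x).IsMultiplicative := by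
  rw [ArithmeticFunction.IsMultiplicative.iff_ne_zero]
  refine ⟨by simp [gx_apply], ?_⟩
  intro m n hm hn hmn
  rw [gx_apply, gx_apply, gx_apply]
  have hco : IsCoprime (m : ℤ) (n : ℤ) := Nat.isCoprime_iff_coprime.2 hmn
  by_cases h1 : (m : ℤ) ∣ x
  · by_cases h2 : (n : ℤ) ∣ x
    · have : ((m * n : ℕ) : ℤ) ∣ x := by push_cast; exact hco.mul_dvd h1 h2
      rw [if_pos this, if_pos h1, if_pos h2]; push_cast; rfl
    · have : ¬ ((m * n : ℕ) : ℤ) ∣ x := fun h => h2 ((Dvd.intro_left (m : ℤ) (by push_cast; rfl)).trans h)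
      rw [if_neg this, if_neg h2, mul_zero]
  · have : ¬ ((m * n : ℕ) : ℤ) ∣ x := fun h => h1 ((Dvd.intro (n : ℤ) (by push_cast; rfl)).trans h)
    rw [if_neg this, if_neg h1, zero_mul]

theorem ram_mult (x : ℤ) : (ram x).IsMultiplicative :=
  ArithmeticFunction.isMultiplicative_moebius.mul (gx_mult x)

theorem ram_mul {m n : ℕ} (h : m.Coprime n) (x : ℤ) : ram x (m * n) = ram x m * ram x n :=
  (ram_mult x).map_mul_of_coprime h

theorem ram_one (x : ℤ) : ram x 1 = 1 := (ram_mult x).map_one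

theorem ram_prime {p : ℕ} (hp : p.Prime) (x : ℤ) :
    ram x p = (if (p : ℤ) ∣ x then (p : ℤ) else 0) - 1 := by
  unfold ram
  rw [ArithmeticFunction.mul_apply, Nat.sum_divisorsAntidiagonal (fun i j => μ i * gx x j),
    Nat.Prime.divisors hp, Finset.sum_pair hp.one_lt.ne, Nat.div_one, Nat.div_self hp.pos,
    ArithmeticFunction.moebius_apply_one, ArithmeticFunction.moebius_apply_prime hp, gx_apply,
    gx_apply]
  simp
  ring

/-- Sum over all roots of unity. -/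
theorem sum_nthRoots {n : ℕ} (hn : 0 < n) (x : ℤ) :
    ∑ η ∈ Polynomial.nthRootsFinset n (1 : ℂ), η ^ x = ((gx x n : ℤ) : ℂ) := by
  have hζ := Complex.isPrimitiveRoot_exp n hn.ne'
  set ζ : ℂ := Complex.exp (2 * Real.pi * Complex.I / n) with hζdef
  have h1 : ∑ η ∈ Polynomial.nthRootsFinset n (1 : ℂ), η ^ x = ∑ k ∈ range n, (ζ ^ x) ^ k := by
    symm
    refine Finset.sum_nbij (fun k => ζ ^ k) ?_ ?_ ?_ ?_
    · intro k _
      rw [Polynomial.mem_nthRootsFinset hn, ← pow_mul, mul_comm, pow_mul, hζ.pow_eq_one, one_pow]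
    · intro i hi j hj hij
      exact hζ.pow_inj (mem_range.1 hi) (mem_range.1 hj) hij
    · intro η hη
      rw [Finset.mem_coe, Polynomial.mem_nthRootsFinset hn] at hη
      have : NeZero n := ⟨hn.ne'⟩
      obtain ⟨i, hi, rfl⟩ := hζ.eq_pow_of_pow_eq_one hη
      exact ⟨i, by simpa using hi, rfl⟩
    · intro k _
      rw [← zpow_natCast, ← zpow_mul, ← zpow_natCast ζ k, ← zpow_mul, mul_comm]
  rw [h1, gx_apply]
  by_cases h : (n : ℤ) ∣ x
  · rw [if_pos h, (hζ.zpow_eq_one_iff_dvd x).2 h]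
    simp
  · rw [if_neg h]
    have h2 : ζ ^ x ≠ 1 := fun hh => h ((hζ.zpow_eq_one_iff_dvd x).1 hh)
    have h3 : (ζ ^ x) ^ n = 1 := by
      rw [← zpow_natCast, ← zpow_mul, mul_comm, zpow_mul, zpow_natCast, hζ.pow_eq_one, one_zpow]
    have h4 := mul_neg_geom_sum (ζ ^ x) n
    rw [h3, sub_self, mul_eq_zero] at h4
    rcases h4 with h4 | h4
    · exact absurd (sub_eq_zero.1 h4).symm h2
    · rw [h4]; simp

/-- Ramanujan sums. -/
theorem sum_primitiveRoots {n : ℕ} (hn : 0 < n) (x : ℤ) :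
    ∑ η ∈ primitiveRoots n ℂ, η ^ x = ((ram x n : ℤ) : ℂ) := by
  classical
  have h := (ArithmeticFunction.sum_eq_iff_sum_mul_moebius_eq
    (f := fun n => ∑ η ∈ primitiveRoots n ℂ, η ^ x)
    (g := fun n => ∑ η ∈ Polynomial.nthRootsFinset n (1 : ℂ), η ^ x)).1 (by
      intro m _
      rw [IsPrimitiveRoot.nthRoots_one_eq_biUnion_primitiveRoots,
        Finset.sum_biUnion (fun i _ j _ hij => IsPrimitiveRoot.disjoint hij)]) n hn
  rw [← h]
  unfold ram
  rw [ArithmeticFunction.mul_apply]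
  push_cast
  refine Finset.sum_congr rfl fun y hy => ?_
  have hy2 : 0 < y.2 := Nat.pos_of_mem_divisors (Nat.snd_mem_divisors_of_mem_antidiagonal hy)
  rw [sum_nthRoots hy2]

/-- The value of the Hermitian form at an exponential sum. -/
theorem sum_norm_sq {n : ℕ} (hn : 0 < n) {ι : Type*} [Fintype ι] (e : ι → ℕ) (a : ι → ℤ) :
    ∑ η ∈ primitiveRoots n ℂ, ‖∑ i, (a i : ℂ) * η ^ e i‖ ^ 2
      = ((∑ i, ∑ i', a i * a i' * ram ((e i : ℤ) - e i') n : ℤ) : ℝ) := by
  have h : ((∑ η ∈ primitiveRoots n ℂ, ‖∑ i, (a i : ℂ) * η ^ e i‖ ^ 2 : ℝ) : ℂ)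
      = ((∑ i, ∑ i', a i * a i' * ram ((e i : ℤ) - e i') n : ℤ) : ℂ) := by
    push_cast
    have h1 : ∀ η ∈ primitiveRoots n ℂ, ((‖∑ i, (a i : ℂ) * η ^ e i‖ : ℝ) : ℂ) ^ 2
        = ∑ i, ∑ i', (a i : ℂ) * a i' * η ^ ((e i : ℤ) - e i') := by
      intro η hη
      have hη' := (mem_primitiveRoots hn).1 hη
      have hnorm : ‖η‖ = 1 := hη'.norm'_eq_one hn.ne'
      have hη0 : η ≠ 0 := by intro h; rw [h, norm_zero] at hnorm; exact zero_ne_one hnorm
      have hconj : (starRingEnd ℂ) η = η⁻¹ := by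
        rw [Complex.inv_def, Complex.normSq_eq_norm_sq, hnorm]; simp
      rw [← Complex.ofReal_pow, ← Complex.normSq_eq_norm_sq, ← Complex.mul_conj, map_sum,
        Finset.sum_mul_sum]
      refine Finset.sum_congr rfl fun i _ => Finset.sum_congr rfl fun i' _ => ?_
      rw [map_mul, map_pow, hconj, map_intCast, zpow_sub₀ hη0, zpow_natCast, zpow_natCast, inv_pow,
        div_eq_mul_inv]
      ring
    rw [Finset.sum_congr rfl h1, Finset.sum_comm]
    refine Finset.sum_congr rfl fun i _ => ?_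
    rw [Finset.sum_comm]
    refine Finset.sum_congr rfl fun i' _ => ?_
    rw [← Finset.mul_sum, sum_primitiveRoots hn]
  exact_mod_cast h

end Pool.Agent.Work.MP_097698_nt
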