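import Pool.Agent.Work.MP_097698_nt.Gen

namespace Pool.Agent.Work.MP_097698_nt

open Finset

/-- All large values: every `v ≥ m²` is a value of the half form. -/
def Large (m : ℕ) : Prop := ∀ v : ℤ, (m : ℤ) ^ 2 ≤ v → IsVal m (2 * v)

theorem Q_nonneg {m : ℕ} (hm : 0 < m) (α : Fin m → ℤ) : 0 ≤ Q m α := by
  have h := sum_Lf_sq hm α
  have h2 : 0 ≤ ∑ x, Lf m α x ^ 2 := Finset.sum_nonneg fun _ _ => sq_nonneg _
  rw [h] at h2
  have : (0 : ℤ) < m := by exact_mod_cast hm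
  exact nonneg_of_mul_nonneg_right h2 this

theorem Lf_bound {m : ℕ} (hm : 0 < m) (α : Fin m → ℤ) (x : Fin m) :
    2 * |Lf m α x| ≤ Q m α + (Nat.totient m : ℤ) := by
  have h1 := Q_nonneg hm (α + Pi.single x 1)
  have h2 := Q_nonneg hm (α + Pi.single x (-1))
  rw [Q_add_single hm] at h1 h2
  rcases abs_cases (Lf m α x) with ⟨h, _⟩ | ⟨h, _⟩ <;> rw [h] <;> linarith

theorem sum_fin5 {l : ℕ} (hl : 5 ≤ l) {M : Type*} [AddCommMonoid M] (a b c d : M) :
    ∃ f : Fin l → M, (∀ {N : Type} [AddCommMonoid N] (g : M → N), g 0 = 0 →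
      ∑ i, g (f i) = g a + g b + g c + g d) := by
  obtain ⟨k, rfl⟩ : ∃ k, l = k + 4 := ⟨l - 4, by omega⟩
  refine ⟨Fin.cons a (Fin.cons b (Fin.cons c (Fin.cons d (fun _ : Fin k => (0 : M))))), ?_⟩
  intro N _ g hg
  rw [Fin.sum_univ_succ, Fin.sum_univ_succ, Fin.sum_univ_succ, Fin.sum_univ_succ]
  simp only [Fin.cons_zero, Fin.cons_succ, hg, Finset.sum_const_zero, add_zero, add_assoc]

theorem step {l m : ℕ} (hl : l.Prime) (hl5 : 5 ≤ l) (hm : Odd m) (hm9 : 9 ≤ m)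
    (hco : Nat.Coprime l m) (h : Large m) : Large (l * m) := by
  intro v hv
  have hm0 : 0 < m := by omega
  have hlz : (5 : ℤ) ≤ l := by exact_mod_cast hl5
  have hm2 : (0 : ℤ) ≤ (m : ℤ) ^ 2 := sq_nonneg _
  have hmz : (9 : ℤ) ≤ m := by exact_mod_cast hm9
  push_cast at hv
  -- choose s odd, s ≡ -v mod l, m² ≤ s < m² + 2 l
  obtain ⟨s, hs1, hs2, hs3, hs4⟩ : ∃ s : ℤ, (m : ℤ) ^ 2 ≤ s ∧ s < (m : ℤ) ^ 2 + 2 * l ∧ Odd s ∧
      (l : ℤ) ∣ v + s := by
    have hodd : Odd l := hl.odd_of_ne_two (by omega)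
    -- s0 = m² + ((-v - m²) mod l), then correct the parity by adding l
    set r := (-v - (m : ℤ) ^ 2) % l with hr
    have r0 : 0 ≤ r := Int.emod_nonneg _ (by omega)
    have r1 : r < l := Int.emod_lt_of_pos _ (by omega)
    have r2 : (l : ℤ) ∣ v + ((m : ℤ) ^ 2 + r) := by
      have := Int.emod_add_mul_ediv (-v - (m : ℤ) ^ 2) l
      rw [← hr] at this
      refine ⟨-((-v - (m : ℤ) ^ 2) / l), ?_⟩
      linear_combination this
    rcases Int.even_or_odd ((m : ℤ) ^ 2 + r) with he | ho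
    · refine ⟨(m : ℤ) ^ 2 + r + l, by omega, by omega, ?_, ?_⟩
      · have : Odd (l : ℤ) := by exact_mod_cast hodd
        exact he.add_odd this
      · have := dvd_add r2 (dvd_refl (l : ℤ))
        rwa [add_assoc v] at this
    · exact ⟨(m : ℤ) ^ 2 + r, by omega, by omega, ho, r2⟩
  obtain ⟨σ, hσ⟩ := (isVal_iff_Q hm0 _).1 (h s hs1)
  obtain ⟨x, hx⟩ := exists_odd_Lf hm σ s hs3 hσ
  obtain ⟨T, hT⟩ := hs4
  have hφ : Even (Nat.totient m) := Nat.totient_even (by omega)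
  obtain ⟨φ', hφ'⟩ := hφ
  have hφm : (Nat.totient m : ℤ) ≤ m := by exact_mod_cast Nat.totient_le m
  have hLb := Lf_bound hm0 σ x
  rw [hσ] at hLb
  have hLb1 := (abs_le.1 (show |Lf m σ x| ≤ s + φ' by rw [hφ'] at hLb; push_cast at hLb; omega)).1
  -- lower bound for T
  have hTlow : (l : ℤ) * (m : ℤ) ^ 2 ≤ T := by
    have h1 : (l : ℤ) * ((l : ℤ) * (m : ℤ) ^ 2) ≤ l * T := by
      rw [← hT]
      have : (l : ℤ) * ((l : ℤ) * (m : ℤ) ^ 2) = ((l : ℤ) * m) ^ 2 := by ring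
      rw [this]
      nlinarith [sq_nonneg (m : ℤ)]
    exact le_of_mul_le_mul_left h1 (by linarith)
  have hφle : 2 * (φ' : ℤ) ≤ m := by
    have : (Nat.totient m : ℤ) = φ' + φ' := by exact_mod_cast hφ'
    linarith
  have hkey : 2 * (m : ℤ) ^ 2 + s + s + 3 * φ' ≤ l * (m : ℤ) ^ 2 := by
    -- s < m² + 2l
    have h1 : (4 : ℤ) * (m : ℤ) ^ 2 + 4 * l + 2 * m ≤ l * (m : ℤ) ^ 2 := by
      nlinarith [mul_nonneg (sub_nonneg.2 hlz) (sub_nonneg.2 hmz), mul_nonneg (sub_nonneg.2 hmz) (sub_nonneg.2 hmz),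
        mul_nonneg (mul_nonneg (sub_nonneg.2 hlz) (sub_nonneg.2 hmz)) (sub_nonneg.2 hmz)]
    omega
  rcases Int.even_or_odd (T - s) with he | ho
  · -- even case
    obtain ⟨u, hu⟩ := he
    obtain ⟨α, hα⟩ := (isVal_iff_Q hm0 _).1 (h u (by omega))
    obtain ⟨f, hf⟩ := sum_fin5 hl5 σ α (-α) 0
    have h1 := isVal_mul hl hm0 hco f
    have h2 : ∑ i, f i = σ := by
      have := hf (N := Fin m → ℤ) id rfl
      simpa using this
    have h3 := hf (N := ℤ) (Q m) (Q_zero m)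
    rw [h2, h3, Q_neg, Q_zero, hσ, hα] at h1
    have e : 2 * v = l * (2 * s + 2 * u + 2 * u + 0) - 2 * s := by
      have : T = s + u + u := by linarith
      rw [this] at hT
      linear_combination 2 * hT
    rw [e]
    exact h1
  · -- odd case
    have hodd2 : Even (T - s + Lf m σ x - 2 * φ') := by
      have := ho.add_odd hx
      exact this.sub (even_two_mul _)
    obtain ⟨u, hu⟩ := hodd2
    obtain ⟨α, hα⟩ := (isVal_iff_Q hm0 _).1 (h u (by omega))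
    obtain ⟨f, hf⟩ := sum_fin5 hl5 (σ + Pi.single x (-1)) (Pi.single x 1) α (-α)
    have h1 := isVal_mul hl hm0 hco f
    have h2 : ∑ i, f i = σ := by
      have := hf (N := Fin m → ℤ) id rfl
      simp only [id] at this
      rw [this]
      have e3 : (Pi.single x (-1 : ℤ) : Fin m → ℤ) = -Pi.single x 1 := by
        rw [← Pi.single_neg]
      rw [e3]; abel
    have h3 := hf (N := ℤ) (Q m) (Q_zero m)
    rw [h2, h3, Q_neg, Q_add_single hm0, Q_single hm0, hσ, hα] at h1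
    have hφz : (Nat.totient m : ℤ) = φ' + φ' := by exact_mod_cast hφ'
    rw [hφz] at h1
    have e : 2 * v = l * (2 * s + (-1) ^ 2 * ((φ' : ℤ) + φ') + 2 * (-1) * Lf m σ x
        + 1 ^ 2 * ((φ' : ℤ) + φ') + 2 * u + 2 * u) - 2 * s := by
      have : T = s - Lf m σ x + 2 * φ' + u + u := by linarith
      rw [this] at hT
      linear_combination 2 * hT
    rw [e]
    exact h1

end Pool.Agent.Work.MP_097698_nt
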