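import Pool.Agent.Work.MP_097698_nt.PQ

namespace Pool.Agent.Work.MP_097698_nt

open Finset

/-- Values for two odd primes. -/
theorem isVal_pq_iff {p q : ℕ} (hp : p.Prime) (hq : q.Prime) (hp2 : p ≠ 2) (hpq : p < q) (v : ℤ) :
    IsVal (p * q) v ↔ ∃ (r : Fin p → ℕ) (c : Fin q → ℕ) (k : ℕ), GaleRyser r c ∧
      (gap r c ≠ 0 ∨ k ≠ 1) ∧ v = gap r c + 2 * (p * q : ℤ) * k := by
  have hp3 : 3 ≤ p := by
    have := hp.two_le
    omega
  have hq5 : 5 ≤ q := by
    rcases Nat.lt_or_ge q 5 with h | h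
    · exfalso
      have : q = 4 := by omega
      subst this
      exact absurd hq (by norm_num)
    · exact h
  rw [isVal_pq hp hq hpq.ne, values_V (by simpa using hp3) (by simpa using hq5)]
  have hW : ∀ (r : Fin p → ℕ) (c : Fin q → ℕ), Wrc r c = gap r c := by
    intro r c
    unfold Wrc gap
    simp only [Fintype.card_fin]
  simp only [hW, Fintype.card_fin]
  rfl

/-- The conductor: `rd n` is `pq` or `2pq`. -/
theorem rd_two {n p q : ℕ} (hp : p.Prime) (hq : q.Prime) (hp2 : p ≠ 2) (hpq : p < q)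
    (h : n.primeFactors \ {2} = {p, q}) :
    (∀ v, IsVal (rd n) v ↔ IsVal (p * q) v) ∧ Nat.totient (rd n) = (p - 1) * (q - 1) := by
  have hq2 : q ≠ 2 := by
    have := hp.two_le
    omega
  have hodd : Odd (p * q) := (hp.odd_of_ne_two hp2).mul (hq.odd_of_ne_two hq2)
  have hco : Nat.Coprime p q := (Nat.coprime_primes hp hq).2 hpq.ne
  have htot : Nat.totient (p * q) = (p - 1) * (q - 1) := by
    rw [Nat.totient_mul hco, Nat.totient_prime hp, Nat.totient_prime hq]
  by_cases h2 : 2 ∈ n.primeFactors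
  · have hset : n.primeFactors = insert 2 {p, q} := by
      rw [← h, Finset.insert_sdiff_self_of_mem h2] 
    have hrd : rd n = 2 * (p * q) := by
      unfold rd
      rw [hset, Finset.prod_insert, Finset.prod_pair hpq.ne]
      simp [hp2.symm, hq2.symm]
    rw [hrd]
    refine ⟨fun v => isVal_two_mul hodd v, ?_⟩
    rw [Nat.totient_mul ((Nat.coprime_two_left).2 hodd), Nat.totient_two, one_mul, htot]
  · have hset : n.primeFactors = {p, q} := by
      rw [← h, Finset.sdiff_singleton_eq_erase, Finset.erase_eq_of_notMem h2]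
    have hrd : rd n = p * q := by
      unfold rd
      rw [hset, Finset.prod_pair hpq.ne]
    rw [hrd]
    exact ⟨fun v => Iff.rfl, htot⟩

theorem two_main {p q : ℕ} (hp : p.Prime) (hq : q.Prime) (hp2 : p ≠ 2) (hpq : p < q)
    {n : ℕ} (h : n.primeFactors \ {2} = {p, q}) :
    casselsSet n = {x : ℝ | ∃ (r : Fin (n / rd n) → Fin p → ℕ) (c : Fin (n / rd n) → Fin q → ℕ)
      (k : ℕ), (∀ t, GaleRyser (r t) (c t)) ∧ ((∃ t, gap (r t) (c t) ≠ 0) ∨ k ≠ 1) ∧
      x = ((∑ t, gap (r t) (c t) + 2 * (p * q : ℤ) * k : ℤ) : ℝ) / (((p : ℝ) - 1) * ((q : ℝ) - 1))} := by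
  have hn : 0 < n := by
    rcases Nat.eq_zero_or_pos n with h0 | h0
    · subst h0
      have : p ∈ ((0 : ℕ).primeFactors \ {2} : Finset ℕ) := by rw [h]; simp
      simp at this
    · exact h0
  obtain ⟨h1, h2⟩ := rd_two hp hq hp2 hpq h
  set N := n / rd n with hNdef
  have hN : n = N * rd n := (Nat.div_mul_cancel (rd_dvd n)).symm
  have hφ : ((Nat.totient (rd n) : ℕ) : ℝ) = ((p : ℝ) - 1) * ((q : ℝ) - 1) := by
    rw [h2]
    push_cast [Nat.cast_sub hp.one_le, Nat.cast_sub hq.one_le]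
    ring
  ext x
  rw [mem_casselsSet_rd hn hN, hφ, Set.mem_setOf_eq]
  constructor
  · rintro ⟨w, hw, rfl⟩
    have hw' : ∀ t, ∃ (r : Fin p → ℕ) (c : Fin q → ℕ) (k : ℕ), GaleRyser r c ∧
      (gap r c ≠ 0 ∨ k ≠ 1) ∧ w t = gap r c + 2 * (p * q : ℤ) * k := fun t =>
      (isVal_pq_iff hp hq hp2 hpq (w t)).1 ((h1 _).1 (hw t))
    choose r c k hGR hor hwt using hw'
    refine ⟨r, c, ∑ t, k t, hGR, ?_, ?_⟩
    · by_contra hcon
      push Not at hcon
      obtain ⟨hz, hk⟩ := hcon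
      obtain ⟨t, _, ht⟩ : ∃ t ∈ (univ : Finset (Fin N)), 0 < k t := by
        by_contra hc
        push Not at hc
        have : ∑ t, k t = 0 := Finset.sum_eq_zero fun t ht => Nat.le_zero.1 (hc t ht)
        omega
      have hle : k t ≤ ∑ t, k t := Finset.single_le_sum (fun _ _ => Nat.zero_le _) (mem_univ t)
      have : k t = 1 := by omega
      rcases hor t with h | h
      · exact h (hz t)
      · exact h this
    · congr 2
      push_cast
      rw [Finset.mul_sum, ← Finset.sum_add_distrib]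
      exact Finset.sum_congr rfl fun t _ => hwt t
  · rintro ⟨r, c, k, hGR, hor, rfl⟩
    have hN0 : 0 < N := by
      rcases Nat.eq_zero_or_pos N with h | h
      · rw [h, zero_mul] at hN; omega
      · exact h
    obtain ⟨t0, ht0⟩ : ∃ t0 : Fin N, gap (r t0) (c t0) ≠ 0 ∨ k ≠ 1 := by
      rcases hor with ⟨t, ht⟩ | hk
      · exact ⟨t, Or.inl ht⟩
      · exact ⟨⟨0, hN0⟩, Or.inr hk⟩
    refine ⟨fun t => gap (r t) (c t) + 2 * (p * q : ℤ) * ((if t = t0 then k else 0 : ℕ) : ℤ), fun t => ?_, ?_⟩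
    · rw [h1, isVal_pq_iff hp hq hp2 hpq]
      refine ⟨r t, c t, if t = t0 then k else 0, hGR t, ?_, rfl⟩
      by_cases ht : t = t0
      · rw [if_pos ht, ht]; exact ht0
      · rw [if_neg ht]; exact Or.inr (by norm_num)
    · congr 2
      rw [Finset.sum_add_distrib, ← Finset.mul_sum]
      congr 2
      simp

end Pool.Agent.Work.MP_097698_nt
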